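import Pool.Agent.W_7d29a1_h46u.Defs

/-!
Almost every point has second order expansions along the coordinate directions.
-/

namespace Pool.Agent.W_7d29a1_h46u

open MeasureTheory ProbabilityTheory Filter Topology Set Pool.Agent.W_7d29a1_h46

variable {d : ℕ}

lemma FubA_iff {L : Vec d → ℝ} (j : Fin d) (C : ℝ) (h : Vec d) :
    (∃ v : ℝ, ∀ t : ℝ, |t| ≤ 1 → L (h + t • ej j) ≤ L h + v * t + C * t ^ 2) ↔
      ∀ s ∈ Ioc (0 : ℝ) 1, ∀ t ∈ Ioc (0 : ℝ) 1,
        (L (h + t • ej j) - L h) / t - C * t ≤ (L h - L (h - s • ej j)) / s + C * s := by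
  constructor
  · rintro ⟨v, hv⟩ s hs t ht
    have h1 := hv t (by rw [abs_of_pos ht.1]; exact ht.2)
    have h2 := hv (-s) (by rw [abs_neg, abs_of_pos hs.1]; exact hs.2)
    rw [neg_smul, ← sub_eq_add_neg] at h2
    have e1 : (L (h + t • ej j) - L h) / t - C * t ≤ v := by
      rw [sub_le_iff_le_add, div_le_iff₀ ht.1]
      nlinarith
    have e2 : v ≤ (L h - L (h - s • ej j)) / s + C * s := by
      rw [← sub_le_iff_le_add, le_div_iff₀ hs.1]
      nlinarith
    exact e1.trans e2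
  · intro hst
    have hne : ((fun t : ℝ => (L (h + t • ej j) - L h) / t - C * t) '' Ioc (0 : ℝ) 1).Nonempty :=
      ⟨_, 1, ⟨one_pos, le_rfl⟩, rfl⟩
    have hbd : BddAbove ((fun t : ℝ => (L (h + t • ej j) - L h) / t - C * t) '' Ioc (0 : ℝ) 1) := by
      refine ⟨(L h - L (h - (1 : ℝ) • ej j)) / 1 + C * 1, ?_⟩
      rintro _ ⟨t, ht, rfl⟩
      exact hst 1 ⟨one_pos, le_rfl⟩ t ht
    refine ⟨sSup ((fun t : ℝ => (L (h + t • ej j) - L h) / t - C * t) '' Ioc (0 : ℝ) 1), ?_⟩
    intro t ht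
    rcases lt_trichotomy t 0 with h0 | h0 | h0
    · rw [abs_of_neg h0] at ht
      have h1 : sSup ((fun t : ℝ => (L (h + t • ej j) - L h) / t - C * t) '' Ioc (0 : ℝ) 1) ≤
          (L h - L (h - (-t) • ej j)) / (-t) + C * (-t) := by
        refine csSup_le hne ?_
        rintro _ ⟨r, hr, rfl⟩
        exact hst (-t) ⟨by linarith, ht⟩ r hr
      rw [neg_smul, sub_neg_eq_add, ← sub_le_iff_le_add, le_div_iff₀ (by linarith)] at h1
      nlinarith
    · subst h0
      simp
    · rw [abs_of_pos h0] at ht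
      have h1 := le_csSup hbd ⟨t, ⟨h0, ht⟩, rfl⟩
      simp only at h1
      rw [sub_le_iff_le_add, div_le_iff₀ h0] at h1
      nlinarith

/-- TASK FubA. The set of `h` with an expansion of constant `C` along `e_j` is closed: it is the set of
`h` such that for all `0 < s ≤ 1`, `0 < t ≤ 1`
`(L h - L (h - s e_j)) / s + C s ≥ (L (h + t e_j) - L h) / t - C t` (a number `v` between the infimum
over `s` of the left sides and the supremum over `t` of the right sides does it; for `s = t = 1` the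
sup and inf are finite), and `L` is continuous (`ConvexOn.continuousOn`, finite dimension). -/
lemma closed_exp {L : Vec d → ℝ} (hL : ConvexOn ℝ univ L) (j : Fin d) (C : ℝ) :
    IsClosed {h : Vec d | ∃ v : ℝ, ∀ t : ℝ, |t| ≤ 1 → L (h + t • ej j) ≤ L h + v * t + C * t ^ 2} := by
  have hc : Continuous L := hL.locallyLipschitz.continuous
  have h1 : {h : Vec d | ∃ v : ℝ, ∀ t : ℝ, |t| ≤ 1 → L (h + t • ej j) ≤ L h + v * t + C * t ^ 2} =
      ⋂ s ∈ Ioc (0 : ℝ) 1, ⋂ t ∈ Ioc (0 : ℝ) 1, {h : Vec d |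
        (L (h + t • ej j) - L h) / t - C * t ≤ (L h - L (h - s • ej j)) / s + C * s} := by
    ext h
    rw [mem_iInter₂]
    refine (FubA_iff j C h).trans (forall₂_congr fun s _ => ?_)
    rw [mem_iInter₂]
    rfl
  rw [h1]
  refine isClosed_biInter fun s _ => isClosed_biInter fun t _ => isClosed_le ?_ ?_
  · fun_prop
  · fun_prop

end Pool.Agent.W_7d29a1_h46u
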