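import Pool.Agent.W_7d29a1_h46.Peano
import Pool.Agent.W_7d29a1_h46u.FubA

/-!
Almost every point has second order expansions along the coordinate directions.
-/

namespace Pool.Agent.W_7d29a1_h46u

open MeasureTheory ProbabilityTheory Filter Topology Set Pool.Agent.W_7d29a1_h46

variable {d : ℕ}

/-- The expansion along `e_j` with the constant `C`. -/
def Fub_S (L : Vec d → ℝ) (j : Fin d) (C : ℝ) : Set (Vec d) :=
  {h : Vec d | ∃ v : ℝ, ∀ t : ℝ, |t| ≤ 1 → L (h + t • ej j) ≤ L h + v * t + C * t ^ 2}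

lemma Fub_union (L : Vec d → ℝ) (j : Fin d) :
    (⋃ C : ℝ, Fub_S L j C) = ⋃ C : ℕ, Fub_S L j C := by
  ext h
  rw [mem_iUnion, mem_iUnion]
  constructor
  · rintro ⟨C, v, hv⟩
    obtain ⟨N, hN⟩ := exists_nat_ge C
    refine ⟨N, v, fun t ht => (hv t ht).trans ?_⟩
    have := mul_le_mul_of_nonneg_right hN (sq_nonneg t)
    linarith
  · rintro ⟨C, hC⟩
    exact ⟨C, hC⟩

lemma Fub_ae {L : Vec d → ℝ} (hL : ConvexOn ℝ univ L) (j : Fin d) :
    ∀ᵐ h : Vec d, h ∈ ⋃ C : ℝ, Fub_S L j C := by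
  have hm : MeasurableSet (⋃ C : ℝ, Fub_S L j C) := by
    rw [Fub_union]
    exact MeasurableSet.iUnion fun C => (closed_exp hL j C).measurableSet
  let T : ℝ →L[ℝ] Vec d := ContinuousLinearMap.smulRight (1 : ℝ →L[ℝ] ℝ) (ej j)
  refine ae_mem_of_ae_add_linearMap_mem T.toLinearMap volume volume hm ?_
  intro y
  have hT : ∀ x : ℝ, T.toLinearMap x = x • ej j := by
    intro x
    simp [T]
  have hc : ConvexOn ℝ univ fun x : ℝ => L (y + x • ej j) := by
    refine ⟨convex_univ, fun a _ b _ p q hp hq hpq => ?_⟩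
    have h1 := hL.2 (mem_univ (y + a • ej j)) (mem_univ (y + b • ej j)) hp hq hpq
    have h2 : p • (y + a • ej j) + q • (y + b • ej j) = y + (p • a + q • b) • ej j := by
      have h3 : p • y + q • y = y := by rw [← add_smul, hpq, one_smul]
      simp only [smul_add, add_smul, smul_smul, smul_eq_mul]
      calc p • y + (p * a) • ej j + (q • y + (q * b) • ej j)
          = (p • y + q • y) + ((p * a) • ej j + (q * b) • ej j) := by abel
        _ = y + ((p * a) • ej j + (q * b) • ej j) := by rw [h3]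
    rw [h2] at h1
    exact h1
  filter_upwards [ae_expd hc] with x hx
  obtain ⟨v, C, hv⟩ := hx
  rw [mem_iUnion]
  refine ⟨C, v, fun t ht => ?_⟩
  have h1 := hv t ht
  rw [hT]
  have h2 : y + x • ej j + t • ej j = y + (x + t) • ej j := by
    rw [add_smul, add_assoc]
  rw [h2]
  have h3 : |t| ^ ((1 : ℝ) + 1) = t ^ 2 := by
    rw [show (1 : ℝ) + 1 = ((2 : ℕ) : ℝ) by norm_num, Real.rpow_natCast, sq_abs]
  rw [h3] at h1
  exact h1

/-- TASK Fub. For each `j` the set `S_j = {h | ∃ C v, ∀ |t| ≤ 1, ...}` is measurable (countable union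
over `C ∈ ℕ` of the closed sets of `closed_exp`; a larger `C` is weaker). On each line
`{y + x e_j}` the function `x ↦ L (y + x e_j)` is convex, so by `ae_expd` (file `Peano.lean`) almost
every `x` is good; conclude with `MeasureTheory.ae_mem_of_ae_add_linearMap_mem`
(`Mathlib/MeasureTheory/Measure/Haar/Disintegration.lean`, see its use in `Rademacher.lean`) with the
linear map `x ↦ x • ej j`. Finally take the intersection over `j` and `C = ∑_j |C_j|`. -/
theorem ae_ExpC {L : Vec d → ℝ} (hL : ConvexOn ℝ univ L) : ∀ᵐ h : Vec d, ∃ v, ExpC L h v := by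
  have h1 : ∀ᵐ h : Vec d, ∀ j : Fin d, h ∈ ⋃ C : ℝ, Fub_S L j C :=
    ae_all_iff.2 fun j => Fub_ae hL j
  filter_upwards [h1] with h hh
  have h2 : ∀ j : Fin d, ∃ C v : ℝ, ∀ t : ℝ, |t| ≤ 1 →
      L (h + t • ej j) ≤ L h + v * t + C * t ^ 2 := by
    intro j
    obtain ⟨C, v, hv⟩ := mem_iUnion.1 (hh j)
    exact ⟨C, v, hv⟩
  choose C v hv using h2
  refine ⟨WithLp.toLp 2 v, ∑ i, |C i|, fun j t ht => (hv j t ht).trans ?_⟩
  have h3 : C j ≤ ∑ i, |C i| := (le_abs_self _).trans
    (Finset.single_le_sum (f := fun i => |C i|) (fun i _ => abs_nonneg _) (Finset.mem_univ j))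
  have h4 := mul_le_mul_of_nonneg_right h3 (sq_nonneg t)
  simp only
  linarith

end Pool.Agent.W_7d29a1_h46u
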