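import Pool.Agent.W_7d29a1_h46u.ConcU

/-!
Concentration of the logarithm of the partition function: all moments.
-/

namespace Pool.Agent.W_7d29a1_h46u

open MeasureTheory ProbabilityTheory Filter Topology Pool.Agent.W_MP_7d29a1_pr
  Pool.Agent.W_7d29a1_h46

variable {d : ℕ} {ρ : Measure ℝ} [IsProbabilityMeasure ρ]

theorem ConcV_meas (β : ℝ) (h : Vec d) (n : ℕ) :
    Measurable fun ξ : Fin n → Site d → ℝ => Real.log (Zr β h n ξ) := by
  refine Real.measurable_log.comp ?_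
  unfold Zr
  refine Finset.measurable_sum _ fun s _ => Real.measurable_exp.comp ?_
  refine (Measurable.const_mul (Finset.measurable_sum _ fun i _ => ?_) β).const_add _
  exact (measurable_pi_apply _).comp (measurable_pi_apply i)

theorem ConcV_eq (β : ℝ) (h : Vec d) (n : ℕ) (η : Env d) :
    Real.log (Zr β h n (fun (i : Fin n) (y : Site d) => η ((i : ℕ) + 1, y))) = X β h η n := by
  unfold X
  rw [Z_eq]
  rfl

/-- TASK ConcV1. Apply `conc_pi` with `row_bound` to `F ξ = log (Zr β h n ξ)`; `Z β h η n = Zr β h n`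
(rows of `η`) by `Z_eq`, `wgt`, `energy`; transfer with `mp_rows`. -/
theorem concU (hd : 0 < d) (hρ : EM ρ) (β : ℝ) (h : Vec d) (n : ℕ) :
    Integrable (fun η => X β h η n) (law d ρ) ∧ ∀ θ : ℝ, |θ| ≤ 1 →
      Integrable (fun η => Real.exp (θ * (X β h η n - A ρ β h n))) (law d ρ) ∧
      ∫ η, Real.exp (θ * (X β h η n - A ρ β h n)) ∂(law d ρ) ≤
        Real.exp (Kc β ρ ^ 2 * θ ^ 2 * n) := by
  have hmp := mp_rows (d := d) (ρ := ρ) n
  have hFm := ConcV_meas (d := d) β h n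
  obtain ⟨h1, h2⟩ := conc_pi n (fun ξ : Fin n → Site d → ℝ => Real.log (Zr β h n ξ)) hFm
    (fun i => row_bound hd hρ β h n i)
  have hA : ∫ ξ, Real.log (Zr β h n ξ)
      ∂(Measure.pi fun _ : Fin n => Measure.infinitePi fun _ : Site d => ρ) = A ρ β h n := by
    rw [← hmp.map_eq, integral_map hmp.measurable.aemeasurable hFm.aestronglyMeasurable]
    unfold A
    exact integral_congr_ae (Filter.Eventually.of_forall fun η => ConcV_eq β h n η)
  rw [hA] at h2
  have e0 : (fun η : Env d => X β h η n) = (fun ξ : Fin n → Site d → ℝ => Real.log (Zr β h n ξ)) ∘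
      (fun (η : Env d) (i : Fin n) (y : Site d) => η ((i : ℕ) + 1, y)) := by
    funext η
    exact (ConcV_eq β h n η).symm
  refine ⟨?_, fun θ hθ => ?_⟩
  · rw [e0]
    exact hmp.integrable_comp_of_integrable h1
  · obtain ⟨h3, h4⟩ := h2 θ hθ
    have e1 : (fun η : Env d => Real.exp (θ * (X β h η n - A ρ β h n))) =
        (fun ξ : Fin n → Site d → ℝ => Real.exp (θ * (Real.log (Zr β h n ξ) - A ρ β h n))) ∘
        (fun (η : Env d) (i : Fin n) (y : Site d) => η ((i : ℕ) + 1, y)) := by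
      funext η
      simp only [Function.comp]
      rw [ConcV_eq β h n η]
    refine ⟨?_, ?_⟩
    · rw [e1]
      exact hmp.integrable_comp_of_integrable h3
    · have h5 : ∫ η, Real.exp (θ * (X β h η n - A ρ β h n)) ∂(law d ρ) =
          ∫ ξ, Real.exp (θ * (Real.log (Zr β h n ξ) - A ρ β h n))
            ∂(Measure.pi fun _ : Fin n => Measure.infinitePi fun _ : Site d => ρ) := by
        have hm2 : Measurable fun ξ : Fin n → Site d → ℝ =>
            Real.exp (θ * (Real.log (Zr β h n ξ) - A ρ β h n)) :=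
          Real.measurable_exp.comp ((hFm.sub_const _).const_mul θ)
        rw [← hmp.map_eq, integral_map hmp.measurable.aemeasurable hm2.aestronglyMeasurable]
        exact integral_congr_ae (Filter.Eventually.of_forall fun η => by
          simp only [ConcV_eq β h n η])
      rw [h5]
      exact h4

/-- TASK ConcV2. With `θ = ± n ^ (-1/2)` and `y = |X - A| / √n`:
`y ^ q / q! ≤ exp y ≤ exp (θ (X - A)) + exp (-θ (X - A))` (`Real.pow_div_factorial_le_exp`), so
`∫ |X - A| ^ q ≤ 2 q! exp (Kc ^ 2) n ^ (q / 2)`. -/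
theorem momU (hd : 0 < d) (hρ : EM ρ) (β : ℝ) (q : ℕ) :
    ∃ C : ℝ, 0 ≤ C ∧ ∀ (h : Vec d) (n : ℕ), 1 ≤ n →
      Integrable (fun η => |X β h η n - A ρ β h n| ^ q) (law d ρ) ∧
      ∫ η, |X β h η n - A ρ β h n| ^ q ∂(law d ρ) ≤ C * (n : ℝ) ^ ((1 / 2 : ℝ) * q) := by
  refine ⟨2 * (q.factorial : ℝ) * Real.exp (Kc β ρ ^ 2), by positivity, fun h n hn => ?_⟩
  have hn' : (0 : ℝ) < n := by exact_mod_cast hn
  have hn1 : (1 : ℝ) ≤ n := by exact_mod_cast hn
  have hs : 0 < Real.sqrt n := Real.sqrt_pos.2 hn'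
  have hs1 : 1 ≤ Real.sqrt n := by
    rw [show (1 : ℝ) = Real.sqrt 1 by simp]
    exact Real.sqrt_le_sqrt hn1
  have hsq : Real.sqrt n ^ 2 = n := Real.sq_sqrt hn'.le
  set θ : ℝ := (Real.sqrt n)⁻¹ with hθdef
  have hθ : 0 < θ := inv_pos.2 hs
  have hθ1 : |θ| ≤ 1 := by
    rw [abs_of_pos hθ]
    exact inv_le_one_of_one_le₀ hs1
  have hθn : θ ^ 2 * n = 1 := by
    rw [hθdef, inv_pow, hsq]
    exact inv_mul_cancel₀ hn'.ne'
  obtain ⟨hi, hc⟩ := concU hd hρ β h n
  obtain ⟨i1, c1⟩ := hc θ hθ1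
  obtain ⟨i2, c2⟩ := hc (-θ) (by rw [abs_neg]; exact hθ1)
  have k1 : Kc β ρ ^ 2 * θ ^ 2 * n = Kc β ρ ^ 2 := by
    rw [mul_assoc, hθn, mul_one]
  have k2 : Kc β ρ ^ 2 * (-θ) ^ 2 * n = Kc β ρ ^ 2 := by
    rw [neg_sq, k1]
  rw [k1] at c1
  rw [k2] at c2
  -- pointwise bound
  have hb : ∀ y : ℝ, |y| ^ q ≤ (q.factorial : ℝ) * Real.sqrt n ^ q *
      (Real.exp (θ * y) + Real.exp (-θ * y)) := by
    intro y
    have h1 : (θ * |y|) ^ q / (q.factorial : ℝ) ≤ Real.exp (θ * |y|) :=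
      Real.pow_div_factorial_le_exp _ (mul_nonneg hθ.le (abs_nonneg y)) q
    have h2 : Real.exp (θ * |y|) ≤ Real.exp (θ * y) + Real.exp (-θ * y) := by
      rcases abs_cases y with ⟨h3, _⟩ | ⟨h3, _⟩
      · rw [h3]
        have := Real.exp_pos (-θ * y)
        linarith
      · rw [h3]
        have h4 : θ * -y = -θ * y := by ring
        rw [h4]
        have := Real.exp_pos (θ * y)
        linarith
    have hf : (0 : ℝ) < q.factorial := by exact_mod_cast q.factorial_pos
    rw [div_le_iff₀ hf] at h1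
    have h5 : |y| = Real.sqrt n * (θ * |y|) := by
      rw [hθdef, ← mul_assoc, mul_inv_cancel₀ hs.ne', one_mul]
    have h6 : |y| ^ q = Real.sqrt n ^ q * (θ * |y|) ^ q := by
      rw [← mul_pow, ← h5]
    rw [h6]
    have h7 : (θ * |y|) ^ q ≤ (Real.exp (θ * y) + Real.exp (-θ * y)) * q.factorial :=
      h1.trans (mul_le_mul_of_nonneg_right h2 hf.le)
    calc Real.sqrt n ^ q * (θ * |y|) ^ q ≤
        Real.sqrt n ^ q * ((Real.exp (θ * y) + Real.exp (-θ * y)) * q.factorial) :=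
          mul_le_mul_of_nonneg_left h7 (by positivity)
      _ = _ := by ring
  have hsum : Integrable (fun η => (q.factorial : ℝ) * Real.sqrt n ^ q *
      (Real.exp (θ * (X β h η n - A ρ β h n)) + Real.exp (-θ * (X β h η n - A ρ β h n))))
      (law d ρ) := (i1.add i2).const_mul _
  have hX : Measurable fun η : Env d => X β h η n := measurable_X β h n
  have hint : Integrable (fun η => |X β h η n - A ρ β h n| ^ q) (law d ρ) := by
    refine hsum.mono' ?_ (Filter.Eventually.of_forall fun η => ?_)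
    · exact (((hX.sub_const _).abs).pow_const q).aestronglyMeasurable
    · rw [Real.norm_eq_abs, abs_of_nonneg (by positivity)]
      exact hb _
  refine ⟨hint, ?_⟩
  have h8 : ∫ η, |X β h η n - A ρ β h n| ^ q ∂(law d ρ) ≤ ∫ η, (q.factorial : ℝ) *
      Real.sqrt n ^ q * (Real.exp (θ * (X β h η n - A ρ β h n)) +
      Real.exp (-θ * (X β h η n - A ρ β h n))) ∂(law d ρ) :=
    integral_mono hint hsum (fun η => hb _)
  rw [integral_const_mul, integral_add i1 i2] at h8
  have h9 : Real.sqrt n ^ q = (n : ℝ) ^ ((1 / 2 : ℝ) * q) := by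
    rw [Real.sqrt_eq_rpow, ← Real.rpow_natCast, ← Real.rpow_mul hn'.le]
  rw [← h9]
  refine h8.trans ?_
  have h10 : (0 : ℝ) ≤ (q.factorial : ℝ) * Real.sqrt n ^ q := by positivity
  have h11 := mul_le_mul_of_nonneg_left (add_le_add c1 c2) h10
  refine h11.trans (le_of_eq ?_)
  ring

theorem Fl_half (hd : 0 < d) (hρ : EM ρ) (β : ℝ) (h : Vec d) : Fl ρ β h (1 / 2) := by
  intro q
  obtain ⟨C, _, hC⟩ := momU (ρ := ρ) hd hρ β q
  exact ⟨1, one_pos, C, fun h' _ n hn => (hC h' n hn).2⟩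

end Pool.Agent.W_7d29a1_h46u
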