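import Pool.Agent.W_7d29a1_h46u.StrD
import Pool.Agent.W_7d29a1_h46u.ConcV

/-!
The strong exponents: transfer.
-/

namespace Pool.Agent.W_7d29a1_h46u

open MeasureTheory ProbabilityTheory Filter Topology Pool.Agent.W_MP_7d29a1_pr
  Pool.Agent.W_7d29a1_h46

variable {d : ℕ} {Ω : Type*} [MeasurableSpace Ω] {μ : Measure Ω} [IsProbabilityMeasure μ]
  {ρ : Measure ℝ} [IsProbabilityMeasure ρ] {ω : ℕ × Site d → Ω → ℝ} {β : ℝ}

theorem StrA_log (hd : 0 < d) (β : ℝ) (h : Vec d) (η : Env d) (n : ℕ) :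
    Real.log (Zn β h η n) = X β h η n - Real.log ((2 * d : ℝ) ^ n) := by
  have hd' : (0 : ℝ) < d := by exact_mod_cast hd
  unfold Zn X Z
  rw [Real.log_div (ZT_univ_pos hd β h η).ne' (by positivity)]

theorem StrA_int (hω : IID μ ρ ω) {F : Env d → ℝ} (hF : Measurable F) :
    ∫ y, F (fun p => ω p y) ∂μ = ∫ η, F η ∂(law d ρ) := by
  have hmp := mp_env hω
  rw [← hmp.map_eq, integral_map hmp.measurable.aemeasurable hF.aestronglyMeasurable]

theorem StrA_mom (hd : 0 < d) (hω : IID μ ρ ω) (hρ : EM ρ) (h : Vec d) (n q : ℕ) :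
    ∫ y, |Real.log (Zn β h (fun p => ω p y) n) -
      ∫ z, Real.log (Zn β h (fun p => ω p z) n) ∂μ| ^ q ∂μ =
    ∫ η, |X β h η n - A ρ β h n| ^ q ∂(law d ρ) := by
  have hX := measurable_X (d := d) β h n
  set c := Real.log ((2 * d : ℝ) ^ n) with hc
  have e1 : ∫ z, Real.log (Zn β h (fun p => ω p z) n) ∂μ = A ρ β h n - c := by
    have e2 : ∫ z, Real.log (Zn β h (fun p => ω p z) n) ∂μ =
        ∫ z, (fun η : Env d => X β h η n - c) (fun p => ω p z) ∂μ :=
      integral_congr_ae (Filter.Eventually.of_forall fun z => StrA_log hd β h _ n)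
    rw [e2, StrA_int hω (hX.sub_const c), integral_sub (concU hd hρ β h n).1 (integrable_const c),
      integral_const]
    unfold A
    simp
  rw [e1]
  have e3 : ∫ y, |Real.log (Zn β h (fun p => ω p y) n) - (A ρ β h n - c)| ^ q ∂μ =
      ∫ y, (fun η : Env d => |X β h η n - A ρ β h n| ^ q) (fun p => ω p y) ∂μ := by
    refine integral_congr_ae (Filter.Eventually.of_forall fun y => ?_)
    show |Real.log (Zn β h (fun p => ω p y) n) - (A ρ β h n - c)| ^ q =
      |X β h (fun p => ω p y) n - A ρ β h n| ^ q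
    rw [StrA_log hd β h _ n]
    congr 2
    ring
  rw [e3]
  exact StrA_int hω (((hX.sub_const _).abs).pow_const q)

/-- TASK StrA1. Transfer of the fluctuation condition (`mp_env`; `log Zn = X - n log (2 d)`, the
constant cancels since `X` is integrable, `concU`). -/
theorem mem_chiSetS (hd : 0 < d) (hω : IID μ ρ ω) (hρ : EM ρ) (h : Vec d) (x : ℝ) :
    x ∈ chiSetS μ β ω h ↔ 0 < x ∧ Fl ρ β h x := by
  unfold chiSetS Fl
  simp only [Set.mem_ofPred_eq, StrA_mom hd hω hρ]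

/-- TASK StrA2. Transfer of the tube condition (`mp_env`). -/
theorem mem_nuSetS (hω : IID μ ρ ω) (h v : Vec d) (a : ℝ) :
    a ∈ nuSetS μ β ω h v ↔ 0 < a ∧ ∀ q : ℕ, ∃ C : ℝ, ∀ n : ℕ, 1 ≤ n →
      ∫ η, (1 - PolT β h η (tube d n v ((n : ℝ) ^ a))) ∂(law d ρ) ≤ C * (n : ℝ) ^ (-(q : ℝ)) := by
  unfold nuSetS
  have e1 : ∀ n : ℕ, ∫ y, (1 - PolT β h (fun p => ω p y) (tube d n v ((n : ℝ) ^ a))) ∂μ =
      ∫ η, (1 - PolT β h η (tube d n v ((n : ℝ) ^ a))) ∂(law d ρ) := fun n =>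
    StrA_int hω (F := fun η : Env d => 1 - PolT β h η (tube d n v ((n : ℝ) ^ a)))
      ((measurable_PolT β h _).const_sub 1)
  simp only [Set.mem_ofPred_eq, e1]

end Pool.Agent.W_7d29a1_h46u
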