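import Pool.Agent.W_7d29a1_h46u.StrD

/-!
The strong wandering exponent and the exponent of the problem.
-/

namespace Pool.Agent.W_7d29a1_h46u

open MeasureTheory ProbabilityTheory Filter Topology Pool.Agent.W_MP_7d29a1_pr
  Pool.Agent.W_7d29a1_h46

variable {d : ℕ} {Ω : Type*} [MeasurableSpace Ω] {μ : Measure Ω} [IsProbabilityMeasure μ]
  {ρ : Measure ℝ} [IsProbabilityMeasure ρ] {ω : ℕ × Site d → Ω → ℝ} {β : ℝ}

/-- Nonnegative functions with summable integrals tend to zero almost surely. -/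
theorem StrB_tendsto {f : ℕ → Ω → ℝ} (hm : ∀ n, Measurable (f n)) (h0 : ∀ n x, 0 ≤ f n x)
    (h1 : ∀ n x, f n x ≤ 1) {C : ℝ} (hC : ∀ n : ℕ, 1 ≤ n → ∫ x, f n x ∂μ ≤ C * (n : ℝ) ^ (-(2 : ℝ))) :
    ∀ᵐ x ∂μ, Tendsto (fun n => f n x) atTop (𝓝 0) := by
  have hint : ∀ n, Integrable (f n) μ := fun n =>
    Integrable.of_bound (C := 1) (hm n).aestronglyMeasurable
      (Eventually.of_forall fun x => by
        rw [Real.norm_eq_abs, abs_of_nonneg (h0 n x)]
        exact h1 n x)
  have hsum : Summable fun n => ∫ x, f n x ∂μ := by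
    rw [← summable_nat_add_iff 1]
    have h2 : Summable fun n : ℕ => C * ((n + 1 : ℕ) : ℝ) ^ (-(2 : ℝ)) := by
      refine Summable.mul_left C ?_
      exact (summable_nat_add_iff 1).2 (Real.summable_nat_rpow.2 (by norm_num))
    exact Summable.of_nonneg_of_le (fun n => integral_nonneg fun x => h0 _ x)
      (fun n => hC (n + 1) (Nat.le_add_left 1 n)) h2
  have hlin : ∫⁻ x, ∑' n, ENNReal.ofReal (f n x) ∂μ ≠ ⊤ := by
    rw [lintegral_tsum fun n => (hm n).ennreal_ofReal.aemeasurable]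
    have h2 : ∀ n, ∫⁻ x, ENNReal.ofReal (f n x) ∂μ = ENNReal.ofReal (∫ x, f n x ∂μ) := fun n =>
      (ofReal_integral_eq_lintegral_ofReal (hint n) (Eventually.of_forall (h0 n))).symm
    simp only [h2]
    rw [← ENNReal.ofReal_tsum_of_nonneg (fun n => integral_nonneg fun x => h0 n x) hsum]
    exact ENNReal.ofReal_ne_top
  have hae := ae_lt_top (Measurable.tsum fun n => (hm n).ennreal_ofReal) hlin
  filter_upwards [hae] with x hx
  have h2 := ENNReal.tendsto_atTop_zero_of_tsum_ne_top hx.ne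
  have h3 := (ENNReal.tendsto_toReal ENNReal.zero_ne_top).comp h2
  simp only [ENNReal.toReal_zero] at h3
  refine h3.congr fun n => ?_
  show (ENNReal.ofReal (f n x)).toReal = f n x
  exact ENNReal.toReal_ofReal (h0 n x)

theorem StrB_two_mem (hd : 0 < d) (ω : ℕ × Site d → Ω → ℝ) (β : ℝ) (h v : Vec d) :
    (2 : ℝ) ∈ nuSetS μ β ω h v := by
  refine ⟨two_pos, fun q => ⟨((⌈1 + ‖v‖⌉₊ : ℕ) : ℝ) ^ (q : ℝ), fun n hn => ?_⟩⟩
  have hn1 : (1 : ℝ) ≤ n := by exact_mod_cast hn
  have hn0 : (0 : ℝ) < n := by linarith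
  have hq0 : 0 ≤ (n : ℝ) ^ (-(q : ℝ)) := Real.rpow_nonneg hn0.le _
  rcases lt_or_ge n ⌈1 + ‖v‖⌉₊ with hnN | hnN
  · have h1 : ∫ x, (1 - PolT β h (fun p => ω p x) (tube d n v ((n : ℝ) ^ (2 : ℝ)))) ∂μ ≤ 1 := by
      have h2 := integral_mono_of_nonneg (μ := μ)
        (f := fun x => 1 - PolT β h (fun p => ω p x) (tube d n v ((n : ℝ) ^ (2 : ℝ))))
        (g := fun _ => (1 : ℝ))
        (Eventually.of_forall fun x => sub_nonneg.2 (PolT_le_one β h _ _))
        (integrable_const (1 : ℝ))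
        (Eventually.of_forall fun x => sub_le_self _ (PolT_nonneg β h _ _))
      refine h2.trans (le_of_eq ?_)
      simp
    refine h1.trans ?_
    rw [Real.rpow_neg hn0.le, ← div_eq_mul_inv, one_le_div (Real.rpow_pos_of_pos hn0 _)]
    exact Real.rpow_le_rpow hn0.le (by exact_mod_cast hnN.le) (Nat.cast_nonneg q)
  · have hn' : 1 + ‖v‖ ≤ n := Nat.ceil_le.1 hnN
    have h2 : tube d n v ((n : ℝ) ^ (2 : ℝ)) = Set.univ := by
      rw [tube_univ]
      rw [Real.rpow_two, sq]
      exact mul_le_mul_of_nonneg_left hn' (Nat.cast_nonneg n)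
    rw [h2]
    simp only [PolT_univ hd, sub_self, integral_zero]
    exact mul_nonneg (Real.rpow_nonneg (Nat.cast_nonneg _) _) hq0

/-- TASK StrB. Every `a` of the strong set is in the set of the problem: with `q = 2`,
`∑_n ∫ (1 - PolT) < ∞`, so almost surely `1 - PolT → 0` (`ae` summability: the sum of the nonnegative
functions has finite integral), so the liminf is `1` almost surely. Also the strong set is nonempty
(`tube_univ`: the tube of radius `n ^ 2` is everything for `n ≥ 1 + ‖v‖`; for smaller `n` the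
integral is at most `1`), so `nuT ≤ nuS` by `csInf_le_csInf`. -/
theorem nuT_le_nuS (hd : 0 < d) (hω : IID μ ρ ω) (h v : Vec d) :
    nuT μ β ω h v ≤ nuS μ β ω h v := by
  unfold nuT nuS
  refine csInf_le_csInf ⟨0, fun a ha => ha.1.le⟩ ⟨2, StrB_two_mem hd ω β h v⟩ ?_
  rintro a ⟨ha, H⟩
  refine ⟨ha, ?_⟩
  obtain ⟨C, hC⟩ := H 2
  have h1 := StrB_tendsto (μ := μ)
    (f := fun n x => 1 - PolT β h (fun p => ω p x) (tube d n v ((n : ℝ) ^ a)))
    (fun n => ((measurable_PolT β h _).comp (measurable_pi_iff.2 hω.meas)).const_sub 1)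
    (fun n x => sub_nonneg.2 (PolT_le_one β h _ _))
    (fun n x => sub_le_self _ (PolT_nonneg β h _ _)) (C := C)
    (fun n hn => by simpa using hC n hn)
  have h2 : ∀ᵐ x ∂μ, liminf (fun n : ℕ => PolT β h (fun p => ω p x)
      (tube d n v ((n : ℝ) ^ a))) atTop = 1 := by
    filter_upwards [h1] with x hx
    have h3 : Tendsto (fun n : ℕ => PolT β h (fun p => ω p x) (tube d n v ((n : ℝ) ^ a))) atTop
        (𝓝 1) := by
      have h4 := hx.const_sub 1
      simpa using h4
    exact h3.liminf_eq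
  rw [integral_congr_ae h2]
  simp

end Pool.Agent.W_7d29a1_h46u
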