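import Pool.Agent.W_7d29a1_h46u.TubW
import Pool.Agent.W_7d29a1_h46u.Fub
import Pool.Agent.W_7d29a1_h46u.StrA
import Pool.Agent.W_7d29a1_h46u.StrB
import Pool.Agent.W_7d29a1_h46u.StrC

/-!
The inequality `2 ν - 1 ≤ χ` for almost every tilt, in all dimensions.
-/

namespace Pool.Agent.W_7d29a1_h46u

open MeasureTheory ProbabilityTheory Filter Topology Pool.Agent.W_MP_7d29a1_pr
  Pool.Agent.W_7d29a1_h46

variable {d : ℕ} {Ω : Type*} [MeasurableSpace Ω] {μ : Measure Ω} [IsProbabilityMeasure μ]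
  {ρ : Measure ℝ} [IsProbabilityMeasure ρ] {ω : ℕ × Site d → Ω → ℝ} {β : ℝ}

theorem chiS_le_half (hd : 0 < d) (hω : IID μ ρ ω) (hρ : EM ρ) (h : Vec d) :
    chiS μ β ω h ≤ 1 / 2 := by
  have h1 : (1 / 2 : ℝ) ∈ chiSetS μ β ω h :=
    (mem_chiSetS hd hω hρ h _).2 ⟨by norm_num, Fl_half hd hρ β h⟩
  exact csInf_le ⟨0, fun x hx => hx.1.le⟩ h1

/-- For every tilt with a coordinatewise second order expansion. -/
theorem nuS_le (hd : 0 < d) (hω : IID μ ρ ω) (hρ : EM ρ) {h v : Vec d}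
    (hE : ExpC (lam ρ β) h v) : 2 * nuS μ β ω h v - 1 ≤ chiS μ β ω h := by
  have hne : (chiSetS μ β ω h).Nonempty :=
    ⟨1 / 2, (mem_chiSetS hd hω hρ h _).2 ⟨by norm_num, Fl_half hd hρ β h⟩⟩
  have key : ∀ x ∈ chiSetS μ β ω h, x < 1 → nuS μ β ω h v ≤ (1 + x) / 2 := by
    intro x hx hx1
    obtain ⟨hx0, hF⟩ := (mem_chiSetS hd hω hρ h x).1 hx
    refine le_of_forall_gt_imp_ge_of_dense fun a ha => ?_
    refine csInf_le ⟨0, fun b hb => hb.1.le⟩ ((mem_nuSetS hω h v a).2 ⟨by linarith, fun q => ?_⟩)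
    exact tube_int hd hρ hx0 hx1 hF hE ha q
  by_contra hcon
  push Not at hcon
  have h1 : chiS μ β ω h < 2 * nuS μ β ω h v - 1 := hcon
  have h2 : chiS μ β ω h < 1 := (chiS_le_half hd hω hρ h).trans_lt (by norm_num)
  obtain ⟨x, hx, hxlt⟩ := exists_lt_of_csInf_lt hne (lt_min h1 h2)
  have h3 := key x hx (hxlt.trans_le (min_le_right _ _))
  have h4 := hxlt.trans_le (min_le_left _ _)
  linarith

/-- For almost every tilt, in every dimension, `2 ν* - 1 ≤ χ*`. -/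
theorem ae_relation (hd : 0 < d) (hω : IID μ ρ ω) (hρ : EM ρ) :
    ∀ᵐ h : Vec d, ∃ v, 2 * nuS μ β ω h v - 1 ≤ chiS μ β ω h := by
  filter_upwards [ae_ExpC (lam_convex (ρ := ρ) hd hρ β)] with h hh
  obtain ⟨v, hv⟩ := hh
  exact ⟨v, nuS_le hd hω hρ hv⟩

end Pool.Agent.W_7d29a1_h46u
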