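import Pool.Agent.W_7d29a1_h46u.ConcV

/-!
The free energy in all dimensions: upper bound and convexity of the means.
-/

namespace Pool.Agent.W_7d29a1_h46u

open MeasureTheory ProbabilityTheory Filter Topology Pool.Agent.W_MP_7d29a1_pr
  Pool.Agent.W_7d29a1_h46

variable {d : ℕ} {ρ : Measure ℝ} [IsProbabilityMeasure ρ]

lemma FreeV_iid : IID (law d ρ) ρ (fun p (η : Env d) => η p) := by
  refine ⟨fun p => measurable_pi_apply p, ?_, fun p => ?_⟩
  · exact iIndepFun_infinitePi (P := fun _ : ℕ × Site d => ρ)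
      (X := fun _ x => x) (fun _ => measurable_id)
  · exact Measure.infinitePi_map_eval (μ := fun _ : ℕ × Site d => ρ) p

lemma FreeV_convex (hd : 0 < d) (β : ℝ) (η : Env d) (n : ℕ) (x y : Vec d) {a b : ℝ}
    (ha : 0 ≤ a) (hb : 0 ≤ b) (hab : a + b = 1) :
    X β (a • x + b • y) η n ≤ a * X β x η n + b * X β y η n := by
  have hx := Z_pos hd β x η n
  have hy := Z_pos hd β y η n
  have hxA : Z β x η n = Real.exp (X β x η n) := (Real.exp_log hx).symm
  have hyB : Z β y η n = Real.exp (X β y η n) := (Real.exp_log hy).symm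
  obtain ⟨A, hA⟩ : ∃ A, A = X β x η n := ⟨_, rfl⟩
  obtain ⟨B, hB⟩ : ∃ B, B = X β y η n := ⟨_, rfl⟩
  rw [← hA] at hxA ⊢
  rw [← hB] at hyB ⊢
  rw [X, Real.log_le_iff_le_exp (Z_pos hd _ _ _ _)]
  have h1 : ∀ s : Fin n → Step d, wgt β (a • x + b • y) η s * Real.exp (-(a * A + b * B)) ≤
      a * (wgt β x η s * Real.exp (-A)) + b * (wgt β y η s * Real.exp (-B)) := by
    intro s
    have h2 := convexOn_exp.2 (Set.mem_univ (inner ℝ x (emb (pos s n)) + β * energy η s - A))
      (Set.mem_univ (inner ℝ y (emb (pos s n)) + β * energy η s - B)) ha hb hab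
    simp only [smul_eq_mul] at h2
    unfold wgt
    rw [← Real.exp_add, ← Real.exp_add, ← Real.exp_add, inner_add_left, real_inner_smul_left,
      real_inner_smul_left]
    refine le_trans (le_of_eq ?_) (h2.trans (le_of_eq ?_))
    · congr 1
      have e : a = 1 - b := by linarith
      rw [e]
      ring
    · rw [sub_eq_add_neg, sub_eq_add_neg]
  have h3 := Finset.sum_le_sum fun s (_ : s ∈ Finset.univ) => h1 s
  rw [← Finset.sum_mul, Finset.sum_add_distrib, ← Finset.mul_sum, ← Finset.mul_sum,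
    ← Finset.sum_mul, ← Finset.sum_mul, ← Z_eq, ← Z_eq, ← Z_eq] at h3
  rw [hxA, hyB, ← Real.exp_add, ← Real.exp_add, add_neg_cancel, add_neg_cancel, Real.exp_zero,
    mul_one, mul_one, hab] at h3
  have h4 := mul_le_mul_of_nonneg_right h3 (Real.exp_pos (a * A + b * B)).le
  rw [mul_assoc, ← Real.exp_add, neg_add_cancel, Real.exp_zero, mul_one, one_mul] at h4
  exact h4

/-- TASK FreeV1. `A n ≤ log ∫ Z` (Jensen) and `∫ Z = ∑_s exp ⟨h, pos s n⟩ ∫ exp (β energy) ≤
(2d)^n exp (‖h‖ n) (∫ exp (β t) dρ)^n` (`IID.integral_exp_energy` with `ω p η = η p`, or directly). Only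
a linear bound is needed. -/
theorem A_le_lin (hd : 0 < d) (hρ : EM ρ) (β : ℝ) (h : Vec d) :
    ∃ c : ℝ, ∀ n : ℕ, A ρ β h n ≤ c * n := by
  obtain ⟨m, hm⟩ : ∃ m : ℝ, m = ∫ t, Real.exp (β * t) ∂ρ := ⟨_, rfl⟩
  have hm0 : 0 < m := by
    rw [hm]
    exact integral_exp_pos (hρ β)
  have hd' : (0 : ℝ) < 2 * d := by
    have : (0 : ℝ) < d := by exact_mod_cast hd
    linarith
  obtain ⟨b, hb⟩ : ∃ b : ℝ, b = 2 * d * Real.exp ‖h‖ * m := ⟨_, rfl⟩
  have hb0 : 0 < b := by
    rw [hb]
    exact mul_pos (mul_pos hd' (Real.exp_pos _)) hm0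
  refine ⟨Real.log b, fun n => ?_⟩
  have hE : ∀ s : Fin n → Step d, Integrable (fun η : Env d => Real.exp (β * energy η s))
      (law d ρ) ∧ ∫ η : Env d, Real.exp (β * energy η s) ∂(law d ρ) = m ^ n := by
    intro s
    have h1 := (FreeV_iid (d := d) (ρ := ρ)).integral_exp_energy (hρ β) s
    rw [← hm] at h1
    exact h1
  have hw : ∀ (s : Fin n → Step d) (η : Env d),
      wgt β h η s ≤ Real.exp (‖h‖ * n) * Real.exp (β * energy η s) := by
    intro s η
    unfold wgt
    rw [← Real.exp_add]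
    apply Real.exp_le_exp.2
    have h2 : inner ℝ h (emb (pos s n)) ≤ ‖h‖ * n := by
      refine (real_inner_le_norm _ _).trans (mul_le_mul_of_nonneg_left ?_ (norm_nonneg h))
      rw [norm_emb]
      exact nrm_pos_le s n
    linarith
  obtain ⟨U, hU⟩ : ∃ U : Env d → ℝ, U = fun η => ∑ s : Fin n → Step d,
    Real.exp (‖h‖ * n) * Real.exp (β * energy η s) := ⟨_, rfl⟩
  have hUi : Integrable U (law d ρ) := by
    rw [hU]
    exact integrable_finsetSum _ fun s _ => (hE s).1.const_mul _
  have hZU : ∀ η, Z β h η n ≤ U η := by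
    intro η
    rw [Z_eq, hU]
    exact Finset.sum_le_sum fun s _ => hw s η
  have hUint : ∫ η, U η ∂(law d ρ) = b ^ n := by
    rw [hU, integral_finsetSum _ fun s _ => (hE s).1.const_mul _]
    have h3 : ∀ s : Fin n → Step d, ∫ η : Env d, Real.exp (‖h‖ * n) *
        Real.exp (β * energy η s) ∂(law d ρ) = Real.exp (‖h‖ * n) * m ^ n := by
      intro s
      rw [integral_const_mul, (hE s).2]
    rw [Finset.sum_congr rfl fun s _ => h3 s, Finset.sum_const, Finset.card_univ, nsmul_eq_mul,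
      Fintype.card_fun, Fintype.card_prod, Fintype.card_fin, Fintype.card_bool, Fintype.card_fin,
      hb, mul_pow, mul_pow, mul_pow, mul_pow, ← Real.exp_nat_mul, mul_comm (n : ℝ) ‖h‖]
    push_cast
    ring
  have hXi : Integrable (fun η => X β h η n) (law d ρ) := (concU hd hρ β h n).1
  have hpt : ∀ η, X β h η n ≤ n * Real.log b + (U η / b ^ n - 1) := by
    intro η
    have h4 := Z_pos hd β h η n
    have hbn : 0 < b ^ n := pow_pos hb0 n
    have h5 : X β h η n ≤ Real.log (U η) := Real.log_le_log h4 (hZU η)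
    have hU0 : 0 < U η := h4.trans_le (hZU η)
    have h6 : Real.log (U η) = n * Real.log b + Real.log (U η / b ^ n) := by
      rw [Real.log_div hU0.ne' hbn.ne', Real.log_pow]
      ring
    have h7 := Real.log_le_sub_one_of_pos (div_pos hU0 hbn)
    linarith
  have hint := integral_mono hXi
    ((integrable_const (n * Real.log b)).add ((hUi.div_const (b ^ n)).sub (integrable_const 1)))
    hpt
  have hval : ∫ η, (n * Real.log b + (U η / b ^ n - 1)) ∂(law d ρ) = n * Real.log b := by
    have e1 : ∫ η, (U η / b ^ n - 1) ∂(law d ρ) = 0 := by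
      rw [integral_sub (hUi.div_const _) (integrable_const 1), integral_div, hUint,
        div_self (pow_pos hb0 n).ne']
      simp
    have e2 : ∫ η, (n * Real.log b + (U η / b ^ n - 1)) ∂(law d ρ) =
        ∫ η : Env d, n * Real.log b ∂(law d ρ) + ∫ η, (U η / b ^ n - 1) ∂(law d ρ) :=
      integral_add (integrable_const _) ((hUi.div_const _).sub (integrable_const 1))
    rw [e2, e1]
    simp
  have hfin : A ρ β h n ≤ ∫ η, (n * Real.log b + (U η / b ^ n - 1)) ∂(law d ρ) := hint
  rw [hval] at hfin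
  rw [mul_comm]
  exact hfin

/-- TASK FreeV2. `h ↦ log ∑_s exp (⟨h, x_s⟩ + c_s)` is convex (Hölder); compare `FreeC_convex` and
`a_convex` in `W_7d29a1_h47/FreeC.lean`. -/
theorem A_convex (hd : 0 < d) (hρ : EM ρ) (β : ℝ) (n : ℕ) :
    ConvexOn ℝ Set.univ (fun h : Vec d => A ρ β h n) := by
  refine ⟨convex_univ, fun x _ y _ a b ha hb hab => ?_⟩
  simp only [smul_eq_mul]
  have i1 := (concU hd hρ β x n).1
  have i2 := (concU hd hρ β y n).1
  have i3 := (concU hd hρ β (a • x + b • y) n).1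
  have h1 := integral_mono i3 ((i1.const_mul a).add (i2.const_mul b))
    fun η => FreeV_convex hd β η n x y ha hb hab
  have h2 : ∫ η, (a * X β x η n + b * X β y η n) ∂(law d ρ) =
      a * A ρ β x n + b * A ρ β y n := by
    rw [integral_add (i1.const_mul a) (i2.const_mul b), integral_const_mul, integral_const_mul]
    rfl
  rw [← h2]
  exact h1

end Pool.Agent.W_7d29a1_h46u
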