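import Pool.Agent.W_7d29a1_h46u.FreeU
import Pool.Agent.W_7d29a1_h46u.FreeV

/-!
The free energy in all dimensions.
-/

namespace Pool.Agent.W_7d29a1_h46u

open MeasureTheory ProbabilityTheory Filter Topology Pool.Agent.W_MP_7d29a1_pr
  Pool.Agent.W_7d29a1_h46

variable {d : ℕ} {ρ : Measure ℝ} [IsProbabilityMeasure ρ]

theorem LamU_bdd (hd : 0 < d) (hρ : EM ρ) (β : ℝ) (h : Vec d) :
    BddAbove (Set.range fun n : ℕ => A ρ β h (n + 1) / ((n : ℝ) + 1)) := by
  obtain ⟨c, hc⟩ := A_le_lin hd hρ β h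
  refine ⟨c, ?_⟩
  rintro _ ⟨n, rfl⟩
  have hn : (0 : ℝ) < (n : ℝ) + 1 := by positivity
  beta_reduce
  rw [div_le_iff₀ hn]
  have h2 := hc (n + 1)
  push_cast at h2
  exact h2

theorem LamU_le (ρ : Measure ℝ) (β : ℝ) (h : Vec d) {c : ℝ}
    (hc : ∀ n : ℕ, A ρ β h (n + 1) ≤ ((n : ℝ) + 1) * c) : lam ρ β h ≤ c := by
  refine csSup_le (Set.range_nonempty _) ?_
  rintro _ ⟨n, rfl⟩
  have hn : (0 : ℝ) < (n : ℝ) + 1 := by positivity
  beta_reduce
  rw [div_le_iff₀ hn]
  linarith [hc n]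

/-- TASK LamU. Compare `W_7d29a1_h47/LamA.lean`. -/
theorem A_le_lam (hd : 0 < d) (hρ : EM ρ) (β : ℝ) (h : Vec d) (n : ℕ) :
    A ρ β h n ≤ n * lam ρ β h := by
  rcases n with _ | n
  · obtain ⟨c, hc⟩ := A_le_lin hd hρ β h
    have h1 := hc 0
    simpa using h1
  · have hn : (0 : ℝ) < (n : ℝ) + 1 := by positivity
    have h1 : A ρ β h (n + 1) / ((n : ℝ) + 1) ≤ lam ρ β h :=
      le_csSup (LamU_bdd hd hρ β h) ⟨n, rfl⟩
    rw [div_le_iff₀ hn] at h1
    push_cast
    linarith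

theorem tendsto_A (hd : 0 < d) (hρ : EM ρ) (β : ℝ) (h : Vec d) :
    Tendsto (fun n : ℕ => A ρ β h n / n) atTop (𝓝 (lam ρ β h)) := by
  have hsub : Subadditive fun n => -A ρ β h n := fun m n => by
    have := A_add_le hd hρ β h m n
    linarith
  have hle : ∀ n : ℕ, A ρ β h n / n ≤ max (lam ρ β h) 0 := by
    intro n
    rcases Nat.eq_zero_or_pos n with rfl | hn
    · rw [Nat.cast_zero, div_zero]
      exact le_max_right _ _
    · have hn' : (0 : ℝ) < n := by exact_mod_cast hn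
      refine le_trans ?_ (le_max_left _ _)
      rw [div_le_iff₀ hn']
      have := A_le_lam hd hρ β h n
      linarith
  have hbdd : BddBelow (Set.range fun n : ℕ => (-A ρ β h n) / n) := by
    refine ⟨-max (lam ρ β h) 0, ?_⟩
    rintro _ ⟨n, rfl⟩
    beta_reduce
    rw [neg_div]
    exact neg_le_neg (hle n)
  have ht := hsub.tendsto_lim hbdd
  have ht2 : Tendsto (fun n : ℕ => A ρ β h n / n) atTop (𝓝 (-hsub.lim)) := by
    have h1 := ht.neg
    refine h1.congr fun n => ?_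
    rw [neg_div, neg_neg]
  have heq : -hsub.lim = lam ρ β h := by
    apply le_antisymm
    · refine le_of_tendsto ht2 ?_
      filter_upwards [eventually_gt_atTop 0] with n hn
      have hn' : (0 : ℝ) < n := by exact_mod_cast hn
      rw [div_le_iff₀ hn']
      have := A_le_lam hd hρ β h n
      linarith
    · refine LamU_le ρ β h fun n => ?_
      have hn' : (0 : ℝ) < ((n + 1 : ℕ) : ℝ) := by positivity
      have h1 := hsub.lim_le_div hbdd (Nat.succ_ne_zero n)
      rw [le_div_iff₀ hn'] at h1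
      push_cast at h1
      linarith
  rw [heq] at ht2
  exact ht2

theorem lam_convex (hd : 0 < d) (hρ : EM ρ) (β : ℝ) :
    ConvexOn ℝ Set.univ (fun h : Vec d => lam ρ β h) := by
  refine ⟨convex_univ, fun x _ y _ a b ha hb hab => ?_⟩
  refine LamU_le ρ β _ fun n => ?_
  have h1 := (A_convex hd hρ β (n + 1)).2 (Set.mem_univ x) (Set.mem_univ y) ha hb hab
  have h2 := A_le_lam hd hρ β x (n + 1)
  have h3 := A_le_lam hd hρ β y (n + 1)
  simp only [smul_eq_mul] at h1 ⊢
  push_cast at h2 h3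
  have h4 := mul_le_mul_of_nonneg_left h2 ha
  have h5 := mul_le_mul_of_nonneg_left h3 hb
  linarith

end Pool.Agent.W_7d29a1_h46u
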