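import Pool.Agent.W_7d29a1_h46u.TubU
import Pool.Agent.W_7d29a1_h46u.LamU

/-!
The mass outside of a tube: the good event.
-/

namespace Pool.Agent.W_7d29a1_h46u

open MeasureTheory ProbabilityTheory Filter Topology Pool.Agent.W_MP_7d29a1_pr
  Pool.Agent.W_7d29a1_h46

variable {d : ℕ} {ρ : Measure ℝ} [IsProbabilityMeasure ρ]

/-- The good event for the parameters `t`, `u`. -/
structure GdU {d : ℕ} (ρ : Measure ℝ) (β : ℝ) (h : Vec d) (t u : ℝ) (n : ℕ) (η : Env d) : Prop where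
  side : ∀ i ≤ n, ∀ j : Fin d, |X β (h + t • ej j) η i - A ρ β (h + t • ej j) i| ≤ u ∧
    |X β (h + (-t) • ej j) η i - A ρ β (h + (-t) • ej j) i| ≤ u
  mid : ∀ i ≤ n, ∀ y ∈ boxF d n, |X β h (sh i y η) (n - i) - A ρ β h (n - i)| ≤ u

lemma TubV_exp (hd : 0 < d) (β : ℝ) (h : Vec d) (η : Env d) (n : ℕ) :
    Z β h η n = Real.exp (X β h η n) := by
  unfold X
  rw [Real.exp_log (Z_pos hd β h η n)]

lemma TubV_box {i n : ℕ} (hi : i ≤ n) {y : Site d} (hy : y ∈ boxF d i) : y ∈ boxF d n := by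
  unfold boxF at *
  simp only [Fintype.mem_piFinset, Finset.mem_Icc] at hy ⊢
  intro j
  have := hy j
  omega

lemma TubV_zero (n : ℕ) : (0 : Site d) ∈ boxF d n := by
  unfold boxF
  simp only [Fintype.mem_piFinset, Finset.mem_Icc]
  intro j
  simp

lemma TubV_sh (η : Env d) : sh 0 0 η = η := by
  funext p
  simp [sh]

lemma TubV_far (hd : 0 < d) (hρ : EM ρ) {β : ℝ} {h v : Vec d} {C s t u R w : ℝ} {n : ℕ} {η : Env d}
    (hs : |s| = t) (hC : 0 ≤ C) (j : Fin d)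
    (hE : lam ρ β (h + s • ej j) ≤ lam ρ β h + v j * s + C * s ^ 2)
    (hR : n * lam ρ β h - A ρ β h n ≤ R)
    (hside : ∀ i ≤ n, |X β (h + s • ej j) η i - A ρ β (h + s • ej j) i| ≤ u)
    (hmid : ∀ i ≤ n, ∀ y ∈ boxF d n, |X β h (sh i y η) (n - i) - A ρ β h (n - i)| ≤ u)
    {i : ℕ} (hi : i ≤ n) :
    Far β h η n i j v s w ≤ Real.exp (n * (C * t ^ 2) + 3 * u + R - t * w) := by
  have hM : ∀ y ∈ boxF d i, Z β h (sh i y η) (n - i) ≤ Real.exp (A ρ β h (n - i) + u) := by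
    intro y hy
    rw [TubV_exp hd]
    refine Real.exp_le_exp.2 ?_
    have := (abs_le.1 (hmid i hi y (TubV_box hi hy))).2
    linarith
  refine (far_le hd β h η hi j v s w hM).trans ?_
  rw [TubV_exp hd β (h + s • ej j) η i, TubV_exp hd β h η n, ← Real.exp_add, ← Real.exp_add,
    ← Real.exp_sub]
  refine Real.exp_le_exp.2 ?_
  have h1 := (abs_le.1 (hside i hi)).2
  have h2 := A_le_lam hd hρ β (h + s • ej j) i
  have h3 := A_le_lam hd hρ β h (n - i)
  have h4 := hmid 0 (Nat.zero_le n) 0 (TubV_zero n)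
  rw [TubV_sh, Nat.sub_zero] at h4
  have h5 := (abs_le.1 h4).1
  have hi0 : (0 : ℝ) ≤ i := Nat.cast_nonneg _
  have hin : (i : ℝ) ≤ n := by exact_mod_cast hi
  have h6 := mul_le_mul_of_nonneg_left hE hi0
  have h7 : ((n - i : ℕ) : ℝ) = n - i := by
    rw [Nat.cast_sub hi]
  rw [h7] at h3
  have h8 : s ^ 2 = t ^ 2 := by rw [← hs, sq_abs]
  rw [h8] at h6
  have h9 : (i : ℝ) * (C * t ^ 2) ≤ n * (C * t ^ 2) :=
    mul_le_mul_of_nonneg_right hin (by positivity)
  rw [hs]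
  nlinarith

/-- TASK TubV. On the good event. By `far_le` with `M = exp (A (n-i) + u)`, `A ≤ · lam`
(`A_le_lam`), `X β h η n ≥ A n - u ≥ n lam - R - u` (`mid` with `i = 0`, `y = 0`; `sh 0 0 η = η`), and the
expansion `lam (h ± t e_j) ≤ lam h ± v_j t + C t ^ 2`:
`Far ≤ exp (i C t² + 3 u + R - t w)`; then `one_sub_le`. Compare `Bul_mass`, `Bul_good`. -/
theorem tube_good (hd : 0 < d) (hρ : EM ρ) {β : ℝ} {h v : Vec d} {C t u R r : ℝ} {n : ℕ} {η : Env d}
    (ht : 0 < t) (ht1 : t ≤ 1) (hC : 0 ≤ C)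
    (hE : ∀ j : Fin d, ∀ s : ℝ, |s| ≤ 1 → lam ρ β (h + s • ej j) ≤ lam ρ β h + v j * s + C * s ^ 2)
    (hR : n * lam ρ β h - A ρ β h n ≤ R) (hg : GdU ρ β h t u n η) :
    1 - PolT β h η (tube d n v r) ≤
      2 * d * (n + 1) * Real.exp (n * (C * t ^ 2) + 3 * u + R - t * (r / d)) := by
  refine (one_sub_le hd β h η n v (r := r) ht).trans ?_
  have h1 : ∀ i ∈ Finset.range (n + 1), ∑ j : Fin d,
      (Far β h η n i j v t (r / d) + Far β h η n i j v (-t) (r / d)) ≤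
      2 * d * Real.exp (n * (C * t ^ 2) + 3 * u + R - t * (r / d)) := by
    intro i hi
    have hi' : i ≤ n := Nat.lt_succ_iff.1 (Finset.mem_range.1 hi)
    have h2 : ∀ j ∈ (Finset.univ : Finset (Fin d)),
        Far β h η n i j v t (r / d) + Far β h η n i j v (-t) (r / d) ≤
        2 * Real.exp (n * (C * t ^ 2) + 3 * u + R - t * (r / d)) := by
      intro j _
      have a1 := TubV_far (w := r / d) hd hρ (abs_of_pos ht) hC j
        (hE j t (by rw [abs_of_pos ht]; exact ht1)) hR (fun i hi => (hg.side i hi j).1) hg.mid hi'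
      have a2 := TubV_far (w := r / d) hd hρ (s := -t) (by rw [abs_neg, abs_of_pos ht]) hC j
        (hE j (-t) (by rw [abs_neg, abs_of_pos ht]; exact ht1)) hR
        (fun i hi => (hg.side i hi j).2) hg.mid hi'
      linarith
    refine (Finset.sum_le_sum h2).trans ?_
    rw [Finset.sum_const, Finset.card_univ, Fintype.card_fin, nsmul_eq_mul]
    linarith
  refine (Finset.sum_le_sum h1).trans ?_
  rw [Finset.sum_const, Finset.card_range, nsmul_eq_mul]
  push_cast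
  linarith

end Pool.Agent.W_7d29a1_h46u
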