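import Pool.Agent.W_7d29a1_h46u.MaxU

/-!
Rate of convergence of the free energy (doubling argument).
-/

namespace Pool.Agent.W_7d29a1_h46u

open MeasureTheory ProbabilityTheory Filter Topology Pool.Agent.W_MP_7d29a1_pr
  Pool.Agent.W_7d29a1_h46

variable {d : ℕ} {ρ : Measure ℝ} [IsProbabilityMeasure ρ]

lemma DblU_point (hd : 0 < d) (β : ℝ) (h : Vec d) (η : Env d) (n : ℕ) (a : ℝ) :
    X β h η (n + n) ≤ X β h η n + (a + (boxF d n).sup' ⟨0, zero_mem_boxF n⟩
      fun y => |X β h (sh n y η) n - a|) := by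
  set M : ℝ := (boxF d n).sup' ⟨0, zero_mem_boxF n⟩ fun y => |X β h (sh n y η) n - a| with hM
  have h1 : ∀ s : Fin n → Step d, Z β h (sh n (pos s n) η) n ≤ Real.exp (a + M) := by
    intro s
    have h2 : |X β h (sh n (pos s n) η) n - a| ≤ M :=
      Finset.le_sup' (fun y => |X β h (sh n y η) n - a|) (pos_mem_box s n)
    have h3 : X β h (sh n (pos s n) η) n ≤ a + M := by
      have := le_abs_self (X β h (sh n (pos s n) η) n - a)
      linarith
    have h4 : Z β h (sh n (pos s n) η) n = Real.exp (X β h (sh n (pos s n) η) n) := by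
      unfold X
      rw [Real.exp_log (Z_pos hd _ _ _ _)]
    rw [h4]
    exact Real.exp_le_exp.2 h3
  have h5 : Z β h η (n + n) ≤ Z β h η n * Real.exp (a + M) := by
    rw [Z_add, Z_eq, Finset.sum_mul]
    refine Finset.sum_le_sum fun s _ => ?_
    exact mul_le_mul_of_nonneg_left (h1 s) (wgt_pos _ _ _ _).le
  have h6 := Real.log_le_log (Z_pos hd β h η (n + n)) h5
  rw [Real.log_mul (Z_pos hd _ _ _ _).ne' (Real.exp_pos _).ne', Real.log_exp] at h6
  exact h6

/-- TASK DblU. By `Z_add` (`i = k = n`), `pos_mem_box`: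
`Z_{2n} ≤ Z_n · max_{y ∈ box} Z_n (sh n y η)`, so `X_{2n} ≤ X_n + A_n + max_y |X_n (sh n y η) - A_n|`. -/
theorem double (hd : 0 < d) (hρ : EM ρ) {β : ℝ} {h : Vec d} {x : ℝ} (hx : 0 ≤ x)
    (hF : Fl ρ β h x) {ε : ℝ} (hε : 0 < ε) :
    ∃ δ > 0, ∃ C : ℝ, 0 ≤ C ∧ ∀ h' : Vec d, ‖h' - h‖ < δ → ∀ n : ℕ, 1 ≤ n →
      A ρ β h' (n + n) ≤ 2 * A ρ β h' n + C * (n : ℝ) ^ (x + ε) := by
  obtain ⟨δ, hδ, C, hC0, hC⟩ := max_dev hd hρ hx hF hε
  refine ⟨δ, hδ, C, hC0, fun h' hh' n hn => ?_⟩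
  obtain ⟨hi, hv⟩ := hC h' hh' n hn
  have i1 := (concU (ρ := ρ) hd hρ β h' (n + n)).1
  have i2 := (concU (ρ := ρ) hd hρ β h' n).1
  have i3 : Integrable (fun η : Env d => A ρ β h' n + (boxF d n).sup' ⟨0, zero_mem_boxF n⟩
      fun y => |X β h' (sh n y η) n - A ρ β h' n|) (law d ρ) := (integrable_const _).add hi
  have h1 : A ρ β h' (n + n) ≤ ∫ η, (X β h' η n + (A ρ β h' n +
      (boxF d n).sup' ⟨0, zero_mem_boxF n⟩
        fun y => |X β h' (sh n y η) n - A ρ β h' n|)) ∂(law d ρ) := by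
    refine integral_mono i1 (i2.add i3) fun η => ?_
    exact DblU_point hd β h' η n (A ρ β h' n)
  rw [integral_add i2 i3, integral_add (integrable_const _) hi, integral_const] at h1
  simp only [probReal_univ, one_smul] at h1
  have h2 : ∫ η, X β h' η n ∂(law d ρ) = A ρ β h' n := rfl
  rw [h2] at h1
  linarith

end Pool.Agent.W_7d29a1_h46u
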