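import Pool.Agent.W_7d29a1_h46u.LamU
import Pool.Agent.W_7d29a1_h46u.DblU

/-!
Rate of convergence of the free energy (doubling argument).
-/

namespace Pool.Agent.W_7d29a1_h46u

open MeasureTheory ProbabilityTheory Filter Topology Pool.Agent.W_MP_7d29a1_pr
  Pool.Agent.W_7d29a1_h46

variable {d : ℕ} {ρ : Measure ℝ} [IsProbabilityMeasure ρ]

/-- Abstract doubling iteration. -/
theorem RateU_iter {a : ℕ → ℝ} {C y : ℝ} (n : ℕ) (hn : 1 ≤ n)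
    (H : ∀ m : ℕ, 1 ≤ m → a (m + m) ≤ 2 * a m + C * (m : ℝ) ^ y) (j : ℕ) :
    a (2 ^ j * n) / 2 ^ j ≤
      a n + C / 2 * (n : ℝ) ^ y * ∑ k ∈ Finset.range j, ((2 : ℝ) ^ (y - 1)) ^ k := by
  induction j with
  | zero => simp
  | succ j ih =>
    have hn0 : (0 : ℝ) < n := by exact_mod_cast hn
    have h1 := H (2 ^ j * n) (Nat.mul_pos (by positivity) hn)
    have e1 : 2 ^ (j + 1) * n = 2 ^ j * n + 2 ^ j * n := by ring
    have e2 : (((2 ^ j * n : ℕ) : ℝ)) ^ y = ((2 : ℝ) ^ (y - 1)) ^ j * 2 ^ j * (n : ℝ) ^ y := by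
      push_cast
      rw [Real.mul_rpow (by positivity) hn0.le, ← Real.rpow_natCast, ← Real.rpow_natCast,
        ← Real.rpow_mul (by norm_num), ← Real.rpow_mul (by norm_num),
        ← Real.rpow_add (by norm_num)]
      ring_nf
    rw [e1, Finset.sum_range_succ]
    rw [e2] at h1
    have h2 : (0 : ℝ) < 2 ^ j := by positivity
    rw [div_le_iff₀ h2] at ih
    rw [div_le_iff₀ (by positivity), pow_succ]
    nlinarith [h1, ih]

/-- TASK RateU. Iterate: with `y = x + ε < 1`, `A (2^j n) / 2^j ≤ A n + C n ^ y ∑_{k<j} 2^{k (y-1)} / 2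
≤ A n + C' n ^ y`, and `A (2^j n) / (2^j n) → lam` (`tendsto_A`). -/
theorem rateU (hd : 0 < d) (hρ : EM ρ) {β : ℝ} {h : Vec d} {x : ℝ} (hx : 0 ≤ x)
    (hF : Fl ρ β h x) {ε : ℝ} (hε : 0 < ε) (hxε : x + ε < 1) :
    ∃ δ > 0, ∃ C : ℝ, 0 ≤ C ∧ ∀ h' : Vec d, ‖h' - h‖ < δ → ∀ n : ℕ, 1 ≤ n →
      n * lam ρ β h' - A ρ β h' n ≤ C * (n : ℝ) ^ (x + ε) := by
  obtain ⟨δ, hδ, C, hC, H⟩ := double hd hρ hx hF hε
  have hr0 : 0 < (2 : ℝ) ^ (x + ε - 1) := Real.rpow_pos_of_pos two_pos _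
  have hr1 : (2 : ℝ) ^ (x + ε - 1) < 1 :=
    Real.rpow_lt_one_of_one_lt_of_neg one_lt_two (by linarith)
  refine ⟨δ, hδ, C / 2 * (1 - (2 : ℝ) ^ (x + ε - 1))⁻¹,
    mul_nonneg (by linarith) (inv_nonneg.2 (by linarith)), fun h' hh n hn => ?_⟩
  have hn0 : (0 : ℝ) < n := by exact_mod_cast hn
  have key : ∀ j : ℕ, A ρ β h' (2 ^ j * n) / 2 ^ j ≤
      A ρ β h' n + C / 2 * (n : ℝ) ^ (x + ε) * (1 - (2 : ℝ) ^ (x + ε - 1))⁻¹ := by
    intro j
    refine (RateU_iter n hn (H h' hh) j).trans ?_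
    have h1 : ∑ k ∈ Finset.range j, ((2 : ℝ) ^ (x + ε - 1)) ^ k ≤
        (1 - (2 : ℝ) ^ (x + ε - 1))⁻¹ := by
      rw [← tsum_geometric_of_lt_one hr0.le hr1]
      exact (summable_geometric_of_lt_one hr0.le hr1).sum_le_tsum _
        (fun k _ => pow_nonneg hr0.le k)
    have h2 : 0 ≤ C / 2 * (n : ℝ) ^ (x + ε) :=
      mul_nonneg (by linarith) (Real.rpow_nonneg hn0.le _)
    have h3 := mul_le_mul_of_nonneg_left h1 h2
    linarith
  have hlim : Tendsto (fun j : ℕ => A ρ β h' (2 ^ j * n) / 2 ^ j) atTop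
      (𝓝 (n * lam ρ β h')) := by
    have h1 : Tendsto (fun j : ℕ => 2 ^ j * n) atTop atTop :=
      Filter.Tendsto.atTop_mul_const' hn (tendsto_pow_atTop_atTop_of_one_lt one_lt_two)
    have h2 := ((tendsto_A hd hρ β h').comp h1).const_mul (n : ℝ)
    refine h2.congr fun j => ?_
    simp only [Function.comp]
    push_cast
    have h3 : (2 : ℝ) ^ j ≠ 0 := by positivity
    field_simp
  have h4 := le_of_tendsto' hlim key
  have h5 : C / 2 * (1 - (2 : ℝ) ^ (x + ε - 1))⁻¹ * (n : ℝ) ^ (x + ε) =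
      C / 2 * (n : ℝ) ^ (x + ε) * (1 - (2 : ℝ) ^ (x + ε - 1))⁻¹ := by ring
  rw [h5]
  linarith

end Pool.Agent.W_7d29a1_h46u
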