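import Pool.Agent.W_7d29a1_h46u.Defs

/-!
Concatenation of walks and the splitting of the partition function.
-/

namespace Pool.Agent.W_7d29a1_h46u

open MeasureTheory ProbabilityTheory Filter Topology Pool.Agent.W_MP_7d29a1_pr
  Pool.Agent.W_7d29a1_h46

variable {d i k n : ℕ}

/-- TASK Walk. `Fin.appendEquiv` (or `Fin.appendIsometry`); see `W_7d29a1_h46/Tr.lean` for the use
of `Function.Bijective.sum_comp`. -/
lemma sum_glue (F : (Fin (i + k) → Step d) → ℝ) :
    ∑ s, F s = ∑ s : Fin i → Step d, ∑ q : Fin k → Step d, F (Fin.append s q) := by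
  rw [← (Fin.appendEquiv i k).sum_comp, Fintype.sum_prod_type]
  rfl

lemma pos_glue_le (s : Fin i → Step d) (q : Fin k → Step d) {j : ℕ} (hj : j ≤ i) :
    pos (Fin.append s q) j = pos s j := by
  unfold pos
  rw [Fin.sum_univ_add]
  have h1 : ∑ l : Fin k, (if ((Fin.natAdd i l : Fin (i + k)) : ℕ) < j then
      vec (Fin.append s q (Fin.natAdd i l)) else 0) = 0 := by
    refine Finset.sum_eq_zero fun l _ => if_neg ?_
    rw [Fin.val_natAdd]
    omega
  rw [h1, add_zero]
  refine Finset.sum_congr rfl fun l _ => ?_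
  rw [Fin.append_left, Fin.val_castAdd]

lemma pos_glue_add (s : Fin i → Step d) (q : Fin k → Step d) (j : ℕ) :
    pos (Fin.append s q) (i + j) = pos s i + pos q j := by
  unfold pos
  rw [Fin.sum_univ_add]
  congr 1
  · refine Finset.sum_congr rfl fun l _ => ?_
    have hl := l.2
    rw [Fin.append_left, Fin.val_castAdd, if_pos (by omega), if_pos hl]
  · refine Finset.sum_congr rfl fun l _ => ?_
    rw [Fin.append_right, Fin.val_natAdd]
    by_cases h : (l : ℕ) < j
    · rw [if_pos h, if_pos (by omega)]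
    · rw [if_neg h, if_neg (by omega)]

lemma Walk_emb_add (x y : Site d) : emb (x + y) = emb x + emb y := by
  ext j
  simp [emb]

lemma energy_glue (η : Env d) (s : Fin i → Step d) (q : Fin k → Step d) :
    energy η (Fin.append s q) = energy η s + energy (sh i (pos s i) η) q := by
  unfold energy
  rw [Fin.sum_univ_add]
  congr 1
  · refine Finset.sum_congr rfl fun l _ => ?_
    have hl := l.2
    rw [Fin.val_castAdd, pos_glue_le s q (by omega)]
  · refine Finset.sum_congr rfl fun l _ => ?_
    rw [Fin.val_natAdd, add_assoc, pos_glue_add s q]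
    unfold sh
    simp only
    rw [add_comm i, add_comm (pos s i)]

lemma wgt_glue (β : ℝ) (h : Vec d) (η : Env d) (s : Fin i → Step d) (q : Fin k → Step d) :
    wgt β h η (Fin.append s q) = wgt β h η s * wgt β h (sh i (pos s i) η) q := by
  unfold wgt
  rw [energy_glue, pos_glue_add, Walk_emb_add, inner_add_right, ← Real.exp_add]
  congr 1
  ring

lemma Z_eq (β : ℝ) (h : Vec d) (η : Env d) (n : ℕ) :
    Z β h η n = ∑ s : Fin n → Step d, wgt β h η s := by
  unfold Z ZT
  exact Finset.sum_congr rfl fun s _ => if_pos (Set.mem_univ s)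

lemma Z_add (β : ℝ) (h : Vec d) (η : Env d) (i k : ℕ) :
    Z β h η (i + k) = ∑ s : Fin i → Step d, wgt β h η s * Z β h (sh i (pos s i) η) k := by
  rw [Z_eq, sum_glue]
  refine Finset.sum_congr rfl fun s _ => ?_
  rw [Z_eq, Finset.mul_sum]
  exact Finset.sum_congr rfl fun q _ => wgt_glue β h η s q

lemma Z_pos (hd : 0 < d) (β : ℝ) (h : Vec d) (η : Env d) (n : ℕ) : 0 < Z β h η n :=
  ZT_univ_pos hd β h η

/-- There is one walk of length `0`, of weight `1`. -/
lemma Z_zero (β : ℝ) (h : Vec d) (η : Env d) : Z β h η 0 = 1 := by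
  rw [Z_eq, Fintype.sum_unique]
  have h1 : pos (default : Fin 0 → Step d) 0 = 0 := Finset.sum_of_isEmpty _
  have h2 : energy η (default : Fin 0 → Step d) = 0 := Finset.sum_of_isEmpty _
  have h3 : emb (0 : Site d) = 0 := by
    ext j
    simp [emb]
  unfold wgt
  rw [h1, h2, h3, inner_zero_right, mul_zero, add_zero, Real.exp_zero]

lemma pos_mem_box (s : Fin n → Step d) (i : ℕ) : pos s i ∈ boxF d n := by
  rw [mem_boxF]
  intro j
  have h1 := (abs_le_nrm (pos s i) j).trans (nrm_pos_le s i)
  exact_mod_cast h1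

lemma measurable_Z (β : ℝ) (h : Vec d) (n : ℕ) : Measurable fun η : Env d => Z β h η n :=
  measurable_ZT β h Set.univ

lemma measurable_X (β : ℝ) (h : Vec d) (n : ℕ) : Measurable fun η : Env d => X β h η n :=
  Real.measurable_log.comp (measurable_Z β h n)

/-- The partition function depends on the rows `1, ..., n` only. -/
lemma dependsOn_Z (β : ℝ) (h : Vec d) (n : ℕ) :
    DependsOn (fun η : Env d => Z β h η n) {p | 1 ≤ p.1 ∧ p.1 ≤ n} := by
  intro η η' hη
  simp only [Z_eq]
  refine Finset.sum_congr rfl fun s _ => ?_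
  have h1 : energy η s = energy η' s := by
    unfold energy
    refine Finset.sum_congr rfl fun i _ => hη _ ?_
    exact ⟨Nat.le_add_left 1 i, i.2⟩
  unfold wgt
  rw [h1]

/-- Changing the tilt changes the weights by at most `exp (‖u‖ n)`. -/
lemma X_tilt (hd : 0 < d) (β : ℝ) (h u : Vec d) (η : Env d) (n : ℕ) :
    X β (h + u) η n ≤ X β h η n + ‖u‖ * n := by
  unfold X
  have h1 : Z β (h + u) η n ≤ Z β h η n * Real.exp (‖u‖ * n) := by
    rw [Z_eq, Z_eq, Finset.sum_mul]
    refine Finset.sum_le_sum fun s _ => ?_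
    unfold wgt
    rw [← Real.exp_add, inner_add_left]
    apply Real.exp_le_exp.2
    have h2 : inner ℝ u (emb (pos s n)) ≤ ‖u‖ * n := by
      refine (real_inner_le_norm _ _).trans (mul_le_mul_of_nonneg_left ?_ (norm_nonneg u))
      rw [norm_emb]
      exact nrm_pos_le s n
    linarith
  have h3 := Z_pos hd β h η n
  have h4 := Real.log_le_log (Z_pos hd β (h + u) η n) h1
  rwa [Real.log_mul h3.ne' (Real.exp_pos _).ne', Real.log_exp] at h4

end Pool.Agent.W_7d29a1_h46u
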