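import Pool.Agent.W_7d29a1_h46u.ConcV

/-!
Tails from moments.
-/

namespace Pool.Agent.W_7d29a1_h46u

open MeasureTheory ProbabilityTheory Filter Topology Pool.Agent.W_MP_7d29a1_pr
  Pool.Agent.W_7d29a1_h46

variable {d : ℕ} {ρ : Measure ℝ} [IsProbabilityMeasure ρ]

/-- TASK TailU1. Markov for the power `Q`, `ε Q ≥ q`: the probability is at most
`(∫ |X_m - A_m| ^ Q) / n ^ ((x + ε) Q) ≤ C m ^ (x Q) / n ^ ((x + ε) Q) ≤ |C| n ^ (-ε Q)`; for `m = 0`
both `X` and `A` are `0` (`Z_zero`). `integral_sh` or `mp_sh` for the shift, `momU` for the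
integrability. -/
theorem tailU (hd : 0 < d) (hρ : EM ρ) {β : ℝ} {h : Vec d} {x : ℝ} (hx : 0 ≤ x) (hF : Fl ρ β h x)
    {ε : ℝ} (hε : 0 < ε) (q : ℕ) :
    ∃ δ > 0, ∃ C : ℝ, 0 ≤ C ∧ ∀ h' : Vec d, ‖h' - h‖ < δ → ∀ (n m : ℕ), 1 ≤ n → m ≤ n →
      ∀ (t : ℕ) (y : Site d),
        (law d ρ).real {η | (n : ℝ) ^ (x + ε) < |X β h' (sh t y η) m - A ρ β h' m|} ≤
          C * (n : ℝ) ^ (-(q : ℝ)) := by
  obtain ⟨Q, hQ⟩ := exists_nat_ge ((q : ℝ) / ε)
  have hQ' : (q : ℝ) ≤ ε * Q := by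
    rw [div_le_iff₀ hε] at hQ
    linarith
  obtain ⟨δ, hδ, C₀, hC₀⟩ := hF Q
  obtain ⟨C₁, -, hC₁⟩ := momU (d := d) hd hρ β Q
  refine ⟨δ, hδ, |C₀|, abs_nonneg _, fun h' hh' n m hn hm t y => ?_⟩
  have hn1 : (1 : ℝ) ≤ n := by exact_mod_cast hn
  have hn0 : (0 : ℝ) < n := by linarith
  have hu0 : 0 < (n : ℝ) ^ (x + ε) := Real.rpow_pos_of_pos hn0 _
  have hrhs : 0 ≤ |C₀| * (n : ℝ) ^ (-(q : ℝ)) :=
    mul_nonneg (abs_nonneg _) (Real.rpow_nonneg hn0.le _)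
  rcases Nat.eq_zero_or_pos m with hm0 | hm0
  · have h1 : ∀ η : Env d, X β h' η 0 = 0 := by
      intro η
      rw [X, Z_zero, Real.log_one]
    have h2 : A ρ β h' 0 = 0 := by
      unfold A
      simp only [h1]
      exact integral_zero _ _
    have h3 : {η : Env d | (n : ℝ) ^ (x + ε) < |X β h' (sh t y η) m - A ρ β h' m|} = ∅ := by
      rw [Set.eq_empty_iff_forall_notMem]
      intro η hη
      have hη' : (n : ℝ) ^ (x + ε) < |X β h' (sh t y η) m - A ρ β h' m| := hη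
      rw [hm0, h1, h2, sub_zero, abs_zero] at hη'
      exact absurd hη' (not_lt.2 hu0.le)
    rw [h3, measureReal_empty]
    exact hrhs
  · obtain ⟨hint, -⟩ := hC₁ h' m hm0
    have hmean := hC₀ h' hh' m hm0
    have hmeasY : Measurable fun η : Env d => |X β h' η m - A ρ β h' m| :=
      ((measurable_X β h' m).sub_const _).abs
    have hset : MeasurableSet {η : Env d | (n : ℝ) ^ (x + ε) < |X β h' η m - A ρ β h' m|} :=
      measurableSet_lt measurable_const hmeasY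
    have hshift : (law d ρ).real
        {η | (n : ℝ) ^ (x + ε) < |X β h' (sh t y η) m - A ρ β h' m|} =
        (law d ρ).real {η | (n : ℝ) ^ (x + ε) < |X β h' η m - A ρ β h' m|} := by
      rw [measureReal_def, measureReal_def, ← (mp_sh (ρ := ρ) t y).measure_preimage
        hset.nullMeasurableSet]
      rfl
    rw [hshift]
    have hmk := mul_meas_ge_le_integral_of_nonneg (μ := law d ρ)
      (f := fun η => |X β h' η m - A ρ β h' m| ^ Q)
      (Filter.Eventually.of_forall fun η => pow_nonneg (abs_nonneg _) Q) hint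
      (((n : ℝ) ^ (x + ε)) ^ Q)
    have hsub : (law d ρ).real {η | (n : ℝ) ^ (x + ε) < |X β h' η m - A ρ β h' m|} ≤
        (law d ρ).real {η | ((n : ℝ) ^ (x + ε)) ^ Q ≤ |X β h' η m - A ρ β h' m| ^ Q} := by
      refine measureReal_mono fun η hη => ?_
      have hη' : (n : ℝ) ^ (x + ε) < |X β h' η m - A ρ β h' m| := hη
      exact pow_le_pow_left₀ hu0.le hη'.le Q
    have hpow : ((n : ℝ) ^ (x + ε)) ^ Q = (n : ℝ) ^ ((x + ε) * Q) := by
      rw [Real.rpow_mul hn0.le, Real.rpow_natCast]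
    have hm1 : (1 : ℝ) ≤ m := by exact_mod_cast hm0
    have hmn : (m : ℝ) ≤ n := by exact_mod_cast hm
    have hxQ : 0 ≤ x * Q := mul_nonneg hx (Nat.cast_nonneg _)
    have h5 : C₀ * (m : ℝ) ^ (x * Q) ≤ |C₀| * (n : ℝ) ^ (x * Q) :=
      mul_le_mul (le_abs_self _) (Real.rpow_le_rpow (by linarith) hmn hxQ)
        (Real.rpow_nonneg (by linarith) _) (abs_nonneg _)
    have h6 : ((n : ℝ) ^ (x + ε)) ^ Q *
        (law d ρ).real {η | (n : ℝ) ^ (x + ε) < |X β h' η m - A ρ β h' m|} ≤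
        |C₀| * (n : ℝ) ^ (x * Q) :=
      (mul_le_mul_of_nonneg_left hsub (pow_nonneg hu0.le Q)).trans (hmk.trans (hmean.trans h5))
    have h7 : |C₀| * (n : ℝ) ^ (x * Q) ≤
        ((n : ℝ) ^ (x + ε)) ^ Q * (|C₀| * (n : ℝ) ^ (-(q : ℝ))) := by
      have h8 : (n : ℝ) ^ (x * Q) ≤ (n : ℝ) ^ ((x + ε) * Q) * (n : ℝ) ^ (-(q : ℝ)) := by
        rw [← Real.rpow_add hn0]
        refine Real.rpow_le_rpow_of_exponent_le hn1 ?_
        linarith
      rw [hpow]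
      calc |C₀| * (n : ℝ) ^ (x * Q)
          ≤ |C₀| * ((n : ℝ) ^ ((x + ε) * Q) * (n : ℝ) ^ (-(q : ℝ))) :=
            mul_le_mul_of_nonneg_left h8 (abs_nonneg _)
        _ = (n : ℝ) ^ ((x + ε) * Q) * (|C₀| * (n : ℝ) ^ (-(q : ℝ))) := by ring
    exact le_of_mul_le_mul_left (h6.trans h7) (pow_pos hu0 Q)

end Pool.Agent.W_7d29a1_h46u
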