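import Pool.Agent.W_7d29a1_h46u.Defs

/-!
The law of the environment: shifts, independence, rows, transfer.
-/

namespace Pool.Agent.W_7d29a1_h46u

open MeasureTheory ProbabilityTheory Filter Topology Pool.Agent.W_MP_7d29a1_pr
  Pool.Agent.W_7d29a1_h46

variable {d : ℕ} {ρ : Measure ℝ} [IsProbabilityMeasure ρ]

lemma LawU_integral {Ω Ω' : Type*} [MeasurableSpace Ω] [MeasurableSpace Ω'] {P : Measure Ω}
    {P' : Measure Ω'} {f : Ω' → Ω} (hf : MeasurePreserving f P' P) {F : Ω → ℝ}
    (hF : AEStronglyMeasurable F P) : ∫ w, F (f w) ∂P' = ∫ w, F w ∂P := by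
  have h : AEStronglyMeasurable F (Measure.map f P') := by rw [hf.map_eq]; exact hF
  rw [← integral_map hf.measurable.aemeasurable h, hf.map_eq]

/-- Reindexing by an injective map. -/
lemma LawU_reindex {ι κ : Type*} {f : κ → ι} (hf : Function.Injective f) :
    MeasurePreserving (fun (g : ι → ℝ) (p : κ) => g (f p)) (Measure.infinitePi fun _ => ρ)
      (Measure.infinitePi fun _ => ρ) :=
  ⟨measurable_pi_iff.2 fun p => measurable_pi_apply (f p),
    Measure.map_infinitePi_infinitePi_of_inj (P := fun _ : ι => ρ) hf⟩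

lemma measurable_sh (t : ℕ) (x : Site d) : Measurable (sh t x : Env d → Env d) :=
  measurable_pi_iff.2 fun p => measurable_pi_apply (p.1 + t, p.2 + x)

/-- TASK LawU. See `mp_reindex` in `W_7d29a1_h47/Env.lean`. -/
lemma mp_sh (t : ℕ) (x : Site d) : MeasurePreserving (sh t x) (law d ρ) (law d ρ) := by
  refine LawU_reindex (f := fun p : ℕ × Site d => (p.1 + t, p.2 + x)) ?_
  rintro ⟨i, y⟩ ⟨j, z⟩ h
  simp only [Prod.mk.injEq, Nat.add_right_cancel_iff, add_left_inj] at h
  exact Prod.ext h.1 h.2

lemma LawU_meas {ι : Type*} :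
    Measurable (fun (w : (ι → ℝ) × (ι → ℝ)) (p : ι ⊕ ι) => Sum.elim w.1 w.2 p) := by
  refine measurable_pi_iff.2 fun p => ?_
  cases p with
  | inl p => exact (measurable_pi_apply p).comp measurable_fst
  | inr p => exact (measurable_pi_apply p).comp measurable_snd

lemma LawU_map_elim {ι : Type*} :
    ((Measure.infinitePi fun _ : ι => ρ).prod (Measure.infinitePi fun _ : ι => ρ)).map
        (fun (w : (ι → ℝ) × (ι → ℝ)) (p : ι ⊕ ι) => Sum.elim w.1 w.2 p)
      = Measure.infinitePi fun _ : ι ⊕ ι => ρ := by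
  classical
  apply Measure.eq_infinitePi
  intro s t ht
  rw [Measure.map_apply LawU_meas (.pi s.countable_toSet fun i _ => ht i)]
  have h1 : (fun (w : (ι → ℝ) × (ι → ℝ)) (p : ι ⊕ ι) => Sum.elim w.1 w.2 p) ⁻¹'
      (Set.pi (s : Set _) t) =
      (Set.pi (s.toLeft : Set _) fun p => t (Sum.inl p)) ×ˢ
        (Set.pi (s.toRight : Set _) fun p => t (Sum.inr p)) := by
    ext w
    simp only [Set.mem_preimage, Set.mem_pi, Finset.mem_coe, Set.mem_prod, Finset.mem_toLeft,
      Finset.mem_toRight]
    constructor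
    · intro h
      exact ⟨fun p hp => h _ hp, fun p hp => h _ hp⟩
    · rintro ⟨h, h'⟩ p hp
      cases p with
      | inl p => exact h p hp
      | inr p => exact h' p hp
  rw [h1, Measure.prod_prod, Measure.infinitePi_pi _ (fun i _ => ht _),
    Measure.infinitePi_pi _ (fun i _ => ht _)]
  conv_rhs => rw [← Finset.toLeft_disjSum_toRight (u := s)]
  rw [Finset.prod_disjSum]

/-- Every site of the new environment is an own site of one of two independent environments. -/
lemma LawU_elim {ι : Type*} {σ : ι → ι ⊕ ι} (hσ : Function.Injective σ) :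
    MeasurePreserving (fun w : (ι → ℝ) × (ι → ℝ) => fun p => Sum.elim w.1 w.2 (σ p))
      ((Measure.infinitePi fun _ : ι => ρ).prod (Measure.infinitePi fun _ : ι => ρ))
      (Measure.infinitePi fun _ : ι => ρ) := by
  have h2 := Measure.map_infinitePi_infinitePi_of_inj (P := fun _ : ι ⊕ ι => ρ) hσ
  refine ⟨measurable_pi_iff.2 fun p => (measurable_pi_apply (σ p)).comp LawU_meas, ?_⟩
  refine Eq.trans ?_ h2
  rw [← LawU_map_elim, Measure.map_map (measurable_pi_iff.2 fun p => measurable_pi_apply (σ p))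
    LawU_meas]
  rfl

/-- Independence of functions of disjoint sets of sites. See `integral_mul_indep` and the lemmas
before it in `W_7d29a1_h47/Env.lean` (`map_elim`, `mp_elim`, `splice`, `mp_splice`): the same proof
with `ℕ × Site d` in place of `ℕ × ℤ`. -/
lemma integral_indep (S : Set (ℕ × Site d)) {F G : Env d → ℝ} (hF : Measurable F)
    (hG : Measurable G) (hFS : DependsOn F S) (hGS : DependsOn G Sᶜ) :
    ∫ η, F η * G η ∂(law d ρ) = (∫ η, F η ∂(law d ρ)) * ∫ η, G η ∂(law d ρ) := by
  classical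
  have hσ : Function.Injective (fun p : ℕ × Site d =>
      if p ∈ S then (Sum.inl p : (ℕ × Site d) ⊕ (ℕ × Site d)) else Sum.inr p) := by
    intro p q h
    simp only at h
    split_ifs at h <;> simp_all
  have hmp : MeasurePreserving (fun w : Env d × Env d => fun p => Sum.elim w.1 w.2
      (if p ∈ S then (Sum.inl p : (ℕ × Site d) ⊕ (ℕ × Site d)) else Sum.inr p))
      ((law d ρ).prod (law d ρ)) (law d ρ) := LawU_elim hσ
  rw [← integral_prod_mul, ← LawU_integral hmp (F := fun g => F g * G g)
      (hF.mul hG).aestronglyMeasurable]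
  refine integral_congr_ae (Filter.Eventually.of_forall fun w => ?_)
  simp only
  congr 1
  · exact hFS fun p hp => by rw [if_pos hp]; rfl
  · exact hGS fun p hp => by rw [if_neg hp]; rfl

/-- The rows `1, ..., n` are independent. `infinitePi_map_curry` and restriction to the rows
(`measurePreserving` of the reindexing `Fin n → ℕ`, `i ↦ i + 1`, then `infinitePi_eq_pi`). -/
lemma mp_rows (n : ℕ) :
    MeasurePreserving (fun (η : Env d) (i : Fin n) (y : Site d) => η ((i : ℕ) + 1, y)) (law d ρ)
      (Measure.pi fun _ : Fin n => Measure.infinitePi fun _ : Site d => ρ) := by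
  have h1 : MeasurePreserving (fun (η : Env d) (p : Fin n × Site d) => η ((p.1 : ℕ) + 1, p.2))
      (law d ρ) (Measure.infinitePi fun _ : Fin n × Site d => ρ) := by
    refine LawU_reindex (f := fun p : Fin n × Site d => ((p.1 : ℕ) + 1, p.2)) ?_
    rintro ⟨i, y⟩ ⟨j, z⟩ h
    simp only [Prod.mk.injEq, Nat.add_right_cancel_iff] at h
    exact Prod.ext (Fin.ext h.1) h.2
  have h2 := Measure.infinitePi_map_curry (fun (_ : Fin n) (_ : Site d) => ρ)
  have h3 : MeasurePreserving (MeasurableEquiv.curry (Fin n) (Site d) ℝ)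
      (Measure.infinitePi fun _ : Fin n × Site d => ρ)
      (Measure.pi fun _ : Fin n => Measure.infinitePi fun _ : Site d => ρ) := by
    rw [← Measure.infinitePi_eq_pi]
    exact ⟨(MeasurableEquiv.curry (Fin n) (Site d) ℝ).measurable, h2⟩
  exact h3.comp h1

/-- Transfer from an abstract family; see `mp_toE` in `W_7d29a1_h46/Tr.lean`. -/
lemma mp_env {Ω : Type*} [MeasurableSpace Ω] {μ : Measure Ω} [IsProbabilityMeasure μ]
    {ω : ℕ × Site d → Ω → ℝ} (hω : IID μ ρ ω) :
    MeasurePreserving (fun x p => ω p x) μ (law d ρ) := by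
  refine ⟨measurable_pi_iff.2 hω.meas, ?_⟩
  have h3 := hω.indep.map_fun_eq_infinitePi_map hω.meas
  have h4 : (fun p : ℕ × Site d => μ.map (ω p)) = fun _ => ρ := by
    funext p
    exact hω.law p
  rw [h4] at h3
  exact h3

/-- Change of variables. -/
lemma integral_sh (t : ℕ) (x : Site d) {F : Env d → ℝ} (hF : Measurable F) :
    ∫ η, F (sh t x η) ∂(law d ρ) = ∫ η, F η ∂(law d ρ) :=
  LawU_integral (mp_sh t x) hF.aestronglyMeasurable

end Pool.Agent.W_7d29a1_h46u
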