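import Mathlib

/-!
An exponential martingale inequality for functions of independent rows.
-/

namespace Pool.Agent.W_7d29a1_h46u

open MeasureTheory ProbabilityTheory Filter Topology

lemma Subg_sq (t : ℝ) : t ^ 2 ≤ Real.exp |t| := by
  have h1 := Real.quadratic_le_exp_of_nonneg (x := |t| / 2) (by positivity)
  have h2 : |t| ≤ Real.exp (|t| / 2) := by nlinarith [sq_nonneg (|t| - 2)]
  have h3 : Real.exp |t| = Real.exp (|t| / 2) ^ 2 := by
    rw [← Real.exp_nat_mul]
    congr 1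
    push_cast
    ring
  rw [h3, ← sq_abs]
  exact pow_le_pow_left₀ (abs_nonneg _) h2 2

lemma Subg_exp (x : ℝ) : Real.exp x ≤ 1 + x + x ^ 2 * Real.exp |x| := by
  have h1 := Complex.norm_exp_sub_sum_le_norm_mul_exp (x : ℂ) 2
  rw [Finset.sum_range_succ, Finset.sum_range_one] at h1
  simp only [pow_zero, Nat.factorial_zero, Nat.cast_one, div_one, pow_one, Nat.factorial_one] at h1
  have h2 : Complex.exp (x : ℂ) - (1 + (x : ℂ)) = ((Real.exp x - (1 + x) : ℝ) : ℂ) := by
    push_cast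
    ring
  rw [h2, Complex.norm_real, Complex.norm_real, Real.norm_eq_abs, Real.norm_eq_abs, sq_abs] at h1
  have h3 := le_abs_self (Real.exp x - (1 + x))
  linarith

lemma Subg_tan (c x : ℝ) : Real.exp c * (1 + x - c) ≤ Real.exp x := by
  have h1 := Real.add_one_le_exp (x - c)
  have h2 : Real.exp x = Real.exp c * Real.exp (x - c) := by
    rw [← Real.exp_add]
    congr 1
    ring
  rw [h2]
  refine mul_le_mul_of_nonneg_left ?_ (Real.exp_pos _).le
  linarith

/-- TASK Subg1. Proof. Let `m = ∫ ψ`. `ψ - c` is integrable since `|y| ≤ exp (2 |y|)`, and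
`|m - c| ≤ ∫ |ψ - c|`; by Jensen (`ConvexOn.map_integral_le` or: `exp (2 |m - c|) ≤ ∫ exp (2 |ψ - c|) ≤ K`).
With `x = θ (ψ - m)`: `exp x ≤ 1 + x + x ^ 2 exp |x|`, `x ^ 2 exp |x| ≤ θ ^ 2 (ψ - m) ^ 2 exp |ψ - m| ≤
θ ^ 2 exp (2 |ψ - m|)` (as `y ^ 2 ≤ exp |y|`, lemma `ConcA_sq` of `W_7d29a1_h47/ConcA.lean`), and
`exp (2 |ψ - m|) ≤ exp (2 |ψ - c|) exp (2 |m - c|)`, so `∫ exp x ≤ 1 + 0 + θ ^ 2 K ^ 2 ≤ exp (K ^ 2 θ ^ 2)`.
(Compare the lemma `subgauss` of `W_7d29a1_h47/ConcA.lean`.) -/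
lemma subgauss1 {Ω : Type*} [MeasurableSpace Ω] {P : Measure Ω} [IsProbabilityMeasure P] {ψ : Ω → ℝ}
    (hψ : Measurable ψ) {c K : ℝ} (hi : Integrable (fun w => Real.exp (2 * |ψ w - c|)) P)
    (hK : ∫ w, Real.exp (2 * |ψ w - c|) ∂P ≤ K) {θ : ℝ} (hθ : |θ| ≤ 1) :
    Integrable ψ P ∧ Integrable (fun w => Real.exp (θ * (ψ w - ∫ w', ψ w' ∂P))) P ∧
      ∫ w, Real.exp (θ * (ψ w - ∫ w', ψ w' ∂P)) ∂P ≤ Real.exp (K ^ 2 * θ ^ 2) := by
  -- `ψ - c` is integrable
  have hφ : Integrable (fun w => ψ w - c) P := by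
    refine hi.mono' (hψ.sub_const c).aestronglyMeasurable (Eventually.of_forall fun w => ?_)
    rw [Real.norm_eq_abs]
    have := Real.add_one_le_exp (2 * |ψ w - c|)
    have := abs_nonneg (ψ w - c)
    linarith
  have hψi : Integrable ψ P := by
    have := hφ.add (integrable_const c)
    refine this.congr (Eventually.of_forall fun w => ?_)
    simp
  refine ⟨hψi, ?_⟩
  set m : ℝ := ∫ w', ψ w' ∂P with hm
  have hφa : Integrable (fun w => |ψ w - c|) P := hφ.abs
  have hK0 : 0 ≤ K := (integral_nonneg fun w => (Real.exp_pos _).le).trans hK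
  have hYi : Integrable (fun w => ψ w - m) P := hψi.sub (integrable_const m)
  have hmc : m - c = ∫ w, (ψ w - c) ∂P := by
    rw [integral_sub hψi (integrable_const c)]
    simp [hm]
  have h12 : ∀ w, Real.exp (2 * |ψ w - m|) ≤ Real.exp (2 * |m - c|) * Real.exp (2 * |ψ w - c|) := by
    intro w
    rw [← Real.exp_add]
    refine Real.exp_le_exp.2 ?_
    have h := abs_sub (ψ w - c) (m - c)
    have e : ψ w - c - (m - c) = ψ w - m := by ring
    rw [e] at h
    linarith
  have hY2 : Integrable (fun w => Real.exp (2 * |ψ w - m|)) P := by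
    refine (hi.const_mul (Real.exp (2 * |m - c|))).mono'
      (by fun_prop) (Eventually.of_forall fun w => ?_)
    rw [Real.norm_eq_abs, abs_of_pos (Real.exp_pos _)]
    exact h12 w
  have h1 : ∀ w, Real.exp (θ * (ψ w - m)) ≤
      1 + θ * (ψ w - m) + θ ^ 2 * Real.exp (2 * |ψ w - m|) := by
    intro w
    set y := ψ w - m with hy
    refine (Subg_exp (θ * y)).trans ?_
    have h2 : |θ * y| ≤ |y| := by
      rw [abs_mul]
      exact mul_le_of_le_one_left (abs_nonneg _) hθ
    have h3 := Subg_sq y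
    have h4 : Real.exp (2 * |y|) = Real.exp |y| * Real.exp |y| := by
      rw [← Real.exp_add]
      congr 1
      ring
    have h5 : (θ * y) ^ 2 * Real.exp |θ * y| ≤ θ ^ 2 * Real.exp (2 * |y|) := by
      rw [mul_pow, mul_assoc, h4]
      refine mul_le_mul_of_nonneg_left ?_ (sq_nonneg _)
      exact mul_le_mul h3 (Real.exp_le_exp.2 h2) (Real.exp_pos _).le (Real.exp_pos _).le
    linarith
  have hexpi : Integrable (fun w => Real.exp (θ * (ψ w - m))) P := by
    refine hY2.mono' (by fun_prop) (Eventually.of_forall fun w => ?_)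
    rw [Real.norm_eq_abs, abs_of_pos (Real.exp_pos _)]
    refine Real.exp_le_exp.2 ?_
    have a1 : |θ * (ψ w - m)| ≤ |ψ w - m| := by
      rw [abs_mul]
      exact mul_le_of_le_one_left (abs_nonneg _) hθ
    have a2 := le_abs_self (θ * (ψ w - m))
    have a3 := abs_nonneg (ψ w - m)
    linarith
  refine ⟨hexpi, ?_⟩
  have hm2 : Real.exp (2 * |m - c|) ≤ K := by
    have h6 : ∀ w, Real.exp (2 * |m - c|) * (1 + 2 * |ψ w - c| - 2 * |m - c|) ≤
        Real.exp (2 * |ψ w - c|) := fun w => Subg_tan _ _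
    have h7 : Integrable (fun w => Real.exp (2 * |m - c|) * (1 + 2 * |ψ w - c| - 2 * |m - c|)) P :=
      ((((integrable_const (1 : ℝ)).add (hφa.const_mul 2)).sub
        (integrable_const (2 * |m - c|))).const_mul _)
    have h8 := integral_mono h7 hi h6
    have h9 : ∫ w, Real.exp (2 * |m - c|) * (1 + 2 * |ψ w - c| - 2 * |m - c|) ∂P =
        Real.exp (2 * |m - c|) * (1 + 2 * (∫ w, |ψ w - c| ∂P) - 2 * |m - c|) := by
      have a1 : Integrable (fun w => 1 + 2 * |ψ w - c|) P :=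
        (integrable_const (1 : ℝ)).add (hφa.const_mul 2)
      rw [integral_const_mul, integral_sub a1 (integrable_const _),
        integral_add (integrable_const _) (hφa.const_mul 2), integral_const_mul]
      simp
    rw [h9] at h8
    have h10 : |m - c| ≤ ∫ w, |ψ w - c| ∂P := by
      rw [hmc]
      exact abs_integral_le_integral_abs
    have h11 : Real.exp (2 * |m - c|) * 1 ≤
        Real.exp (2 * |m - c|) * (1 + 2 * (∫ w, |ψ w - c| ∂P) - 2 * |m - c|) :=
      mul_le_mul_of_nonneg_left (by linarith) (Real.exp_pos _).le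
    linarith
  have hY3 : ∫ w, Real.exp (2 * |ψ w - m|) ∂P ≤ K ^ 2 := by
    have h13 := integral_mono hY2 (hi.const_mul _) h12
    rw [integral_const_mul] at h13
    have h14 : Real.exp (2 * |m - c|) * ∫ w, Real.exp (2 * |ψ w - c|) ∂P ≤ K * K :=
      mul_le_mul hm2 hK (integral_nonneg fun w => (Real.exp_pos _).le) hK0
    rw [sq]
    exact h13.trans h14
  have h15 : Integrable (fun w => 1 + θ * (ψ w - m) + θ ^ 2 * Real.exp (2 * |ψ w - m|)) P :=
    ((integrable_const (1 : ℝ)).add (hYi.const_mul θ)).add (hY2.const_mul _)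
  have h16 := integral_mono hexpi h15 h1
  have h17 : ∫ w, (1 + θ * (ψ w - m) + θ ^ 2 * Real.exp (2 * |ψ w - m|)) ∂P =
      1 + θ ^ 2 * ∫ w, Real.exp (2 * |ψ w - m|) ∂P := by
    have a1 : Integrable (fun w => 1 + θ * (ψ w - m)) P :=
      (integrable_const (1 : ℝ)).add (hYi.const_mul θ)
    have a2 : Integrable (fun w => θ ^ 2 * Real.exp (2 * |ψ w - m|)) P := hY2.const_mul _
    rw [integral_add a1 a2,
      integral_add (integrable_const _) (hYi.const_mul θ), integral_const_mul, integral_const_mul,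
      integral_sub hψi (integrable_const _)]
    simp [hm]
  rw [h17] at h16
  have h18 := mul_le_mul_of_nonneg_left hY3 (sq_nonneg θ)
  have h19 := Real.add_one_le_exp (K ^ 2 * θ ^ 2)
  refine h16.trans ?_
  linarith

end Pool.Agent.W_7d29a1_h46u
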