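import Pool.Agent.W_7d29a1_h46u.Walk

/-!
The mass outside of a tube: deterministic part.
-/

namespace Pool.Agent.W_7d29a1_h46u

open MeasureTheory ProbabilityTheory Filter Topology Pool.Agent.W_MP_7d29a1_pr
  Pool.Agent.W_7d29a1_h46

variable {d : ℕ}

open Classical in
/-- The mass of the walks with `|t| w ≤ t ((S_i)_j - i v_j)`. -/
noncomputable def Far {d : ℕ} (β : ℝ) (h : Vec d) (η : Env d) (n i : ℕ) (j : Fin d) (v : Vec d)
    (t w : ℝ) : ℝ :=
  ZT β h η {s : Fin n → Step d | |t| * w ≤ t * ((emb (pos s i)) j - i * v j)} / Z β h η n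

lemma TubU_inner (h : Vec d) (t : ℝ) (j : Fin d) (x : Vec d) :
    inner ℝ (h + t • ej j) x = inner ℝ h x + t * x j := by
  rw [inner_add_left, real_inner_smul_left]
  congr 2
  unfold ej
  rw [EuclideanSpace.inner_single_left]
  simp

lemma TubU_wgt (β : ℝ) (h : Vec d) (η : Env d) {n : ℕ} (t : ℝ) (j : Fin d)
    (s : Fin n → Step d) :
    wgt β (h + t • ej j) η s = Real.exp (t * (emb (pos s n)) j) * wgt β h η s := by
  unfold wgt
  rw [← Real.exp_add, TubU_inner]
  congr 1
  ring

/-- TASK TubU1. Compare `Bul_det` in `W_7d29a1_h46/Bul.lean`: with `n = i + k`, `sum_glue`,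
`wgt_glue`; on the set, `1 ≤ exp (t ((S_i)_j - i v_j) - |t| w)`, and
`exp (t (S_i)_j) wgt β h η s = wgt β (h + t • ej j) η s`. -/
theorem far_le (hd : 0 < d) (β : ℝ) (h : Vec d) (η : Env d) {i n : ℕ} (hi : i ≤ n) (j : Fin d)
    (v : Vec d) (t w : ℝ) {M : ℝ} (hM : ∀ y ∈ boxF d i, Z β h (sh i y η) (n - i) ≤ M) :
    Far β h η n i j v t w ≤
      Real.exp (-(t * (i * v j)) - |t| * w) * Z β (h + t • ej j) η i * M / Z β h η n := by
  classical
  obtain ⟨k, rfl⟩ := Nat.exists_eq_add_of_le hi
  have hk : i + k - i = k := by omega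
  rw [hk] at hM
  unfold Far
  refine div_le_div_of_nonneg_right ?_ (Z_pos hd β h η (i + k)).le
  unfold ZT
  rw [sum_glue, Z_eq β (h + t • ej j) η i, Finset.mul_sum, Finset.sum_mul]
  refine Finset.sum_le_sum fun s _ => ?_
  have hw0 : 0 < wgt β h η s := Real.exp_pos _
  have hZk : 0 ≤ Z β h (sh i (pos s i) η) k := (Z_pos hd β h _ k).le
  have hMs := hM (pos s i) (pos_mem_box s i)
  by_cases hs : |t| * w ≤ t * ((emb (pos s i)) j - i * v j)
  · have e1 : ∑ q : Fin k → Step d, (if Fin.append s q ∈ {s : Fin (i + k) → Step d |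
        |t| * w ≤ t * ((emb (pos s i)) j - i * v j)} then wgt β h η (Fin.append s q) else 0) =
        wgt β h η s * Z β h (sh i (pos s i) η) k := by
      rw [Z_eq, Finset.mul_sum]
      refine Finset.sum_congr rfl fun q _ => ?_
      rw [if_pos, wgt_glue]
      rw [Set.mem_setOf_eq, pos_glue_le s q le_rfl]
      exact hs
    rw [e1, TubU_wgt]
    have e2 : (1 : ℝ) ≤ Real.exp (-(t * (i * v j)) - |t| * w) *
        Real.exp (t * (emb (pos s i)) j) := by
      rw [← Real.exp_add]
      refine Real.one_le_exp ?_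
      have e3 : -(t * (i * v j)) - |t| * w + t * (emb (pos s i)) j =
          t * ((emb (pos s i)) j - i * v j) - |t| * w := by ring
      rw [e3]
      linarith
    calc wgt β h η s * Z β h (sh i (pos s i) η) k ≤ wgt β h η s * M :=
          mul_le_mul_of_nonneg_left hMs hw0.le
      _ ≤ (Real.exp (-(t * (i * v j)) - |t| * w) * Real.exp (t * (emb (pos s i)) j)) *
          (wgt β h η s * M) :=
          le_mul_of_one_le_left (mul_nonneg hw0.le (hZk.trans hMs)) e2
      _ = _ := by ring
  · have e1 : ∑ q : Fin k → Step d, (if Fin.append s q ∈ {s : Fin (i + k) → Step d |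
        |t| * w ≤ t * ((emb (pos s i)) j - i * v j)} then wgt β h η (Fin.append s q) else 0) =
        0 := by
      refine Finset.sum_eq_zero fun q _ => ?_
      rw [if_neg]
      rw [Set.mem_setOf_eq, pos_glue_le s q le_rfl]
      exact hs
    rw [e1]
    exact mul_nonneg (mul_nonneg (Real.exp_pos _).le (Real.exp_pos _).le) (hZk.trans hMs)

lemma TubU_norm (x : Vec d) : ‖x‖ ≤ ∑ j : Fin d, |x j| := by
  have h1 : x = ∑ j : Fin d, x j • ej j := by
    ext k
    simp only [ej, WithLp.ofLp_sum, WithLp.ofLp_smul, EuclideanSpace.ofLp_single, Finset.sum_apply,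
      Pi.smul_apply, smul_eq_mul]
    rw [Finset.sum_eq_single k]
    · rw [Pi.single_eq_same, mul_one]
    · intro b _ hb
      rw [Pi.single_eq_of_ne hb.symm, mul_zero]
    · intro h
      exact absurd (Finset.mem_univ _) h
  calc ‖x‖ = ‖∑ j : Fin d, x j • ej j‖ := by rw [← h1]
    _ ≤ ∑ j : Fin d, ‖x j • ej j‖ := norm_sum_le _ _
    _ = ∑ j : Fin d, |x j| := by
        refine Finset.sum_congr rfl fun j _ => ?_
        rw [norm_smul, Real.norm_eq_abs]
        simp [ej]

lemma TubU_coord (hd : 0 < d) (x : Vec d) {r : ℝ} (hx : r < ‖x‖) :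
    ∃ j : Fin d, r / d ≤ |x j| := by
  by_contra hcon
  push Not at hcon
  have hd0 : (0 : ℝ) < d := by exact_mod_cast hd
  have h1 : ∑ j : Fin d, |x j| ≤ ∑ j : Fin d, r / (d : ℝ) :=
    Finset.sum_le_sum fun j _ => (hcon j).le
  have h2 : ∑ j : Fin d, r / (d : ℝ) = r := by
    rw [Finset.sum_const, Finset.card_univ, Fintype.card_fin, nsmul_eq_mul]
    field_simp
  linarith [TubU_norm x]

/-- TASK TubU2. If a walk is not in the tube of radius `r` then at some time `i ≤ n` the norm of
`S_i - i v` is larger than `r`, so some coordinate has absolute value at least `r / d`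
(`‖w‖ ≤ ∑_j |w_j|`). -/
theorem one_sub_le (hd : 0 < d) (β : ℝ) (h : Vec d) (η : Env d) (n : ℕ) (v : Vec d) {t r : ℝ}
    (ht : 0 < t) :
    1 - PolT β h η (tube d n v r) ≤ ∑ i ∈ Finset.range (n + 1), ∑ j : Fin d,
      (Far β h η n i j v t (r / d) + Far β h η n i j v (-t) (r / d)) := by
  classical
  have hZ := Z_pos hd β h η n
  set F : ℝ → ℕ → Fin d → Set (Fin n → Step d) := fun t i j =>
    {s : Fin n → Step d | |t| * (r / d) ≤ t * ((emb (pos s i)) j - i * v j)} with hF
  have hFar : ∀ i j t, Far β h η n i j v t (r / d) = ZT β h η (F t i j) / Z β h η n :=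
    fun i j t => rfl
  have hPol : 1 - PolT β h η (tube d n v r) = (Z β h η n - ZT β h η (tube d n v r)) / Z β h η n := by
    rw [sub_div, div_self hZ.ne']
    rfl
  have hsum : ∑ i ∈ Finset.range (n + 1), ∑ j : Fin d,
      (Far β h η n i j v t (r / d) + Far β h η n i j v (-t) (r / d)) =
      (∑ i ∈ Finset.range (n + 1), ∑ j : Fin d,
        (ZT β h η (F t i j) + ZT β h η (F (-t) i j))) / Z β h η n := by
    rw [Finset.sum_div]
    refine Finset.sum_congr rfl fun i _ => ?_
    rw [Finset.sum_div]
    refine Finset.sum_congr rfl fun j _ => ?_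
    rw [hFar, hFar, add_div]
  rw [hPol, hsum]
  refine div_le_div_of_nonneg_right ?_ hZ.le
  have e1 : ∑ i ∈ Finset.range (n + 1), ∑ j : Fin d,
        (ZT β h η (F t i j) + ZT β h η (F (-t) i j)) =
      ∑ s : Fin n → Step d, ∑ i ∈ Finset.range (n + 1), ∑ j : Fin d,
        ((if s ∈ F t i j then wgt β h η s else 0) +
          (if s ∈ F (-t) i j then wgt β h η s else 0)) := by
    rw [Finset.sum_comm (s := (Finset.univ : Finset (Fin n → Step d)))]
    refine Finset.sum_congr rfl fun i _ => ?_
    rw [Finset.sum_comm]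
    refine Finset.sum_congr rfl fun j _ => ?_
    unfold ZT
    rw [← Finset.sum_add_distrib]
  have e2 : Z β h η n - ZT β h η (tube d n v r) =
      ∑ s : Fin n → Step d, (if s ∈ tube d n v r then 0 else wgt β h η s) := by
    rw [Z_eq]
    unfold ZT
    rw [← Finset.sum_sub_distrib]
    refine Finset.sum_congr rfl fun s _ => ?_
    split_ifs
    · rw [sub_self]
    · rw [sub_zero]
  rw [e1, e2]
  refine Finset.sum_le_sum fun s _ => ?_
  have hw0 : 0 < wgt β h η s := Real.exp_pos _
  have hnn : ∀ i ∈ Finset.range (n + 1), ∀ j : Fin d,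
      0 ≤ (if s ∈ F t i j then wgt β h η s else 0) +
        (if s ∈ F (-t) i j then wgt β h η s else 0) := by
    intro i _ j
    refine add_nonneg ?_ ?_ <;> split_ifs <;> first | exact hw0.le | exact le_rfl
  by_cases hs : s ∈ tube d n v r
  · rw [if_pos hs]
    exact Finset.sum_nonneg fun i hi => Finset.sum_nonneg fun j _ => hnn i hi j
  · rw [if_neg hs]
    have h1 : ∃ i ≤ n, r < ‖emb (pos s i) - (i : ℝ) • v‖ := by
      unfold tube at hs
      rw [Set.mem_setOf_eq] at hs
      push Not at hs
      exact hs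
    obtain ⟨i, hi, hr⟩ := h1
    obtain ⟨j, hj⟩ := TubU_coord hd _ hr
    have hij : (emb (pos s i) - (i : ℝ) • v) j = (emb (pos s i)) j - i * v j := by
      simp
    rw [hij] at hj
    have hmem : i ∈ Finset.range (n + 1) := Finset.mem_range.2 (by omega)
    have h2 : wgt β h η s ≤ (if s ∈ F t i j then wgt β h η s else 0) +
        (if s ∈ F (-t) i j then wgt β h η s else 0) := by
      rcases le_abs'.1 hj with h3 | h3
      · have h4 : s ∈ F (-t) i j := by
          rw [hF, Set.mem_setOf_eq, abs_neg, abs_of_pos ht]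
          nlinarith [mul_le_mul_of_nonneg_left h3 ht.le]
        rw [if_pos h4]
        have h5 : 0 ≤ (if s ∈ F t i j then wgt β h η s else 0) := by
          split_ifs
          · exact hw0.le
          · exact le_rfl
        linarith
      · have h4 : s ∈ F t i j := by
          rw [hF, Set.mem_setOf_eq, abs_of_pos ht]
          exact mul_le_mul_of_nonneg_left h3 ht.le
        rw [if_pos h4]
        have h5 : 0 ≤ (if s ∈ F (-t) i j then wgt β h η s else 0) := by
          split_ifs
          · exact hw0.le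
          · exact le_rfl
        linarith
    refine h2.trans ?_
    refine le_trans ?_ (Finset.single_le_sum
      (f := fun i => ∑ j : Fin d, ((if s ∈ F t i j then wgt β h η s else 0) +
        (if s ∈ F (-t) i j then wgt β h η s else 0)))
      (fun i hi => Finset.sum_nonneg fun j _ => hnn i hi j) hmem)
    exact Finset.single_le_sum
      (f := fun j => (if s ∈ F t i j then wgt β h η s else 0) +
        (if s ∈ F (-t) i j then wgt β h η s else 0))
      (fun j _ => hnn i hmem j) (Finset.mem_univ j)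

end Pool.Agent.W_7d29a1_h46u
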