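import Pool.Agent.W_7d29a1_h46.Basic

/-!
The directed polymer in all dimensions: definitions for the upper bound of the wandering exponent.
-/

namespace Pool.Agent.W_7d29a1_h46u

open MeasureTheory ProbabilityTheory Filter Topology Pool.Agent.W_MP_7d29a1_pr
  Pool.Agent.W_7d29a1_h46

/-- Environments. -/
abbrev Env (d : ℕ) := ℕ × Site d → ℝ

/-- The law of the environment: independent sites with law `ρ`. -/
noncomputable def law (d : ℕ) (ρ : Measure ℝ) : Measure (Env d) := Measure.infinitePi fun _ => ρ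

instance (d : ℕ) (ρ : Measure ℝ) [IsProbabilityMeasure ρ] : IsProbabilityMeasure (law d ρ) := by
  unfold law
  infer_instance

/-- The environment seen from the site `(t, x)`. -/
def sh {d : ℕ} (t : ℕ) (x : Site d) (η : Env d) : Env d := fun p => η (p.1 + t, p.2 + x)

/-- The (not normalised) partition function with tilt `h`. -/
noncomputable def Z {d : ℕ} (β : ℝ) (h : Vec d) (η : Env d) (n : ℕ) : ℝ :=
  ZT β h η (Set.univ : Set (Fin n → Step d))

/-- The logarithm of the partition function. -/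
noncomputable def X {d : ℕ} (β : ℝ) (h : Vec d) (η : Env d) (n : ℕ) : ℝ := Real.log (Z β h η n)

/-- The mean of the logarithm of the partition function. -/
noncomputable def A {d : ℕ} (ρ : Measure ℝ) (β : ℝ) (h : Vec d) (n : ℕ) : ℝ :=
  ∫ η, X β h η n ∂(law d ρ)

/-- All exponential moments. -/
def EM (ρ : Measure ℝ) : Prop := ∀ b : ℝ, Integrable (fun t => Real.exp (b * t)) ρ

/-- The constant of the concentration inequality. -/
noncomputable def Kc (β : ℝ) (ρ : Measure ℝ) : ℝ :=
  ∫ t, (Real.exp (2 * β * t) + Real.exp (-(2 * β * t))) ∂ρ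

/-- The free energy (not normalised): `lim (1/n) A n`, which is also the supremum. -/
noncomputable def lam {d : ℕ} (ρ : Measure ℝ) (β : ℝ) (h : Vec d) : ℝ :=
  sSup (Set.range fun n : ℕ => A ρ β h (n + 1) / ((n : ℝ) + 1))

/-- The fluctuations of the free energy near the tilt `h` are at most of order `n ^ x`. -/
def Fl {d : ℕ} (ρ : Measure ℝ) (β : ℝ) (h : Vec d) (x : ℝ) : Prop :=
  ∀ q : ℕ, ∃ δ > 0, ∃ C : ℝ, ∀ h' : Vec d, ‖h' - h‖ < δ → ∀ n : ℕ, 1 ≤ n →
    ∫ η, |X β h' η n - A ρ β h' n| ^ q ∂(law d ρ) ≤ C * (n : ℝ) ^ (x * q)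

/-- The unit vector `e_j`. -/
noncomputable def ej {d : ℕ} (j : Fin d) : Vec d := EuclideanSpace.single j 1

/-- Second order upper expansion of `L` at `h` along the coordinate directions. -/
def ExpC {d : ℕ} (L : Vec d → ℝ) (h v : Vec d) : Prop :=
  ∃ C : ℝ, ∀ j : Fin d, ∀ t : ℝ, |t| ≤ 1 → L (h + t • ej j) ≤ L h + v j * t + C * t ^ 2

end Pool.Agent.W_7d29a1_h46u
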