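import Pool.Agent.W_7d29a1_h46u.TubP
import Pool.Agent.W_7d29a1_h46u.RateU

/-!
The mass outside of a tube: conclusion.
-/

namespace Pool.Agent.W_7d29a1_h46u

open MeasureTheory ProbabilityTheory Filter Topology Pool.Agent.W_MP_7d29a1_pr
  Pool.Agent.W_7d29a1_h46

variable {d : ℕ} {ρ : Measure ℝ} [IsProbabilityMeasure ρ]

/-- The mean of a `[0, 1]`-valued function which is small on a good event. -/
theorem TubW_split {Ω : Type*} [MeasurableSpace Ω] {μ : Measure Ω} [IsProbabilityMeasure μ]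
    {f : Ω → ℝ} (h1 : ∀ η, f η ≤ 1) {G : Set Ω} {b : ℝ}
    (hb : 0 ≤ b) (hG : ∀ η ∈ G, f η ≤ b) (h0 : ∀ η, 0 ≤ f η) : ∫ η, f η ∂μ ≤ μ.real Gᶜ + b := by
  have hm : MeasurableSet (toMeasurable μ Gᶜ) := measurableSet_toMeasurable _ _
  have hint : Integrable (fun η => (toMeasurable μ Gᶜ).indicator (fun _ => (1 : ℝ)) η + b) μ :=
    ((integrable_const (1 : ℝ)).indicator hm).add (integrable_const b)
  have hle : ∀ η, f η ≤ (toMeasurable μ Gᶜ).indicator (fun _ => (1 : ℝ)) η + b := by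
    intro η
    by_cases hη : η ∈ G
    · have h2 : 0 ≤ (toMeasurable μ Gᶜ).indicator (fun _ => (1 : ℝ)) η :=
        Set.indicator_nonneg (fun _ _ => zero_le_one) η
      linarith [hG η hη]
    · rw [Set.indicator_of_mem (subset_toMeasurable μ Gᶜ hη)]
      linarith [h1 η]
  refine (integral_mono_of_nonneg (Eventually.of_forall h0) hint
    (Eventually.of_forall hle)).trans (le_of_eq ?_)
  rw [integral_add ((integrable_const (1 : ℝ)).indicator hm) (integrable_const b),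
    integral_indicator_const _ hm, integral_const]
  simp only [probReal_univ, smul_eq_mul, one_mul, mul_one]
  rw [measureReal_def, measureReal_def, measure_toMeasurable]

/-- Asymptotics of the bound. -/
theorem TubW_asym (d : ℕ) (hd : 0 < d) (C' : ℝ) (hC' : 0 ≤ C') {x ε : ℝ} (hx : 0 < x) (hε : 0 < ε)
    (q : ℕ) : ∀ᶠ n : ℕ in atTop,
      2 * d * ((n : ℝ) + 1) * Real.exp (C' * (n : ℝ) ^ (x + ε) - (n : ℝ) ^ (x + 3 * ε) / d) ≤
        4 * d * (n : ℝ) ^ (-(q : ℝ)) := by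
  have hd0 : (0 : ℝ) < d := by exact_mod_cast hd
  set s : ℝ := x + 2 * ε with hs
  have hs0 : 0 < s := by positivity
  have hcast := tendsto_natCast_atTop_atTop (R := ℝ)
  have e1 : ∀ᶠ n : ℕ in atTop, (d : ℝ) * (1 + C') + 1 ≤ (n : ℝ) ^ ε :=
    ((tendsto_rpow_atTop hε).comp hcast).eventually (eventually_ge_atTop _)
  have e2 : ∀ᶠ n : ℕ in atTop, ((n : ℝ) ^ s) ^ (((q : ℝ) + 1) / s) *
      Real.exp (-1 * (n : ℝ) ^ s) ≤ 1 := by
    have h1 := (tendsto_rpow_mul_exp_neg_mul_atTop_nhds_zero (((q : ℝ) + 1) / s) 1 one_pos).comp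
      ((tendsto_rpow_atTop hs0).comp hcast)
    exact (h1.eventually (gt_mem_nhds one_pos)).mono fun n hn => hn.le
  filter_upwards [e1, e2, eventually_ge_atTop 1] with n h1 h2 hn
  have hn1 : (1 : ℝ) ≤ n := by exact_mod_cast hn
  have hn0 : (0 : ℝ) < n := by linarith
  set y : ℝ := (n : ℝ) ^ ε with hy
  have hy1 : 1 ≤ y := by nlinarith [mul_nonneg hd0.le hC']
  -- the exponent
  have h3 : C' * (n : ℝ) ^ (x + ε) - (n : ℝ) ^ (x + 3 * ε) / d ≤ -(n : ℝ) ^ s := by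
    have a1 : (n : ℝ) ^ s = (n : ℝ) ^ (x + ε) * y := by
      rw [hy, ← Real.rpow_add hn0, hs]
      congr 1
      ring
    have a2 : (n : ℝ) ^ (x + 3 * ε) = (n : ℝ) ^ (x + ε) * (y * y) := by
      rw [hy, ← Real.rpow_add hn0, ← Real.rpow_add hn0]
      congr 1
      ring
    rw [a1, a2]
    have a3 : 0 < (n : ℝ) ^ (x + ε) := Real.rpow_pos_of_pos hn0 _
    have a4 : C' + y ≤ y * y / d := by
      rw [le_div_iff₀ hd0]
      have : y * (d * (1 + C')) ≤ y * y := mul_le_mul_of_nonneg_left (by linarith) (by linarith)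
      nlinarith [mul_nonneg hd0.le hC']
    have a5 := mul_le_mul_of_nonneg_left a4 a3.le
    have a6 : (n : ℝ) ^ (x + ε) * (y * y) / d = (n : ℝ) ^ (x + ε) * (y * y / d) := by ring
    rw [a6]
    linarith
  have h4 : ((n : ℝ) ^ s) ^ (((q : ℝ) + 1) / s) = (n : ℝ) ^ ((q : ℝ) + 1) := by
    rw [← Real.rpow_mul hn0.le]
    congr 1
    field_simp
  rw [h4] at h2
  have h5 : (n : ℝ) * Real.exp (-(n : ℝ) ^ s) ≤ (n : ℝ) ^ (-(q : ℝ)) := by
    have b1 : (n : ℝ) * Real.exp (-(n : ℝ) ^ s) =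
        (n : ℝ) ^ (-(q : ℝ)) * ((n : ℝ) ^ ((q : ℝ) + 1) * Real.exp (-1 * (n : ℝ) ^ s)) := by
      rw [← mul_assoc, ← Real.rpow_add hn0, neg_add_cancel_left, Real.rpow_one, neg_one_mul]
    rw [b1]
    exact mul_le_of_le_one_right (Real.rpow_nonneg hn0.le _) h2
  calc 2 * d * ((n : ℝ) + 1) * Real.exp (C' * (n : ℝ) ^ (x + ε) - (n : ℝ) ^ (x + 3 * ε) / d)
      ≤ 2 * d * ((n : ℝ) + n) * Real.exp (-(n : ℝ) ^ s) := by
        gcongr
    _ = 4 * d * ((n : ℝ) * Real.exp (-(n : ℝ) ^ s)) := by ring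
    _ ≤ 4 * d * (n : ℝ) ^ (-(q : ℝ)) := mul_le_mul_of_nonneg_left h5 (by positivity)

/-- TASK TubW. Choose `ε > 0` with `a ≥ (1 + x) / 2 + 3 ε` and `x + ε < 1`, `t = n ^ (-(1 - x) / 2)`,
`u = n ^ (x + ε)`, `R = C n ^ (x + ε)` (`rateU`), `r = n ^ a`: `t r ≥ n ^ (x + 3 ε)`, `n t² = n ^ x`. On the
good event `1 - PolT ≤ 2 d (n+1) exp (C' n ^ (x+ε) - n ^ (x + 3 ε) / d) ≤ C'' n ^ (-q)`, off it `≤ 1`
(`prob_good`), for `n ≥ n₀` (so that `t < δ`, `t ≤ 1`); for `n < n₀` enlarge the constant. -/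
theorem tube_int (hd : 0 < d) (hρ : EM ρ) {β : ℝ} {h v : Vec d} {x : ℝ} (hx : 0 < x)
    (hx1 : x < 1) (hF : Fl ρ β h x) (hE : ExpC (lam ρ β) h v) {a : ℝ} (ha : (1 + x) / 2 < a)
    (q : ℕ) :
    ∃ C : ℝ, ∀ n : ℕ, 1 ≤ n →
      ∫ η, (1 - PolT β h η (tube d n v ((n : ℝ) ^ a))) ∂(law d ρ) ≤ C * (n : ℝ) ^ (-(q : ℝ)) := by
  have hd0 : (0 : ℝ) < d := by exact_mod_cast hd
  obtain ⟨ε, hε, hε1, hε2⟩ : ∃ ε : ℝ, 0 < ε ∧ (1 + x) / 2 + 3 * ε ≤ a ∧ x + ε < 1 := by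
    refine ⟨min ((a - (1 + x) / 2) / 3) ((1 - x) / 2), lt_min (by linarith) (by linarith), ?_, ?_⟩
    · have := min_le_left ((a - (1 + x) / 2) / 3) ((1 - x) / 2)
      linarith
    · have := min_le_right ((a - (1 + x) / 2) / 3) ((1 - x) / 2)
      linarith
  obtain ⟨δ₁, hδ₁, C₁, hC₁, H₁⟩ := rateU hd hρ hx.le hF hε hε2
  obtain ⟨δ₂, hδ₂, C₂, hC₂, H₂⟩ := prob_good hd hρ hx.le hF hε q
  obtain ⟨C₃, H₃⟩ := hE
  have H₃' : ∀ j : Fin d, ∀ t : ℝ, |t| ≤ 1 →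
      lam ρ β (h + t • ej j) ≤ lam ρ β h + v j * t + max C₃ 0 * t ^ 2 := fun j t ht =>
    (H₃ j t ht).trans (by
      have := mul_le_mul_of_nonneg_right (le_max_left C₃ 0) (sq_nonneg t)
      linarith)
  have hC₃ : 0 ≤ max C₃ 0 := le_max_right _ _
  set C' : ℝ := max C₃ 0 + 3 + C₁ with hC'
  have hC'0 : 0 ≤ C' := by positivity
  have hint : ∀ n : ℕ, ∀ η : Env d, 1 - PolT β h η (tube d n v ((n : ℝ) ^ a)) ≤ 1 := fun n η => by
    have := PolT_nonneg β h η (tube d n v ((n : ℝ) ^ a))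
    linarith
  have hint0 : ∀ n : ℕ, ∀ η : Env d, 0 ≤ 1 - PolT β h η (tube d n v ((n : ℝ) ^ a)) := fun n η => by
    have := PolT_le_one β h η (tube d n v ((n : ℝ) ^ a))
    linarith
  -- small tilts
  have hcast := tendsto_natCast_atTop_atTop (R := ℝ)
  have ht : ∀ᶠ n : ℕ in atTop, (n : ℝ) ^ (-((1 - x) / 2)) < δ₂ := by
    have h1 := (tendsto_rpow_neg_atTop (show 0 < (1 - x) / 2 by linarith)).comp hcast
    exact h1.eventually (gt_mem_nhds hδ₂)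
  obtain ⟨N, hN⟩ := eventually_atTop.1 (ht.and (TubW_asym d hd C' hC'0 hx hε q))
  refine ⟨max (C₂ + 4 * d) ((N : ℝ) ^ (q : ℝ)), fun n hn => ?_⟩
  have hn1 : (1 : ℝ) ≤ n := by exact_mod_cast hn
  have hn0 : (0 : ℝ) < n := by linarith
  have hq0 : 0 ≤ (n : ℝ) ^ (-(q : ℝ)) := Real.rpow_nonneg hn0.le _
  rcases lt_or_ge n N with hnN | hnN
  · -- small n
    have h1 : ∫ η, (1 - PolT β h η (tube d n v ((n : ℝ) ^ a))) ∂(law d ρ) ≤ 1 := by
      have h2 := integral_mono_of_nonneg (μ := law d ρ) (Eventually.of_forall (hint0 n))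
        (integrable_const (1 : ℝ)) (Eventually.of_forall (hint n))
      refine h2.trans (le_of_eq ?_)
      simp
    refine h1.trans ?_
    have h3 : 1 ≤ (N : ℝ) ^ (q : ℝ) * (n : ℝ) ^ (-(q : ℝ)) := by
      rw [Real.rpow_neg hn0.le, ← div_eq_mul_inv, one_le_div (Real.rpow_pos_of_pos hn0 _)]
      exact Real.rpow_le_rpow hn0.le (by exact_mod_cast hnN.le) (Nat.cast_nonneg q)
    exact h3.trans (mul_le_mul_of_nonneg_right (le_max_right _ _) hq0)
  · obtain ⟨ht1, hasym⟩ := hN n hnN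
    set t : ℝ := (n : ℝ) ^ (-((1 - x) / 2)) with htdef
    have ht0 : 0 < t := Real.rpow_pos_of_pos hn0 _
    have htle : t ≤ 1 := Real.rpow_le_one_of_one_le_of_nonpos hn1 (by linarith)
    have hbad := H₂ n hn t (by rw [abs_of_pos ht0]; exact ht1)
    have hR := H₁ h (by simpa using hδ₁) n hn
    have hnt : n * (max C₃ 0 * t ^ 2) ≤ max C₃ 0 * (n : ℝ) ^ (x + ε) := by
      have h1 : (n : ℝ) * t ^ 2 = (n : ℝ) ^ x := by
        have h2 : t ^ 2 = (n : ℝ) ^ (-(1 - x)) := by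
          rw [htdef, ← Real.rpow_natCast, ← Real.rpow_mul hn0.le]
          congr 1
          push_cast
          ring
        rw [h2]
        nth_rewrite 1 [← Real.rpow_one (n : ℝ)]
        rw [← Real.rpow_add hn0]
        congr 1
        ring
      have h2 : (n : ℝ) ^ x ≤ (n : ℝ) ^ (x + ε) :=
        Real.rpow_le_rpow_of_exponent_le hn1 (by linarith)
      calc n * (max C₃ 0 * t ^ 2) = max C₃ 0 * (n * t ^ 2) := by ring
        _ = max C₃ 0 * (n : ℝ) ^ x := by rw [h1]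
        _ ≤ _ := mul_le_mul_of_nonneg_left h2 hC₃
    have htr : (n : ℝ) ^ (x + 3 * ε) / d ≤ t * ((n : ℝ) ^ a / d) := by
      rw [← mul_div_assoc]
      refine div_le_div_of_nonneg_right ?_ hd0.le
      rw [htdef, ← Real.rpow_add hn0]
      exact Real.rpow_le_rpow_of_exponent_le hn1 (by linarith)
    have hexp : n * (max C₃ 0 * t ^ 2) + 3 * (n : ℝ) ^ (x + ε) + C₁ * (n : ℝ) ^ (x + ε) -
        t * ((n : ℝ) ^ a / d) ≤ C' * (n : ℝ) ^ (x + ε) - (n : ℝ) ^ (x + 3 * ε) / d := by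
      rw [hC']
      linarith
    have hmain := TubW_split (μ := law d ρ)
      (f := fun η => 1 - PolT β h η (tube d n v ((n : ℝ) ^ a))) (hint n)
      (G := {η | GdU ρ β h t ((n : ℝ) ^ (x + ε)) n η}) (b := 4 * d * (n : ℝ) ^ (-(q : ℝ)))
      (by positivity)
      (fun η hη => (tube_good hd hρ ht0 htle hC₃ H₃' hR hη).trans
        ((mul_le_mul_of_nonneg_left (Real.exp_le_exp.2 hexp) (by positivity)).trans hasym))
      (hint0 n)
    have hset : ({η | GdU ρ β h t ((n : ℝ) ^ (x + ε)) n η} : Set (Env d))ᶜ =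
        {η | ¬ GdU ρ β h t ((n : ℝ) ^ (x + ε)) n η} := rfl
    rw [hset] at hmain
    refine hmain.trans ?_
    calc (law d ρ).real {η | ¬ GdU ρ β h t ((n : ℝ) ^ (x + ε)) n η} +
          4 * d * (n : ℝ) ^ (-(q : ℝ)) ≤ C₂ * (n : ℝ) ^ (-(q : ℝ)) +
          4 * d * (n : ℝ) ^ (-(q : ℝ)) := add_le_add hbad le_rfl
      _ = (C₂ + 4 * d) * (n : ℝ) ^ (-(q : ℝ)) := by ring
      _ ≤ _ := mul_le_mul_of_nonneg_right (le_max_left _ _) hq0

end Pool.Agent.W_7d29a1_h46u
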