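import Pool.Agent.W_7d29a1_h46u.SubgP
import Pool.Agent.W_7d29a1_h46u.Walk
import Pool.Agent.W_7d29a1_h46u.LawU

/-!
Concentration of the logarithm of the partition function.
-/

namespace Pool.Agent.W_7d29a1_h46u

open MeasureTheory ProbabilityTheory Filter Topology Pool.Agent.W_MP_7d29a1_pr
  Pool.Agent.W_7d29a1_h46

variable {d : ℕ} {ρ : Measure ℝ} [IsProbabilityMeasure ρ]

/-- The partition function as a function of the rows. -/
noncomputable def Zr {d : ℕ} (β : ℝ) (h : Vec d) (n : ℕ) (ξ : Fin n → Site d → ℝ) : ℝ :=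
  ∑ s : Fin n → Step d, Real.exp (inner ℝ h (emb (pos s n)) +
    β * ∑ i : Fin n, ξ i (pos s ((i : ℕ) + 1)))

lemma ConcU_alg {ι : Type*} (T : Finset ι) (u ζ : ι → ℝ) (hu : ∀ i ∈ T, 0 ≤ u i)
    (hU : 0 < ∑ i ∈ T, u i) : 0 < ∑ i ∈ T, Real.exp (ζ i) * u i ∧
    Real.exp (2 * |Real.log (∑ i ∈ T, Real.exp (ζ i) * u i) - Real.log (∑ i ∈ T, u i)|) ≤
      (∑ i ∈ T, u i * Real.exp (2 * |ζ i|)) / ∑ i ∈ T, u i := by
  obtain ⟨U, hUd⟩ : ∃ U : ℝ, U = ∑ i ∈ T, u i := ⟨_, rfl⟩
  obtain ⟨D, hD⟩ : ∃ D : ℝ, D = ∑ i ∈ T, Real.exp (ζ i) * u i := ⟨_, rfl⟩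
  obtain ⟨E, hE⟩ : ∃ E : ℝ, E = ∑ i ∈ T, Real.exp |ζ i| * u i := ⟨_, rfl⟩
  obtain ⟨F, hF⟩ : ∃ F : ℝ, F = ∑ i ∈ T, u i * Real.exp (2 * |ζ i|) := ⟨_, rfl⟩
  rw [← hD, ← hUd, ← hF]
  rw [← hUd] at hU
  have hD0 : 0 ≤ D := by
    rw [hD]
    exact Finset.sum_nonneg fun i hi => mul_nonneg (Real.exp_pos _).le (hu i hi)
  have hDE : D ≤ E := by
    rw [hD, hE]
    exact Finset.sum_le_sum fun i hi =>
      mul_le_mul_of_nonneg_right (Real.exp_le_exp.2 (le_abs_self _)) (hu i hi)
  have hUU : U ^ 2 ≤ D * E := by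
    rw [hUd, hD, hE]
    apply Finset.sum_sq_le_sum_mul_sum_of_sq_le_mul
    · intro i hi; exact mul_nonneg (Real.exp_pos _).le (hu i hi)
    · intro i hi; exact mul_nonneg (Real.exp_pos _).le (hu i hi)
    · intro i hi
      have h1 : 1 ≤ Real.exp (ζ i) * Real.exp |ζ i| := by
        rw [← Real.exp_add]
        apply Real.one_le_exp
        linarith [neg_abs_le (ζ i)]
      have h2 : 0 ≤ u i ^ 2 := sq_nonneg _
      nlinarith
  have hEE : E ^ 2 ≤ U * F := by
    rw [hUd, hE, hF]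
    apply Finset.sum_sq_le_sum_mul_sum_of_sq_le_mul
    · intro i hi; exact hu i hi
    · intro i hi; exact mul_nonneg (hu i hi) (Real.exp_pos _).le
    · intro i hi
      have h1 : Real.exp (2 * |ζ i|) = Real.exp |ζ i| ^ 2 := by
        rw [← Real.exp_nat_mul]
        push_cast
        rfl
      rw [h1]
      exact le_of_eq (by ring)
  have hDpos : 0 < D := by
    rcases hD0.lt_or_eq with h | h
    · exact h
    · rw [← h, zero_mul] at hUU
      have := pow_pos hU 2
      linarith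
  have hEpos : 0 < E := lt_of_lt_of_le hDpos hDE
  refine ⟨hDpos, ?_⟩
  have hq : (E / U) ^ 2 ≤ F / U := by
    rw [div_pow, div_le_div_iff₀ (by positivity) hU]
    nlinarith
  refine le_trans ?_ hq
  have h2 : Real.exp (2 * |Real.log D - Real.log U|) = Real.exp |Real.log D - Real.log U| ^ 2 := by
    rw [← Real.exp_nat_mul]
    push_cast
    rfl
  rw [h2]
  apply pow_le_pow_left₀ (Real.exp_pos _).le
  rcases abs_cases (Real.log D - Real.log U) with ⟨h, _⟩ | ⟨h, _⟩
  · rw [h, ← Real.log_div hDpos.ne' hU.ne', Real.exp_log (by positivity)]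
    exact div_le_div_of_nonneg_right hDE hU.le
  · rw [h, neg_sub, ← Real.log_div hU.ne' hDpos.ne', Real.exp_log (by positivity),
      div_le_div_iff₀ hDpos hU]
    nlinarith

lemma ConcU_exp_abs (t : ℝ) : Real.exp (2 * |t|) ≤ Real.exp (2 * t) + Real.exp (-(2 * t)) := by
  rcases abs_cases t with ⟨h, _⟩ | ⟨h, _⟩
  · rw [h]
    linarith [Real.exp_pos (-(2 * t))]
  · rw [h, mul_neg]
    linarith [Real.exp_pos (2 * t)]

/-- the weight of a walk without the row `i` -/
noncomputable def ConcU_w (β : ℝ) (h : Vec d) (n : ℕ) (i : Fin n) (ξ : Fin n → Site d → ℝ)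
    (s : Fin n → Step d) : ℝ :=
  Real.exp (inner ℝ h (emb (pos s n)) +
    β * ∑ j ∈ Finset.univ.erase i, ξ j (pos s ((j : ℕ) + 1)))

lemma ConcU_w_pos (β : ℝ) (h : Vec d) (n : ℕ) (i : Fin n) (ξ : Fin n → Site d → ℝ)
    (s : Fin n → Step d) : 0 < ConcU_w β h n i ξ s := Real.exp_pos _

lemma ConcU_meas (β : ℝ) (h : Vec d) (n : ℕ) (i : Fin n) (s : Fin n → Step d) :
    Measurable fun ξ : Fin n → Site d → ℝ => ConcU_w β h n i ξ s := by
  unfold ConcU_w
  refine Real.measurable_exp.comp (Measurable.const_add (Measurable.const_mul ?_ β) _)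
  refine Finset.measurable_sum _ fun j _ => ?_
  exact (measurable_pi_apply _).comp (measurable_pi_apply j)

lemma ConcU_upd (β : ℝ) (h : Vec d) (n : ℕ) (i : Fin n) (ξ : Fin n → Site d → ℝ)
    (u : Site d → ℝ) (s : Fin n → Step d) :
    ConcU_w β h n i (Function.update ξ i u) s = ConcU_w β h n i ξ s := by
  unfold ConcU_w
  congr 2
  congr 1
  refine Finset.sum_congr rfl fun j hj => ?_
  rw [Function.update_of_ne (Finset.ne_of_mem_erase hj)]

lemma ConcU_Zr (β : ℝ) (h : Vec d) (n : ℕ) (i : Fin n) (ξ : Fin n → Site d → ℝ)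
    (u : Site d → ℝ) : Zr β h n (Function.update ξ i u) =
      ∑ s : Fin n → Step d, Real.exp (β * u (pos s ((i : ℕ) + 1))) * ConcU_w β h n i ξ s := by
  unfold Zr
  refine Finset.sum_congr rfl fun s _ => ?_
  have h1 : ∑ j : Fin n, Function.update ξ i u j (pos s ((j : ℕ) + 1)) =
      u (pos s ((i : ℕ) + 1)) + ∑ j ∈ Finset.univ.erase i, ξ j (pos s ((j : ℕ) + 1)) := by
    rw [← Finset.add_sum_erase _ _ (Finset.mem_univ i), Function.update_self]
    congr 1
    refine Finset.sum_congr rfl fun j hj => ?_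
    rw [Function.update_of_ne (Finset.ne_of_mem_erase hj)]
  rw [h1]
  unfold ConcU_w
  rw [← Real.exp_add]
  congr 1
  ring

lemma ConcU_int (hρ : EM ρ) (b : ℝ) (y : Site d) :
    Integrable (fun u : Site d → ℝ => Real.exp (b * u y))
      (Measure.infinitePi fun _ : Site d => ρ) ∧
    ∫ u, Real.exp (b * u y) ∂(Measure.infinitePi fun _ : Site d => ρ) =
      ∫ t, Real.exp (b * t) ∂ρ := by
  have hmp : MeasurePreserving (Function.eval y) (Measure.infinitePi fun _ : Site d => ρ) ρ :=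
    measurePreserving_eval_infinitePi (fun _ : Site d => ρ) y
  have hm : Measurable fun t : ℝ => Real.exp (b * t) :=
    Real.measurable_exp.comp (measurable_id.const_mul b)
  refine ⟨(hmp.integrable_comp hm.aestronglyMeasurable).2 (hρ b), ?_⟩
  have h1 := integral_map (μ := Measure.infinitePi fun _ : Site d => ρ)
    hmp.measurable.aemeasurable (f := fun t : ℝ => Real.exp (b * t)) (by
      rw [hmp.map_eq]; exact hm.aestronglyMeasurable)
  rw [hmp.map_eq] at h1
  exact h1.symm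

/-- TASK ConcR. One row. `Zr (update ξ i u) = ∑_s W_s exp (β u (pos s (i+1)))` with
`W_s = exp (⟨h, pos s n⟩ + β ∑_{j ≠ i} ξ j (pos s (j+1))) > 0` not depending on row `i`; put
`G ξ = log ∑_s W_s`. Then `F (update ξ i u) - G ξ = log (∑_s p_s exp (β u (y_s)))`, `p_s = W_s / ∑ W`.
`exp (2 |log x|) ≤ x ^ 2 + x ^ (-2)`, and by Jensen (convexity of the square: Cauchy-Schwarz, and
`inner_le_nnorm_mul_nnorm`/`Finset` Jensen for `x ↦ x ^ (-2)`, or: `(∑ p e)^(-2) ≤ ∑ p e^(-2)`)
it is at most `∑_s p_s (exp (2 β u (y_s)) + exp (-2 β u (y_s)))`, whose integral is `Kc β ρ`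
(`measurePreserving_eval_infinitePi`). -/
theorem row_bound (hd : 0 < d) (hρ : EM ρ) (β : ℝ) (h : Vec d) (n : ℕ) (i : Fin n) :
    ∃ G : (Fin n → Site d → ℝ) → ℝ, Measurable G ∧
      (∀ ξ u, G (Function.update ξ i u) = G ξ) ∧
      ∀ ξ, Integrable (fun u => Real.exp (2 * |Real.log (Zr β h n (Function.update ξ i u)) - G ξ|))
          (Measure.infinitePi fun _ : Site d => ρ) ∧
        ∫ u, Real.exp (2 * |Real.log (Zr β h n (Function.update ξ i u)) - G ξ|)
          ∂(Measure.infinitePi fun _ : Site d => ρ) ≤ Kc β ρ := by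
  classical
  have hne : Nonempty (Fin n → Step d) := ⟨fun _ => (⟨0, hd⟩, true)⟩
  refine ⟨fun ξ => Real.log (∑ s, ConcU_w β h n i ξ s), ?_, ?_, ?_⟩
  · exact Real.measurable_log.comp (Finset.measurable_sum _ fun s _ => ConcU_meas β h n i s)
  · intro ξ u
    simp only [ConcU_upd]
  intro ξ
  obtain ⟨w, hw⟩ : ∃ w : (Fin n → Step d) → ℝ, w = ConcU_w β h n i ξ := ⟨_, rfl⟩
  obtain ⟨U, hU⟩ : ∃ U : ℝ, U = ∑ s, w s := ⟨_, rfl⟩
  have hw0 : ∀ s, 0 < w s := fun s => by rw [hw]; exact ConcU_w_pos _ _ _ _ _ _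
  have hU0 : 0 < U := by
    rw [hU]
    exact Finset.sum_pos (fun s _ => hw0 s) Finset.univ_nonempty
  -- the bound
  obtain ⟨B, hB⟩ : ∃ B : (Site d → ℝ) → ℝ, B = fun u => ∑ s, (w s / U) *
      (Real.exp (2 * β * u (pos s ((i : ℕ) + 1))) +
        Real.exp (-(2 * β) * u (pos s ((i : ℕ) + 1)))) := ⟨_, rfl⟩
  have hle : ∀ u : Site d → ℝ, Real.exp (2 * |Real.log (Zr β h n (Function.update ξ i u)) -
      Real.log (∑ s, ConcU_w β h n i ξ s)|) ≤ B u := by
    intro u
    rw [ConcU_Zr, ← hw]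
    have h1 := (ConcU_alg Finset.univ w (fun s => β * u (pos s ((i : ℕ) + 1)))
      (fun s _ => (hw0 s).le) (by rw [← hU]; exact hU0)).2
    refine h1.trans ?_
    rw [← hU, hB, Finset.sum_div]
    refine Finset.sum_le_sum fun s _ => ?_
    rw [mul_div_right_comm]
    refine mul_le_mul_of_nonneg_left ?_ (div_nonneg (hw0 s).le hU0.le)
    have h2 := ConcU_exp_abs (β * u (pos s ((i : ℕ) + 1)))
    have e1 : 2 * (β * u (pos s ((i : ℕ) + 1))) = 2 * β * u (pos s ((i : ℕ) + 1)) := by ring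
    have e2 : -(2 * (β * u (pos s ((i : ℕ) + 1)))) = -(2 * β) * u (pos s ((i : ℕ) + 1)) := by ring
    rw [e1] at h2
    rw [show -(2 * β * u (pos s ((i : ℕ) + 1))) = -(2 * β) * u (pos s ((i : ℕ) + 1)) by ring] at h2
    exact h2
  have hI : ∀ s : Fin n → Step d, Integrable (fun u : Site d → ℝ => (w s / U) *
      (Real.exp (2 * β * u (pos s ((i : ℕ) + 1))) +
        Real.exp (-(2 * β) * u (pos s ((i : ℕ) + 1)))))
      (Measure.infinitePi fun _ : Site d => ρ) := fun s =>
    ((ConcU_int hρ _ _).1.add (ConcU_int hρ _ _).1).const_mul _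
  have hBI : Integrable B (Measure.infinitePi fun _ : Site d => ρ) := by
    rw [hB]
    exact integrable_finsetSum _ fun s _ => hI s
  have hBv : ∫ u, B u ∂(Measure.infinitePi fun _ : Site d => ρ) = Kc β ρ := by
    rw [hB, integral_finsetSum _ fun s _ => hI s]
    have h3 : ∀ s : Fin n → Step d, ∫ u : Site d → ℝ, (w s / U) *
        (Real.exp (2 * β * u (pos s ((i : ℕ) + 1))) +
          Real.exp (-(2 * β) * u (pos s ((i : ℕ) + 1))))
        ∂(Measure.infinitePi fun _ : Site d => ρ) = (w s / U) * Kc β ρ := by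
      intro s
      rw [integral_const_mul, integral_add (ConcU_int hρ _ _).1 (ConcU_int hρ _ _).1,
        (ConcU_int hρ _ _).2, (ConcU_int hρ _ _).2]
      unfold Kc
      rw [← integral_add (hρ _) (hρ _)]
      congr 1
      refine integral_congr_ae (Filter.Eventually.of_forall fun t => ?_)
      change Real.exp (2 * β * t) + Real.exp (-(2 * β) * t) =
        Real.exp (2 * β * t) + Real.exp (-(2 * β * t))
      rw [neg_mul]
    rw [Finset.sum_congr rfl fun s _ => h3 s, ← Finset.sum_mul, ← Finset.sum_div, ← hU,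
      div_self hU0.ne', one_mul]
  have hmeas : Measurable fun u : Site d → ℝ =>
      Real.exp (2 * |Real.log (Zr β h n (Function.update ξ i u)) -
        Real.log (∑ s, ConcU_w β h n i ξ s)|) := by
    have h4 : Measurable fun u : Site d → ℝ => Zr β h n (Function.update ξ i u) := by
      simp only [ConcU_Zr]
      refine Finset.measurable_sum _ fun s _ => ?_
      have h6 : Measurable fun u : Site d → ℝ => u (pos s ((i : ℕ) + 1)) :=
        measurable_pi_apply _
      exact (Real.measurable_exp.comp (h6.const_mul β)).mul_const _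
    have h5 := ((Real.measurable_log.comp h4).sub_const (Real.log (∑ s, ConcU_w β h n i ξ s)))
    exact Real.measurable_exp.comp ((measurable_norm.comp h5).const_mul 2)
  have hint : Integrable (fun u : Site d → ℝ =>
      Real.exp (2 * |Real.log (Zr β h n (Function.update ξ i u)) -
        Real.log (∑ s, ConcU_w β h n i ξ s)|)) (Measure.infinitePi fun _ : Site d => ρ) := by
    refine hBI.mono' hmeas.aestronglyMeasurable (Filter.Eventually.of_forall fun u => ?_)
    rw [Real.norm_eq_abs, abs_of_pos (Real.exp_pos _)]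
    exact hle u
  refine ⟨hint, ?_⟩
  rw [← hBv]
  exact integral_mono hint hBI hle

end Pool.Agent.W_7d29a1_h46u
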