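import Pool.Agent.W_7d29a1_h46u.ConcV

/-!
The free energy in all dimensions.
-/

namespace Pool.Agent.W_7d29a1_h46u

open MeasureTheory ProbabilityTheory Filter Topology Pool.Agent.W_MP_7d29a1_pr
  Pool.Agent.W_7d29a1_h46

variable {d : ℕ} {ρ : Measure ℝ} [IsProbabilityMeasure ρ]

/-- The Gibbs weight of a walk. -/
noncomputable def FreeU_p (β : ℝ) (h : Vec d) (m : ℕ) (s : Fin m → Step d) (η : Env d) : ℝ :=
  wgt β h η s / Z β h η m

lemma FreeU_nonneg (hd : 0 < d) (β : ℝ) (h : Vec d) (m : ℕ) (s : Fin m → Step d) (η : Env d) :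
    0 ≤ FreeU_p β h m s η := div_nonneg (wgt_pos β h η s).le (Z_pos hd β h η m).le

lemma FreeU_sum (hd : 0 < d) (β : ℝ) (h : Vec d) (m : ℕ) (η : Env d) :
    ∑ s, FreeU_p β h m s η = 1 := by
  unfold FreeU_p
  rw [← Finset.sum_div, ← Z_eq, div_self (Z_pos hd β h η m).ne']

lemma FreeU_le_one (hd : 0 < d) (β : ℝ) (h : Vec d) (m : ℕ) (s : Fin m → Step d) (η : Env d) :
    FreeU_p β h m s η ≤ 1 := by
  rw [← FreeU_sum hd β h m η]
  exact Finset.single_le_sum (f := fun s => FreeU_p β h m s η)
    (fun r _ => FreeU_nonneg hd β h m r η) (Finset.mem_univ s)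

lemma FreeU_meas (β : ℝ) (h : Vec d) (m : ℕ) (s : Fin m → Step d) :
    Measurable (FreeU_p β h m s) := (measurable_wgt β h s).div (measurable_Z β h m)

lemma FreeU_dep (β : ℝ) (h : Vec d) (m : ℕ) (s : Fin m → Step d) :
    DependsOn (FreeU_p β h m s) {p : ℕ × Site d | p.1 ≤ m} := by
  intro η η' hη
  have h1 : energy η s = energy η' s := by
    unfold energy
    refine Finset.sum_congr rfl fun i _ => hη _ ?_
    exact i.2
  have h2 : Z β h η m = Z β h η' m :=
    dependsOn_Z β h m fun p hp => hη p hp.2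
  unfold FreeU_p wgt
  rw [h1, h2]

lemma FreeU_dep2 (β : ℝ) (h : Vec d) (m n : ℕ) (y : Site d) :
    DependsOn (fun η : Env d => X β h (sh m y η) n) {p : ℕ × Site d | p.1 ≤ m}ᶜ := by
  intro η η' hη
  have h2 : Z β h (sh m y η) n = Z β h (sh m y η') n := by
    refine dependsOn_Z β h n fun p hp => ?_
    refine hη (p.1 + m, p.2 + y) ?_
    have := hp.1
    change ¬ (p.1 + m ≤ m)
    omega
  simp only
  unfold X
  rw [h2]

lemma FreeU_pt (hd : 0 < d) (β : ℝ) (h : Vec d) (m n : ℕ) (η : Env d) :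
    X β h η m + ∑ s : Fin m → Step d, FreeU_p β h m s η * X β h (sh m (pos s m) η) n ≤
      X β h η (m + n) := by
  have hZ := Z_pos hd β h η m
  have h1 : Z β h η (m + n) = Z β h η m *
      ∑ s : Fin m → Step d, FreeU_p β h m s η * Z β h (sh m (pos s m) η) n := by
    rw [Z_add, Finset.mul_sum]
    refine Finset.sum_congr rfl fun s _ => ?_
    unfold FreeU_p
    rw [← mul_assoc, mul_div_cancel₀ _ hZ.ne']
  have hj := strictConcaveOn_log_Ioi.concaveOn.le_map_sum (t := Finset.univ)
    (w := fun s : Fin m → Step d => FreeU_p β h m s η)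
    (p := fun s : Fin m → Step d => Z β h (sh m (pos s m) η) n)
    (fun s _ => FreeU_nonneg hd β h m s η) (FreeU_sum hd β h m η)
    (fun s _ => Z_pos hd β h _ n)
  simp only [smul_eq_mul] at hj
  have hpos : 0 < ∑ s : Fin m → Step d, FreeU_p β h m s η * Z β h (sh m (pos s m) η) n := by
    by_contra hcon
    have h3 := Z_pos hd β h η (m + n)
    rw [h1] at h3
    exact hcon ((mul_pos_iff_of_pos_left hZ).1 h3)
  have h2 : X β h η (m + n) = X β h η m +
      Real.log (∑ s : Fin m → Step d, FreeU_p β h m s η * Z β h (sh m (pos s m) η) n) := by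
    unfold X
    rw [h1, Real.log_mul hZ.ne' hpos.ne']
  rw [h2]
  exact add_le_add le_rfl hj

/-- TASK FreeU1. Superadditivity. By `Z_add`, `X (m + n) = X m + log (∑_s p_s Z_n (sh m (pos s m)))`
with `p_s = wgt β h η s / Z β h η m`, and by Jensen (concavity of `log`)
`≥ X m + ∑_s p_s X_n (sh m (pos s m) η)`. `p_s` is bounded by `1`, measurable and depends on the rows
`≤ m`, `X_n (sh m y η)` on the rows `> m`, so by `integral_indep` and `integral_sh` the expectation
of `p_s X_n (...)` is `(∫ p_s) A_n`; `∑_s p_s = 1`. Compare `a_add_le` in `W_7d29a1_h47/FreeA.lean`. -/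
theorem A_add_le (hd : 0 < d) (hρ : EM ρ) (β : ℝ) (h : Vec d) (m n : ℕ) :
    A ρ β h m + A ρ β h n ≤ A ρ β h (m + n) := by
  have hX : ∀ k, Integrable (fun η => X β h η k) (law d ρ) := fun k => (concU hd hρ β h k).1
  have hXs : ∀ y : Site d, Integrable (fun η => X β h (sh m y η) n) (law d ρ) := fun y =>
    ((mp_sh m y).integrable_comp (measurable_X β h n).aestronglyMeasurable).2 (hX n)
  have hp : ∀ s : Fin m → Step d, Integrable (FreeU_p β h m s) (law d ρ) := fun s => by
    refine (integrable_const (1 : ℝ)).mono' (FreeU_meas β h m s).aestronglyMeasurable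
      (Filter.Eventually.of_forall fun η => ?_)
    rw [Real.norm_eq_abs, abs_of_nonneg (FreeU_nonneg hd β h m s η)]
    exact FreeU_le_one hd β h m s η
  have hpX : ∀ s : Fin m → Step d,
      Integrable (fun η => FreeU_p β h m s η * X β h (sh m (pos s m) η) n) (law d ρ) := fun s => by
    refine (hXs (pos s m)).bdd_mul (c := 1) (FreeU_meas β h m s).aestronglyMeasurable
      (Filter.Eventually.of_forall fun η => ?_)
    rw [Real.norm_eq_abs, abs_of_nonneg (FreeU_nonneg hd β h m s η)]
    exact FreeU_le_one hd β h m s η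
  have hS : Integrable (fun η => ∑ s : Fin m → Step d,
      FreeU_p β h m s η * X β h (sh m (pos s m) η) n) (law d ρ) :=
    integrable_finsetSum _ fun s _ => hpX s
  have hv : ∫ η, ∑ s : Fin m → Step d,
      FreeU_p β h m s η * X β h (sh m (pos s m) η) n ∂(law d ρ) = A ρ β h n := by
    rw [integral_finsetSum _ fun s _ => hpX s]
    have h1 : ∀ s : Fin m → Step d, ∫ η, FreeU_p β h m s η * X β h (sh m (pos s m) η) n ∂(law d ρ) =
        (∫ η, FreeU_p β h m s η ∂(law d ρ)) * A ρ β h n := by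
      intro s
      have h2 := integral_indep (ρ := ρ) {p : ℕ × Site d | p.1 ≤ m} (F := FreeU_p β h m s)
        (G := fun η => X β h (sh m (pos s m) η) n) (FreeU_meas β h m s)
        ((measurable_X β h n).comp (measurable_sh m (pos s m))) (FreeU_dep β h m s)
        (FreeU_dep2 β h m n (pos s m))
      rw [h2, integral_sh m (pos s m) (measurable_X β h n)]
      rfl
    rw [Finset.sum_congr rfl fun s _ => h1 s, ← Finset.sum_mul,
      ← integral_finsetSum _ fun s _ => hp s]
    simp only [FreeU_sum hd]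
    simp
  calc A ρ β h m + A ρ β h n = (∫ η, X β h η m ∂(law d ρ)) + ∫ η, ∑ s : Fin m → Step d,
        FreeU_p β h m s η * X β h (sh m (pos s m) η) n ∂(law d ρ) := by rw [hv]; rfl
    _ = ∫ η, (X β h η m + ∑ s : Fin m → Step d,
        FreeU_p β h m s η * X β h (sh m (pos s m) η) n) ∂(law d ρ) :=
        (integral_add (hX m) hS).symm
    _ ≤ ∫ η, X β h η (m + n) ∂(law d ρ) :=
        integral_mono ((hX m).add hS) (hX (m + n)) fun η => FreeU_pt hd β h m n η
    _ = A ρ β h (m + n) := rfl

end Pool.Agent.W_7d29a1_h46u
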