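import Pool.Agent.W_7d29a1_h46u.ConcV

/-!
The maximum over a box.
-/

namespace Pool.Agent.W_7d29a1_h46u

open MeasureTheory ProbabilityTheory Filter Topology Pool.Agent.W_MP_7d29a1_pr
  Pool.Agent.W_7d29a1_h46

variable {d : ℕ} {ρ : Measure ℝ} [IsProbabilityMeasure ρ]

lemma MaxU_point {D u : ℝ} (hu : 0 < u) (hD : 0 ≤ D) (Q : ℕ) :
    D ≤ u + D ^ (Q + 1) / u ^ Q := by
  by_cases h : D ≤ u
  · have : 0 ≤ D ^ (Q + 1) / u ^ Q := by positivity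
    linarith
  · rw [not_le] at h
    have h1 : (1 : ℝ) ≤ D ^ Q / u ^ Q := by
      rw [one_le_div (pow_pos hu Q)]
      exact pow_le_pow_left₀ hu.le h.le Q
    have h2 : D ^ (Q + 1) / u ^ Q = D * (D ^ Q / u ^ Q) := by rw [pow_succ]; ring
    rw [h2]
    have h3 : D * 1 ≤ D * (D ^ Q / u ^ Q) := mul_le_mul_of_nonneg_left h1 hD
    linarith

lemma MaxU_pow {d n Q : ℕ} {x ε : ℝ} (hn : 1 ≤ n) (hε : 0 < ε) (hQ : (d : ℝ) / ε ≤ Q) :
    (3 * (n : ℝ)) ^ d * ((n : ℝ) ^ (x * ((Q + 1 : ℕ) : ℝ)) / ((n : ℝ) ^ (x + ε)) ^ Q) ≤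
      3 ^ d * (n : ℝ) ^ (x + ε) := by
  have hn0 : (0 : ℝ) < n := by exact_mod_cast hn
  have hn1 : (1 : ℝ) ≤ n := by exact_mod_cast hn
  rw [mul_pow, mul_assoc]
  refine mul_le_mul_of_nonneg_left ?_ (by positivity)
  rw [← Real.rpow_natCast (n : ℝ) d, ← Real.rpow_natCast ((n : ℝ) ^ (x + ε)) Q,
    ← Real.rpow_mul hn0.le, ← Real.rpow_sub hn0, ← Real.rpow_add hn0]
  refine Real.rpow_le_rpow_of_exponent_le hn1 ?_
  rw [div_le_iff₀ hε] at hQ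
  push_cast
  nlinarith

/-- TASK MaxU. `max ≤ (∑ |.| ^ Q) ^ (1/Q)`, or: `max_y |D_y| ≤ n ^ (x + ε') + ∑_y |D_y| 1(|D_y| > n ^ (x + ε'))`
and `|D| 1(|D| > u) ≤ |D| ^ Q / u ^ (Q - 1)`. With `(2n+1)^d` sites, `∫ |D_y| ^ Q ≤ C n ^ (x Q)` and
`u = n ^ (x + ε)`: the sum is at most `(2n+1)^d C n ^ (x Q) / n ^ ((x+ε)(Q-1)) = (2n+1)^d C n ^ (x - ε (Q-1))
≤ C' n ^ x` for `ε (Q - 1) ≥ d`. -/
theorem max_dev (hd : 0 < d) (hρ : EM ρ) {β : ℝ} {h : Vec d} {x : ℝ} (hx : 0 ≤ x)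
    (hF : Fl ρ β h x) {ε : ℝ} (hε : 0 < ε) :
    ∃ δ > 0, ∃ C : ℝ, 0 ≤ C ∧ ∀ h' : Vec d, ‖h' - h‖ < δ → ∀ n : ℕ, 1 ≤ n →
      Integrable (fun η => (boxF d n).sup' ⟨0, zero_mem_boxF n⟩
        fun y => |X β h' (sh n y η) n - A ρ β h' n|) (law d ρ) ∧
      ∫ η, (boxF d n).sup' ⟨0, zero_mem_boxF n⟩
        (fun y => |X β h' (sh n y η) n - A ρ β h' n|) ∂(law d ρ) ≤ C * (n : ℝ) ^ (x + ε) := by
  obtain ⟨Q, hQ⟩ := exists_nat_ge ((d : ℝ) / ε)
  obtain ⟨δ, hδ, C, hC⟩ := hF (Q + 1)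
  obtain ⟨Cm, _, hCm⟩ := momU (ρ := ρ) hd hρ β (Q + 1)
  refine ⟨δ, hδ, 1 + 3 ^ d * |C|, by positivity, fun h' hh' n hn => ?_⟩
  have hn0 : (0 : ℝ) < n := by exact_mod_cast hn
  have hn1 : (1 : ℝ) ≤ n := by exact_mod_cast hn
  set u : ℝ := (n : ℝ) ^ (x + ε) with hu
  have hu0 : 0 < u := Real.rpow_pos_of_pos hn0 _
  set D : Site d → Env d → ℝ := fun y η => |X β h' (sh n y η) n - A ρ β h' n| with hD
  have hDm : ∀ y, Measurable (D y) := by
    intro y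
    have h1 : Measurable fun η : Env d => X β h' (sh n y η) n :=
      (measurable_X β h' n).comp (measurable_sh n y)
    exact (h1.sub measurable_const).norm
  have hPi : ∀ y, Integrable (fun η => D y η ^ (Q + 1)) (law d ρ) := by
    intro y
    exact (mp_sh n y).integrable_comp_of_integrable (hCm h' n hn).1
  have hPv : ∀ y, ∫ η, D y η ^ (Q + 1) ∂(law d ρ) ≤ |C| * (n : ℝ) ^ (x * ((Q + 1 : ℕ) : ℝ)) := by
    intro y
    have h1 : ∫ η, D y η ^ (Q + 1) ∂(law d ρ) =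
        ∫ η, |X β h' η n - A ρ β h' n| ^ (Q + 1) ∂(law d ρ) := by
      refine integral_sh n y (F := fun η => |X β h' η n - A ρ β h' n| ^ (Q + 1)) ?_
      exact (((measurable_X β h' n).sub measurable_const).norm).pow_const _
    rw [h1]
    refine (hC h' hh' n hn).trans ?_
    exact mul_le_mul_of_nonneg_right (le_abs_self C) (Real.rpow_nonneg hn0.le _)
  -- the bound
  have hle : ∀ η : Env d, (boxF d n).sup' ⟨0, zero_mem_boxF n⟩ (fun y => D y η) ≤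
      u + ∑ y ∈ boxF d n, D y η ^ (Q + 1) / u ^ Q := by
    intro η
    refine Finset.sup'_le _ _ fun y hy => ?_
    refine (MaxU_point hu0 (abs_nonneg _) Q).trans ?_
    have h1 : D y η ^ (Q + 1) / u ^ Q ≤ ∑ y ∈ boxF d n, D y η ^ (Q + 1) / u ^ Q :=
      Finset.single_le_sum (f := fun y => D y η ^ (Q + 1) / u ^ Q)
        (fun y _ => div_nonneg (pow_nonneg (abs_nonneg _) _) (pow_nonneg hu0.le _)) hy
    show u + D y η ^ (Q + 1) / u ^ Q ≤ _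
    linarith
  have h0 : ∀ η : Env d, 0 ≤ (boxF d n).sup' ⟨0, zero_mem_boxF n⟩ (fun y => D y η) := by
    intro η
    exact (abs_nonneg _).trans (Finset.le_sup' (fun y => D y η) (zero_mem_boxF n))
  have hSm : Measurable fun η : Env d =>
      (boxF d n).sup' ⟨0, zero_mem_boxF n⟩ (fun y => D y η) := by
    have h1 : Measurable ((boxF d n).sup' ⟨0, zero_mem_boxF n⟩ D) :=
      Finset.measurable_sup' _ fun y _ => hDm y
    have h3 : (fun η : Env d => (boxF d n).sup' ⟨0, zero_mem_boxF n⟩ (fun y => D y η)) =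
        (boxF d n).sup' ⟨0, zero_mem_boxF n⟩ D := by
      funext η
      rw [Finset.sup'_apply]
    rw [h3]
    exact h1
  have hBi : Integrable (fun η => u + ∑ y ∈ boxF d n, D y η ^ (Q + 1) / u ^ Q) (law d ρ) :=
    (integrable_const u).add (integrable_finsetSum _ fun y _ => (hPi y).div_const _)
  have hSi : Integrable (fun η : Env d =>
      (boxF d n).sup' ⟨0, zero_mem_boxF n⟩ (fun y => D y η)) (law d ρ) := by
    refine hBi.mono' hSm.aestronglyMeasurable (Eventually.of_forall fun η => ?_)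
    rw [Real.norm_eq_abs, abs_of_nonneg (h0 η)]
    exact hle η
  refine ⟨hSi, ?_⟩
  have h2 : ∫ η, (boxF d n).sup' ⟨0, zero_mem_boxF n⟩ (fun y => D y η) ∂(law d ρ) ≤
      ∫ η, (u + ∑ y ∈ boxF d n, D y η ^ (Q + 1) / u ^ Q) ∂(law d ρ) :=
    integral_mono hSi hBi hle
  refine h2.trans ?_
  rw [integral_add (integrable_const u)
    (integrable_finsetSum _ fun y _ => (hPi y).div_const _), integral_const,
    integral_finsetSum _ fun y _ => (hPi y).div_const _]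
  simp only [integral_div, probReal_univ, one_smul]
  have h3 : ∑ y ∈ boxF d n, (∫ η, D y η ^ (Q + 1) ∂(law d ρ)) / u ^ Q ≤
      (3 * (n : ℝ)) ^ d * ((|C| * (n : ℝ) ^ (x * ((Q + 1 : ℕ) : ℝ))) / u ^ Q) := by
    refine (Finset.sum_le_card_nsmul _ _ ((|C| * (n : ℝ) ^ (x * ((Q + 1 : ℕ) : ℝ))) / u ^ Q)
      fun y _ => ?_).trans ?_
    · exact div_le_div_of_nonneg_right (hPv y) (pow_nonneg hu0.le _)
    · rw [card_boxF, nsmul_eq_mul]
      refine mul_le_mul_of_nonneg_right ?_ (by positivity)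
      push_cast
      exact pow_le_pow_left₀ (by positivity) (by linarith) d
  have h4 := MaxU_pow (d := d) (x := x) hn hε hQ
  have h5 : (3 * (n : ℝ)) ^ d * ((|C| * (n : ℝ) ^ (x * ((Q + 1 : ℕ) : ℝ))) / u ^ Q) =
      |C| * ((3 * (n : ℝ)) ^ d * ((n : ℝ) ^ (x * ((Q + 1 : ℕ) : ℝ)) / u ^ Q)) := by
    ring
  have h6 : |C| * ((3 * (n : ℝ)) ^ d * ((n : ℝ) ^ (x * ((Q + 1 : ℕ) : ℝ)) / u ^ Q)) ≤
      |C| * (3 ^ d * u) := mul_le_mul_of_nonneg_left h4 (abs_nonneg C)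
  rw [h5] at h3
  have h7 : (1 + 3 ^ d * |C|) * u = u + |C| * (3 ^ d * u) := by ring
  rw [h7]
  linarith

end Pool.Agent.W_7d29a1_h46u
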