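import Pool.Agent.W_7d29a1_h46u.Defs

/-!
The strong exponents.
-/

namespace Pool.Agent.W_7d29a1_h46u

open MeasureTheory ProbabilityTheory Filter Topology Pool.Agent.W_MP_7d29a1_pr
  Pool.Agent.W_7d29a1_h46

/-- The set in the definition of the strong wandering exponent. -/
def nuSetS {Ω : Type*} [MeasurableSpace Ω] (μ : Measure Ω) {d : ℕ} (β : ℝ)
    (ω : ℕ × Site d → Ω → ℝ) (h v : Vec d) : Set ℝ :=
  {a | 0 < a ∧ ∀ q : ℕ, ∃ C : ℝ, ∀ n : ℕ, 1 ≤ n →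
    ∫ x, (1 - PolT β h (fun p => ω p x) (tube d n v ((n : ℝ) ^ a))) ∂μ ≤ C * (n : ℝ) ^ (-(q : ℝ))}

/-- The strong wandering exponent `ν*(h, v)`: the infimum of the `a > 0` such that the expected
polymer probability of leaving the tube of radius `n ^ a` is `O(n ^ (-q))` for every `q`. -/
noncomputable def nuS {Ω : Type*} [MeasurableSpace Ω] (μ : Measure Ω) {d : ℕ} (β : ℝ)
    (ω : ℕ × Site d → Ω → ℝ) (h v : Vec d) : ℝ := sInf (nuSetS μ β ω h v)

/-- The set in the definition of the strong fluctuation exponent. -/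
def chiSetS {Ω : Type*} [MeasurableSpace Ω] (μ : Measure Ω) {d : ℕ} (β : ℝ)
    (ω : ℕ × Site d → Ω → ℝ) (h : Vec d) : Set ℝ :=
  {x | 0 < x ∧ ∀ q : ℕ, ∃ δ > 0, ∃ C : ℝ, ∀ h' : Vec d, ‖h' - h‖ < δ → ∀ n : ℕ, 1 ≤ n →
    ∫ y, |Real.log (Zn β h' (fun p => ω p y) n) -
      ∫ z, Real.log (Zn β h' (fun p => ω p z) n) ∂μ| ^ q ∂μ ≤ C * (n : ℝ) ^ (x * q)}

/-- The strong fluctuation exponent `χ*(h)`: the infimum of the `x > 0` such that, for every `q`, the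
`q`-th central moment of `log Z_n(h')` is `O(n ^ (q x))`, uniformly for `h'` in a neighbourhood of
`h`. -/
noncomputable def chiS {Ω : Type*} [MeasurableSpace Ω] (μ : Measure Ω) {d : ℕ} (β : ℝ)
    (ω : ℕ × Site d → Ω → ℝ) (h : Vec d) : ℝ := sInf (chiSetS μ β ω h)

end Pool.Agent.W_7d29a1_h46u
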