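import Pool.Agent.W_7d29a1_h46u.Subg

/-!
An exponential martingale inequality for functions of independent rows.
-/

namespace Pool.Agent.W_7d29a1_h46u

open MeasureTheory ProbabilityTheory Filter Topology

/-- Jensen's inequality for `exp (2 |f|)`. -/
lemma SubgP_jensen {Ω : Type*} [MeasurableSpace Ω] {P : Measure Ω} [IsProbabilityMeasure P] {f : Ω → ℝ}
    (hf : Integrable f P) (hi : Integrable (fun w => Real.exp (2 * |f w|)) P) :
    Real.exp (2 * |∫ w, f w ∂P|) ≤ ∫ w, Real.exp (2 * |f w|) ∂P := by
  set m := ∫ w, f w ∂P with hm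
  have hfa : Integrable (fun w => |f w|) P := hf.abs
  have h6 : ∀ w, Real.exp (2 * |m|) * (1 + 2 * |f w| - 2 * |m|) ≤ Real.exp (2 * |f w|) :=
    fun w => Subg_tan _ _
  have h7 : Integrable (fun w => Real.exp (2 * |m|) * (1 + 2 * |f w| - 2 * |m|)) P :=
    ((((integrable_const (1 : ℝ)).add (hfa.const_mul 2)).sub
      (integrable_const (2 * |m|))).const_mul _)
  have h8 := integral_mono h7 hi h6
  have h9 : ∫ w, Real.exp (2 * |m|) * (1 + 2 * |f w| - 2 * |m|) ∂P =
      Real.exp (2 * |m|) * (1 + 2 * (∫ w, |f w| ∂P) - 2 * |m|) := by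
    have a1 : Integrable (fun w => 1 + 2 * |f w|) P :=
      (integrable_const (1 : ℝ)).add (hfa.const_mul 2)
    rw [integral_const_mul, integral_sub a1 (integrable_const _),
      integral_add (integrable_const _) (hfa.const_mul 2), integral_const_mul]
    simp
  rw [h9] at h8
  have h10 : |m| ≤ ∫ w, |f w| ∂P := abs_integral_le_integral_abs
  have h11 : Real.exp (2 * |m|) * 1 ≤
      Real.exp (2 * |m|) * (1 + 2 * (∫ w, |f w| ∂P) - 2 * |m|) :=
    mul_le_mul_of_nonneg_left (by linarith) (Real.exp_pos _).le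
  linarith

section cons

variable {R : Type*} [MeasurableSpace R] {π : Measure R} [IsProbabilityMeasure π] {n : ℕ}

lemma SubgP_mcons : Measurable (fun p : R × (Fin n → R) => (Fin.cons p.1 p.2 : Fin (n + 1) → R)) := by
  rw [measurable_pi_iff]
  intro i
  refine Fin.cases ?_ (fun j => ?_) i
  · simpa using measurable_fst
  · have h : Measurable (fun p : R × (Fin n → R) => p.2 j) :=
      (measurable_pi_apply j).comp (measurable_snd : Measurable (Prod.snd : R × (Fin n → R) → _))
    simpa using h

lemma SubgP_mp : MeasurePreserving (fun p : R × (Fin n → R) => (Fin.cons p.1 p.2 : Fin (n + 1) → R))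
    (π.prod (Measure.pi fun _ => π)) (Measure.pi fun _ => π) := by
  have h := (measurePreserving_piFinSuccAbove (fun _ : Fin (n + 1) => π) 0).symm
    (MeasurableEquiv.piFinSuccAbove (fun _ => R) 0)
  have e : (fun p : R × (Fin n → R) => (Fin.cons p.1 p.2 : Fin (n + 1) → R)) =
      ⇑(MeasurableEquiv.piFinSuccAbove (fun _ : Fin (n + 1) => R) 0).symm := by
    funext p
    simp [MeasurableEquiv.piFinSuccAbove, Fin.insertNthEquiv, Fin.insertNth_zero']
  rw [e]
  exact h

lemma SubgP_emb : MeasurableEmbedding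
    (fun p : R × (Fin n → R) => (Fin.cons p.1 p.2 : Fin (n + 1) → R)) := by
  have e : (fun p : R × (Fin n → R) => (Fin.cons p.1 p.2 : Fin (n + 1) → R)) =
      ⇑(MeasurableEquiv.piFinSuccAbove (fun _ : Fin (n + 1) => R) 0).symm := by
    funext p
    simp [MeasurableEquiv.piFinSuccAbove, Fin.insertNthEquiv, Fin.insertNth_zero']
  rw [e]
  exact MeasurableEquiv.measurableEmbedding _

lemma SubgP_integral (g : (Fin (n + 1) → R) → ℝ) :
    ∫ ξ, g ξ ∂(Measure.pi fun _ => π) =
      ∫ p : R × (Fin n → R), g (Fin.cons p.1 p.2) ∂(π.prod (Measure.pi fun _ => π)) :=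
  ((SubgP_mp (π := π) (n := n)).integral_comp SubgP_emb g).symm

lemma SubgP_integrable (g : (Fin (n + 1) → R) → ℝ) :
    Integrable g (Measure.pi fun _ => π) ↔
      Integrable (fun p : R × (Fin n → R) => g (Fin.cons p.1 p.2))
        (π.prod (Measure.pi fun _ => π)) :=
  ((SubgP_mp (π := π) (n := n)).integrable_comp_emb SubgP_emb).symm

end cons

/-- TASK SubgP. Proof by induction on `n`. For `n = 0` the space is one point. Step: write
`ξ = Fin.cons u ξ'` (measure preserving: `measurePreserving_piFinSuccAbove`, index `0`), let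
`Φ ξ' = ∫ F (Fin.cons u ξ') dπ(u)` and let `G₀` be the function of the hypothesis for `i = 0`;
`G₀ (Fin.cons u ξ')` does not depend on `u`. By `subgauss1`, for every `ξ'`: `F (Fin.cons · ξ')` is
integrable and `∫ exp (θ (F (Fin.cons u ξ') - Φ ξ')) dπ(u) ≤ exp (K ^ 2 θ ^ 2)`. `Φ` satisfies the
hypothesis with `G' ξ' = ∫ G_{i+1} (Fin.cons u ξ') dπ(u)`: by Fubini
`∫∫ exp (2 |F (cons u (update ξ' i w)) - G (cons u ξ')|) dπ(u) dπ(w) ≤ K` is finite, so for almost
every `w` the function of `u` is integrable, hence (choose such a `w`) `G (cons · ξ')` is integrable,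
and by Jensen `exp (2 |Φ (update ξ' i w) - G' ξ'|) ≤ ∫ exp (2 |F (cons u (update ξ' i w)) -
G (cons u ξ')|) dπ(u)` for almost every `w`. Finally
`∫ exp (θ (F - ∫ F)) = ∫ exp (θ (Φ ξ' - ∫ Φ)) (∫ exp (θ (F (cons u ξ') - Φ ξ')) dπ(u)) dξ'`, where
`∫ F = ∫ Φ` by Fubini (`F` is integrable on the product: `|F (cons u ξ') - Φ ξ'|` has integral in `u`
bounded uniformly, and `Φ` is integrable by induction). -/
theorem conc_pi {R : Type*} [MeasurableSpace R] {π : Measure R} [IsProbabilityMeasure π] {K : ℝ}
    (n : ℕ) : ∀ (F : (Fin n → R) → ℝ), Measurable F →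
    (∀ i : Fin n, ∃ G : (Fin n → R) → ℝ, Measurable G ∧
      (∀ ξ u, G (Function.update ξ i u) = G ξ) ∧
      ∀ ξ, Integrable (fun u => Real.exp (2 * |F (Function.update ξ i u) - G ξ|)) π ∧
        ∫ u, Real.exp (2 * |F (Function.update ξ i u) - G ξ|) ∂π ≤ K) →
    Integrable F (Measure.pi fun _ => π) ∧ ∀ θ : ℝ, |θ| ≤ 1 →
      Integrable (fun ξ => Real.exp (θ * (F ξ - ∫ ξ', F ξ' ∂(Measure.pi fun _ => π))))
        (Measure.pi fun _ => π) ∧
      ∫ ξ, Real.exp (θ * (F ξ - ∫ ξ', F ξ' ∂(Measure.pi fun _ => π))) ∂(Measure.pi fun _ => π) ≤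
        Real.exp (K ^ 2 * θ ^ 2 * n) := by
  induction n with
  | zero =>
    intro F hF _
    have hc : ∀ ξ : Fin 0 → R, F ξ = F (fun i => i.elim0) := fun ξ => by
      congr 1
      exact Subsingleton.elim _ _
    have hFi : Integrable F (Measure.pi fun _ : Fin 0 => π) :=
      (integrable_const (F (fun i => i.elim0))).congr (Eventually.of_forall fun ξ => (hc ξ).symm)
    have hint : ∫ ξ', F ξ' ∂(Measure.pi fun _ : Fin 0 => π) = F (fun i => i.elim0) := by
      rw [integral_congr_ae (Eventually.of_forall fun ξ => hc ξ)]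
      simp
    refine ⟨hFi, fun θ _ => ?_⟩
    have he : ∀ ξ : Fin 0 → R, Real.exp (θ * (F ξ - ∫ ξ', F ξ' ∂(Measure.pi fun _ : Fin 0 => π))) = 1 := by
      intro ξ
      rw [hint, hc ξ]
      simp
    refine ⟨(integrable_const (1 : ℝ)).congr (Eventually.of_forall fun ξ => (he ξ).symm), ?_⟩
    rw [integral_congr_ae (Eventually.of_forall fun ξ => he ξ)]
    simp
  | succ n ih =>
    intro F hF hG
    obtain ⟨u₀⟩ : Nonempty R := nonempty_of_isProbabilityMeasure π
    have hF' : Measurable (fun p : R × (Fin n → R) => F (Fin.cons p.1 p.2)) :=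
      hF.comp SubgP_mcons
    have hcu : ∀ (u v : R) (ξ' : Fin n → R),
        (Fin.cons u ξ' : Fin (n + 1) → R) = Function.update (Fin.cons v ξ') 0 u := fun u v ξ' => by
      rw [Fin.update_cons_zero]
    -- step (1)
    obtain ⟨G₀, hG₀m, hG₀u, hG₀⟩ := hG 0
    have hsub : ∀ (ξ' : Fin n → R) (θ : ℝ), |θ| ≤ 1 →
        Integrable (fun u => F (Fin.cons u ξ')) π ∧
        Integrable (fun u => Real.exp (θ * (F (Fin.cons u ξ') - ∫ w, F (Fin.cons w ξ') ∂π))) π ∧
        ∫ u, Real.exp (θ * (F (Fin.cons u ξ') - ∫ w, F (Fin.cons w ξ') ∂π)) ∂π ≤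
          Real.exp (K ^ 2 * θ ^ 2) := by
      intro ξ' θ hθ
      obtain ⟨h1, h2⟩ := hG₀ (Fin.cons u₀ ξ')
      simp_rw [← hcu] at h1 h2
      exact subgauss1 (hF'.comp (measurable_id.prodMk measurable_const)) h1 h2 hθ
    have hFi : ∀ ξ' : Fin n → R, Integrable (fun u => F (Fin.cons u ξ')) π := fun ξ' =>
      (hsub ξ' 0 (by simp)).1
    set Φ : (Fin n → R) → ℝ := fun ξ' => ∫ u, F (Fin.cons u ξ') ∂π with hΦ
    have hΦm : Measurable Φ := by
      have := (hF'.stronglyMeasurable).integral_prod_left' (μ := π)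
      exact this.measurable
    -- step (2)
    have hΦh : ∀ i : Fin n, ∃ G : (Fin n → R) → ℝ, Measurable G ∧
      (∀ ξ u, G (Function.update ξ i u) = G ξ) ∧
      ∀ ξ, Integrable (fun u => Real.exp (2 * |Φ (Function.update ξ i u) - G ξ|)) π ∧
        ∫ u, Real.exp (2 * |Φ (Function.update ξ i u) - G ξ|) ∂π ≤ K := by
      intro i
      obtain ⟨G, hGm, hGu, hGi⟩ := hG i.succ
      have hG' : Measurable (fun p : R × (Fin n → R) => G (Fin.cons p.1 p.2)) :=
        hGm.comp SubgP_mcons
      refine ⟨fun ξ' => ∫ u, G (Fin.cons u ξ') ∂π, ?_, ?_, ?_⟩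
      · have := (hG'.stronglyMeasurable).integral_prod_left' (μ := π)
        exact this.measurable
      · intro ξ' w
        refine integral_congr_ae (Eventually.of_forall fun u => ?_)
        show G (Fin.cons u (Function.update ξ' i w)) = G (Fin.cons u ξ')
        rw [Fin.cons_update, hGu]
      · intro ξ'
        have hup : Measurable (fun w : R => Function.update ξ' i w) := measurable_update ξ'
        have hHm : Measurable (fun p : R × R =>
            Real.exp (2 * |F (Fin.cons p.2 (Function.update ξ' i p.1)) - G (Fin.cons p.2 ξ')|)) := by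
          have m1 : Measurable (fun p : R × R =>
              F (Fin.cons p.2 (Function.update ξ' i p.1))) :=
            hF'.comp (measurable_snd.prodMk (hup.comp measurable_fst))
          have m2 : Measurable (fun p : R × R => G (Fin.cons p.2 ξ')) :=
            hG'.comp (measurable_snd.prodMk measurable_const)
          exact Real.measurable_exp.comp ((m1.sub m2).abs.const_mul 2)
        have hHi : ∀ u : R, Integrable (fun w => Real.exp (2 *
            |F (Fin.cons u (Function.update ξ' i w)) - G (Fin.cons u ξ')|)) π ∧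
            ∫ w, Real.exp (2 * |F (Fin.cons u (Function.update ξ' i w)) - G (Fin.cons u ξ')|) ∂π ≤
              K := by
          intro u
          obtain ⟨h1, h2⟩ := hGi (Fin.cons u ξ')
          simp_rw [← Fin.cons_update] at h1 h2
          exact ⟨h1, h2⟩
        have hHp : Integrable (fun p : R × R =>
            Real.exp (2 * |F (Fin.cons p.2 (Function.update ξ' i p.1)) - G (Fin.cons p.2 ξ')|))
            (π.prod π) := by
          rw [integrable_prod_iff' hHm.aestronglyMeasurable]
          refine ⟨Eventually.of_forall fun u => (hHi u).1, ?_⟩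
          refine (integrable_const K).mono' ?_ (Eventually.of_forall fun u => ?_)
          · exact (hHm.norm.stronglyMeasurable.integral_prod_left'
              (μ := π)).aestronglyMeasurable
          · rw [Real.norm_eq_abs, abs_of_nonneg (integral_nonneg fun w => norm_nonneg _)]
            simp_rw [Real.norm_eq_abs, abs_of_pos (Real.exp_pos _)]
            exact (hHi u).2
        have hae : ∀ᵐ w ∂π, Integrable (fun u => Real.exp (2 *
            |F (Fin.cons u (Function.update ξ' i w)) - G (Fin.cons u ξ')|)) π :=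
          ((integrable_prod_iff hHm.aestronglyMeasurable).1 hHp).1
        have hFG : ∀ w, Integrable (fun u => Real.exp (2 *
            |F (Fin.cons u (Function.update ξ' i w)) - G (Fin.cons u ξ')|)) π →
            Integrable (fun u => F (Fin.cons u (Function.update ξ' i w)) - G (Fin.cons u ξ')) π := by
          intro w hw
          refine hw.mono' ?_ (Eventually.of_forall fun u => ?_)
          · have m1 : Measurable (fun u : R => F (Fin.cons u (Function.update ξ' i w))) :=
              hF'.comp (measurable_id.prodMk measurable_const)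
            have m2 : Measurable (fun u : R => G (Fin.cons u ξ')) :=
              hG'.comp (measurable_id.prodMk measurable_const)
            exact (m1.sub m2).aestronglyMeasurable
          · rw [Real.norm_eq_abs]
            have h1 := Real.add_one_le_exp (2 *
              |F (Fin.cons u (Function.update ξ' i w)) - G (Fin.cons u ξ')|)
            have h2 := abs_nonneg (F (Fin.cons u (Function.update ξ' i w)) - G (Fin.cons u ξ'))
            linarith
        have hGint : Integrable (fun u => G (Fin.cons u ξ')) π := by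
          obtain ⟨w, hw⟩ := hae.exists
          have h1 := hFG w hw
          have h2 := (hFi (Function.update ξ' i w)).sub h1
          refine h2.congr (Eventually.of_forall fun u => ?_)
          simp
        have hdiff : ∀ w, Φ (Function.update ξ' i w) - ∫ u, G (Fin.cons u ξ') ∂π =
            ∫ u, (F (Fin.cons u (Function.update ξ' i w)) - G (Fin.cons u ξ')) ∂π := by
          intro w
          rw [integral_sub (hFi _) hGint]
        have hJ : ∀ᵐ w ∂π, Real.exp (2 * |Φ (Function.update ξ' i w) -
            ∫ u, G (Fin.cons u ξ') ∂π|) ≤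
            ∫ u, Real.exp (2 * |F (Fin.cons u (Function.update ξ' i w)) - G (Fin.cons u ξ')|) ∂π := by
          filter_upwards [hae] with w hw
          rw [hdiff]
          exact SubgP_jensen (hFG w hw) hw
        have hmi : Integrable (fun w => ∫ u, Real.exp (2 *
            |F (Fin.cons u (Function.update ξ' i w)) - G (Fin.cons u ξ')|) ∂π) π :=
          hHp.integral_prod_left
        have hle : ∫ w, (∫ u, Real.exp (2 *
            |F (Fin.cons u (Function.update ξ' i w)) - G (Fin.cons u ξ')|) ∂π) ∂π ≤ K := by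
          have e1 := integral_integral_swap (μ := π) (ν := π) (f := fun w u => Real.exp (2 *
            |F (Fin.cons u (Function.update ξ' i w)) - G (Fin.cons u ξ')|)) hHp
          rw [e1]
          have h3 := integral_mono (μ := π) (f := fun u => ∫ w, Real.exp (2 *
            |F (Fin.cons u (Function.update ξ' i w)) - G (Fin.cons u ξ')|) ∂π)
            (g := fun _ => K) hHp.integral_prod_right (integrable_const K) (fun u => (hHi u).2)
          simpa using h3
        have hmeas : Measurable (fun w => Real.exp (2 * |Φ (Function.update ξ' i w) -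
            ∫ u, G (Fin.cons u ξ') ∂π|)) :=
          Real.measurable_exp.comp (((hΦm.comp hup).sub_const _).abs.const_mul 2)
        have hint : Integrable (fun w => Real.exp (2 * |Φ (Function.update ξ' i w) -
            ∫ u, G (Fin.cons u ξ') ∂π|)) π := by
          refine hmi.mono' hmeas.aestronglyMeasurable ?_
          filter_upwards [hJ] with w hw
          rw [Real.norm_eq_abs, abs_of_pos (Real.exp_pos _)]
          exact hw
        exact ⟨hint, (integral_mono_ae hint hmi hJ).trans hle⟩
    -- step (3)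
    obtain ⟨hΦi, hΦθ⟩ := ih Φ hΦm hΦh
    -- step (4)
    have habs : ∀ ξ' : Fin n → R, ∫ u, |F (Fin.cons u ξ')| ∂π ≤
        2 * Real.exp (K ^ 2) + |Φ ξ'| := by
      intro ξ'
      obtain ⟨_, i1, l1⟩ := hsub ξ' 1 (by simp)
      obtain ⟨_, i2, l2⟩ := hsub ξ' (-1) (by simp)
      have h1 : ∀ u, |F (Fin.cons u ξ')| ≤ Real.exp (1 * (F (Fin.cons u ξ') - Φ ξ')) +
          Real.exp (-1 * (F (Fin.cons u ξ') - Φ ξ')) + |Φ ξ'| := by
        intro u
        have a1 := abs_sub_abs_le_abs_sub (F (Fin.cons u ξ')) (Φ ξ')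
        have a2 : |F (Fin.cons u ξ') - Φ ξ'| ≤ Real.exp (1 * (F (Fin.cons u ξ') - Φ ξ')) +
          Real.exp (-1 * (F (Fin.cons u ξ') - Φ ξ')) := by
          have p1 := Real.exp_pos (1 * (F (Fin.cons u ξ') - Φ ξ'))
          have p2 := Real.exp_pos (-1 * (F (Fin.cons u ξ') - Φ ξ'))
          have q1 := Real.add_one_le_exp (1 * (F (Fin.cons u ξ') - Φ ξ'))
          have q2 := Real.add_one_le_exp (-1 * (F (Fin.cons u ξ') - Φ ξ'))
          rcases abs_cases (F (Fin.cons u ξ') - Φ ξ') with ⟨h, _⟩ | ⟨h, _⟩ <;> rw [h] <;> linarith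
        linarith
      have i3 : Integrable (fun u => Real.exp (1 * (F (Fin.cons u ξ') - Φ ξ')) +
          Real.exp (-1 * (F (Fin.cons u ξ') - Φ ξ'))) π := i1.add i2
      have h2 := integral_mono (hFi ξ').abs (i3.add (integrable_const |Φ ξ'|)) h1
      have h3 : ∫ u, (Real.exp (1 * (F (Fin.cons u ξ') - Φ ξ')) +
          Real.exp (-1 * (F (Fin.cons u ξ') - Φ ξ')) + |Φ ξ'|) ∂π =
          ∫ u, Real.exp (1 * (F (Fin.cons u ξ') - Φ ξ')) ∂π +
          ∫ u, Real.exp (-1 * (F (Fin.cons u ξ') - Φ ξ')) ∂π + |Φ ξ'| := by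
        rw [integral_add i3 (integrable_const _), integral_add i1 i2, integral_const, probReal_univ,
          one_smul]
      have h4 : K ^ 2 * (1 : ℝ) ^ 2 = K ^ 2 := by ring
      have h5 : K ^ 2 * (-1 : ℝ) ^ 2 = K ^ 2 := by ring
      rw [h4] at l1
      rw [h5] at l2
      simp only [Pi.add_apply] at h2
      rw [h3] at h2
      linarith
    have hF'i : Integrable (fun p : R × (Fin n → R) => F (Fin.cons p.1 p.2))
        (π.prod (Measure.pi fun _ => π)) := by
      rw [integrable_prod_iff' hF'.aestronglyMeasurable]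
      refine ⟨Eventually.of_forall fun ξ' => hFi ξ', ?_⟩
      refine ((integrable_const (2 * Real.exp (K ^ 2))).add hΦi.abs).mono' ?_
        (Eventually.of_forall fun ξ' => ?_)
      · exact (hF'.norm.stronglyMeasurable.integral_prod_left' (μ := π)).aestronglyMeasurable
      · rw [Real.norm_eq_abs, abs_of_nonneg (integral_nonneg fun w => norm_nonneg _)]
        exact habs ξ'
    have hFint : Integrable F (Measure.pi fun _ => π) := (SubgP_integrable F).2 hF'i
    refine ⟨hFint, fun θ hθ => ?_⟩
    -- step (5)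
    have hmean : ∫ ξ, F ξ ∂(Measure.pi fun _ => π) = ∫ ξ', Φ ξ' ∂(Measure.pi fun _ => π) := by
      rw [SubgP_integral, integral_prod_symm _ hF'i]
    rw [hmean]
    set m := ∫ ξ', Φ ξ' ∂(Measure.pi fun _ => π) with hm
    obtain ⟨hΦe, hΦl⟩ := hΦθ θ hθ
    have hsplit : ∀ (u : R) (ξ' : Fin n → R), Real.exp (θ * (F (Fin.cons u ξ') - m)) =
        Real.exp (θ * (Φ ξ' - m)) * Real.exp (θ * (F (Fin.cons u ξ') - Φ ξ')) := by
      intro u ξ'
      rw [← Real.exp_add]
      congr 1
      ring
    have hEm : Measurable (fun p : R × (Fin n → R) => Real.exp (θ * (F (Fin.cons p.1 p.2) - m))) :=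
      Real.measurable_exp.comp ((hF'.sub_const m).const_mul θ)
    have hin : ∀ ξ' : Fin n → R, ∫ u, Real.exp (θ * (F (Fin.cons u ξ') - m)) ∂π ≤
        Real.exp (K ^ 2 * θ ^ 2) * Real.exp (θ * (Φ ξ' - m)) := by
      intro ξ'
      simp_rw [hsplit]
      rw [integral_const_mul, mul_comm]
      exact mul_le_mul_of_nonneg_right (hsub ξ' θ hθ).2.2 (Real.exp_pos _).le
    have hEi : Integrable (fun p : R × (Fin n → R) => Real.exp (θ * (F (Fin.cons p.1 p.2) - m)))
        (π.prod (Measure.pi fun _ => π)) := by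
      rw [integrable_prod_iff' hEm.aestronglyMeasurable]
      refine ⟨Eventually.of_forall fun ξ' => ?_, ?_⟩
      · simp_rw [hsplit]
        exact (hsub ξ' θ hθ).2.1.const_mul _
      · refine (hΦe.const_mul (Real.exp (K ^ 2 * θ ^ 2))).mono' ?_ (Eventually.of_forall fun ξ' => ?_)
        · exact (hEm.norm.stronglyMeasurable.integral_prod_left' (μ := π)).aestronglyMeasurable
        · rw [Real.norm_eq_abs, abs_of_nonneg (integral_nonneg fun w => norm_nonneg _)]
          simp_rw [Real.norm_eq_abs, abs_of_pos (Real.exp_pos _)]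
          exact hin ξ'
    refine ⟨(SubgP_integrable (fun ξ => Real.exp (θ * (F ξ - m)))).2 hEi, ?_⟩
    rw [SubgP_integral, integral_prod_symm _ hEi]
    have h1 := integral_mono hEi.integral_prod_right (hΦe.const_mul (Real.exp (K ^ 2 * θ ^ 2))) hin
    refine h1.trans ?_
    rw [integral_const_mul]
    refine (mul_le_mul_of_nonneg_left hΦl (Real.exp_pos _).le).trans ?_
    rw [← Real.exp_add]
    refine Real.exp_le_exp.2 ?_
    push_cast
    linarith

end Pool.Agent.W_7d29a1_h46u
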