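import Pool.Agent.W_7d29a1_h46u.TubV
import Pool.Agent.W_7d29a1_h46u.TailU

/-!
The mass outside of a tube: the probability of the good event.
-/

namespace Pool.Agent.W_7d29a1_h46u

open MeasureTheory ProbabilityTheory Filter Topology Pool.Agent.W_MP_7d29a1_pr
  Pool.Agent.W_7d29a1_h46

variable {d : ℕ} {ρ : Measure ℝ} [IsProbabilityMeasure ρ]

/-- TASK TubP. Union bound with `tailU` (exponent `q + d + 2` in place of `q`), `u = n ^ (x + ε)`: there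
are `(n + 1) (2 n + 1) ^ d + 2 d (n + 1)` events. The tilts `h ± t e_j` are at distance `t` from `h`
(`‖ej j‖ = 1`), smaller than `δ` if `t < δ`. -/
theorem prob_good (hd : 0 < d) (hρ : EM ρ) {β : ℝ} {h : Vec d} {x : ℝ} (hx : 0 ≤ x)
    (hF : Fl ρ β h x) {ε : ℝ} (hε : 0 < ε) (q : ℕ) :
    ∃ δ > 0, ∃ C : ℝ, 0 ≤ C ∧ ∀ n : ℕ, 1 ≤ n → ∀ t : ℝ, |t| < δ →
      (law d ρ).real {η | ¬ GdU ρ β h t ((n : ℝ) ^ (x + ε)) n η} ≤ C * (n : ℝ) ^ (-(q : ℝ)) := by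
  classical
  obtain ⟨δ, hδ, C₀, hC₀, hT⟩ := tailU hd hρ hx hF hε (q + d + 2)
  refine ⟨δ, hδ, C₀ * (4 * d + 2 * 3 ^ d), by positivity, fun n hn t ht => ?_⟩
  have hn1 : (1 : ℝ) ≤ n := by exact_mod_cast hn
  have hn0 : (0 : ℝ) < n := by linarith
  obtain ⟨u, hu⟩ : ∃ u : ℝ, u = (n : ℝ) ^ (x + ε) := ⟨_, rfl⟩
  obtain ⟨B, hB⟩ : ∃ B : ℝ, B = C₀ * (n : ℝ) ^ (-((q + d + 2 : ℕ) : ℝ)) := ⟨_, rfl⟩
  have hB0 : 0 ≤ B := by
    rw [hB]
    exact mul_nonneg hC₀ (Real.rpow_nonneg hn0.le _)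
  have hsh0 : ∀ η : Env d, sh 0 0 η = η := by
    intro η
    funext p
    unfold sh
    rw [add_zero, add_zero]
  -- the events
  obtain ⟨S1, hS1⟩ : ∃ S1 : ℕ × Fin d × Bool → Set (Env d), S1 = fun a =>
      {η | u < |X β (h + (if a.2.2 then t else -t) • ej a.2.1) η a.1 -
        A ρ β (h + (if a.2.2 then t else -t) • ej a.2.1) a.1|} := ⟨_, rfl⟩
  obtain ⟨S2, hS2⟩ : ∃ S2 : ℕ × Site d → Set (Env d), S2 = fun a =>
      {η | u < |X β h (sh a.1 a.2 η) (n - a.1) - A ρ β h (n - a.1)|} := ⟨_, rfl⟩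
  have hej : ∀ j : Fin d, ‖ej j‖ = 1 := by
    intro j
    unfold ej
    simp
  have h1 : ∀ a ∈ (Finset.range (n + 1)) ×ˢ (Finset.univ : Finset (Fin d × Bool)),
      (law d ρ).real (S1 a) ≤ B := by
    intro a ha
    have ha1 : a.1 ≤ n := Nat.lt_succ_iff.1 (Finset.mem_range.1 (Finset.mem_product.1 ha).1)
    have h2 := hT (h + (if a.2.2 then t else -t) • ej a.2.1) (by
      rw [add_sub_cancel_left, norm_smul, hej, mul_one, Real.norm_eq_abs]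
      split_ifs
      · exact ht
      · rw [abs_neg]
        exact ht) n a.1 hn ha1 0 0
    simp only [hsh0] at h2
    rw [hB, hS1, hu]
    exact h2
  have h2 : ∀ a ∈ (Finset.range (n + 1)) ×ˢ boxF d n, (law d ρ).real (S2 a) ≤ B := by
    intro a ha
    have h3 := hT h (by rw [sub_self, norm_zero]; exact hδ) n (n - a.1) hn (Nat.sub_le _ _)
      a.1 a.2
    rw [hB, hS2, hu]
    exact h3
  have hsub : {η | ¬ GdU ρ β h t ((n : ℝ) ^ (x + ε)) n η} ⊆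
      (⋃ a ∈ (Finset.range (n + 1)) ×ˢ (Finset.univ : Finset (Fin d × Bool)), S1 a) ∪
        ⋃ a ∈ (Finset.range (n + 1)) ×ˢ boxF d n, S2 a := by
    intro η hη
    by_contra hcon
    rw [Set.mem_union, not_or, Set.mem_iUnion₂, Set.mem_iUnion₂] at hcon
    obtain ⟨c1, c2⟩ := hcon
    apply hη
    rw [← hu]
    refine ⟨fun i hi j => ⟨?_, ?_⟩, fun i hi y hy => ?_⟩
    · by_contra hc
      refine c1 ⟨(i, j, true), ?_, ?_⟩
      · exact Finset.mem_product.2 ⟨Finset.mem_range.2 (Nat.lt_succ_iff.2 hi),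
          Finset.mem_univ _⟩
      · rw [hS1]
        exact not_le.1 hc
    · by_contra hc
      refine c1 ⟨(i, j, false), ?_, ?_⟩
      · exact Finset.mem_product.2 ⟨Finset.mem_range.2 (Nat.lt_succ_iff.2 hi),
          Finset.mem_univ _⟩
      · rw [hS1]
        exact not_le.1 hc
    · by_contra hc
      refine c2 ⟨(i, y), ?_, ?_⟩
      · exact Finset.mem_product.2 ⟨Finset.mem_range.2 (Nat.lt_succ_iff.2 hi), hy⟩
      · rw [hS2]
        exact not_le.1 hc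
  have h3 : (law d ρ).real {η | ¬ GdU ρ β h t ((n : ℝ) ^ (x + ε)) n η} ≤
      ((n : ℝ) + 1) * (d * 2) * B + ((n : ℝ) + 1) * (2 * n + 1) ^ d * B := by
    refine (measureReal_mono hsub).trans ((measureReal_union_le _ _).trans (add_le_add ?_ ?_))
    · refine (measureReal_biUnion_finset_le _ _).trans ((Finset.sum_le_sum h1).trans
        (le_of_eq ?_))
      rw [Finset.sum_const, Finset.card_product, Finset.card_range, Finset.card_univ,
        Fintype.card_prod, Fintype.card_fin, Fintype.card_bool, nsmul_eq_mul]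
      push_cast
      ring
    · refine (measureReal_biUnion_finset_le _ _).trans ((Finset.sum_le_sum h2).trans
        (le_of_eq ?_))
      rw [Finset.sum_const, Finset.card_product, Finset.card_range, card_boxF, nsmul_eq_mul]
      push_cast
      ring
  have h4 : (n : ℝ) + 1 ≤ 2 * n := by linarith
  have h5 : (2 * (n : ℝ) + 1) ^ d ≤ 3 ^ d * (n : ℝ) ^ d := by
    rw [← mul_pow]
    exact pow_le_pow_left₀ (by positivity) (by linarith) d
  have h6 : (1 : ℝ) ≤ (n : ℝ) ^ d := one_le_pow₀ hn1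
  have h7 : ((n : ℝ) + 1) * (d * 2) * B ≤ (4 * d) * ((n : ℝ) ^ (d + 1) * B) := by
    have e1 : ((n : ℝ) + 1) * (d * 2) ≤ (2 * n) * (d * 2) :=
      mul_le_mul_of_nonneg_right h4 (by positivity)
    have e2 : (2 * (n : ℝ)) * (d * 2) ≤ (4 * d) * ((n : ℝ) ^ d * n) := by
      have e3 : (n : ℝ) ≤ (n : ℝ) ^ d * n := le_mul_of_one_le_left hn0.le h6
      have e4 := mul_le_mul_of_nonneg_left e3 (show (0 : ℝ) ≤ 4 * d by positivity)
      linarith
    have e5 := mul_le_mul_of_nonneg_right (e1.trans e2) hB0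
    rw [pow_succ]
    linarith
  have h8 : ((n : ℝ) + 1) * (2 * n + 1) ^ d * B ≤ (2 * 3 ^ d) * ((n : ℝ) ^ (d + 1) * B) := by
    have e1 : ((n : ℝ) + 1) * (2 * n + 1) ^ d ≤ (2 * n) * (3 ^ d * (n : ℝ) ^ d) :=
      mul_le_mul h4 h5 (by positivity) (by positivity)
    have e5 := mul_le_mul_of_nonneg_right e1 hB0
    rw [pow_succ]
    linarith
  have h9 : (n : ℝ) ^ (d + 1) * B ≤ C₀ * (n : ℝ) ^ (-(q : ℝ)) := by
    rw [hB]
    have e1 : (n : ℝ) ^ (d + 1) * (n : ℝ) ^ (-((q + d + 2 : ℕ) : ℝ)) ≤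
        (n : ℝ) ^ (-(q : ℝ)) := by
      rw [← Real.rpow_natCast, ← Real.rpow_add hn0]
      refine Real.rpow_le_rpow_of_exponent_le hn1 ?_
      push_cast
      linarith
    calc (n : ℝ) ^ (d + 1) * (C₀ * (n : ℝ) ^ (-((q + d + 2 : ℕ) : ℝ)))
        = C₀ * ((n : ℝ) ^ (d + 1) * (n : ℝ) ^ (-((q + d + 2 : ℕ) : ℝ))) := by ring
      _ ≤ C₀ * (n : ℝ) ^ (-(q : ℝ)) := mul_le_mul_of_nonneg_left e1 hC₀
  have h10 : (4 * (d : ℝ) + 2 * 3 ^ d) * ((n : ℝ) ^ (d + 1) * B) ≤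
      (4 * (d : ℝ) + 2 * 3 ^ d) * (C₀ * (n : ℝ) ^ (-(q : ℝ))) :=
    mul_le_mul_of_nonneg_left h9 (by positivity)
  calc (law d ρ).real {η | ¬ GdU ρ β h t ((n : ℝ) ^ (x + ε)) n η}
      ≤ ((n : ℝ) + 1) * (d * 2) * B + ((n : ℝ) + 1) * (2 * n + 1) ^ d * B := h3
    _ ≤ (4 * d) * ((n : ℝ) ^ (d + 1) * B) + (2 * 3 ^ d) * ((n : ℝ) ^ (d + 1) * B) :=
        add_le_add h7 h8
    _ = (4 * (d : ℝ) + 2 * 3 ^ d) * ((n : ℝ) ^ (d + 1) * B) := by ring
    _ ≤ (4 * (d : ℝ) + 2 * 3 ^ d) * (C₀ * (n : ℝ) ^ (-(q : ℝ))) := h10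
    _ = C₀ * (4 * d + 2 * 3 ^ d) * (n : ℝ) ^ (-(q : ℝ)) := by ring

end Pool.Agent.W_7d29a1_h46u
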